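import Pool.Agent.MP_750e50_lc.Defs

/-!
# Measurability lemmas, graphs of countable Borel equivalence relations, finite colourings
-/

set_option autoImplicit false

open Filter

namespace Pool.Agent.MP_750e50_lc

section Finsets

variable {X : Type} [MeasurableSpace X]

theorem meas_eq_of_mem {S : X → Finset ℕ} (hS : ∀ v, MeasurableSet {x | v ∈ S x})
    (s : Finset ℕ) : MeasurableSet {x | S x = s} := by
  have h1 : {x | S x = s} = ⋂ v : ℕ, {x | v ∈ S x ↔ v ∈ s} := by
    ext x
    simp only [Set.mem_iInter, Set.mem_ofPred_eq]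
    exact Finset.ext_iff
  rw [h1]
  refine MeasurableSet.iInter fun v => ?_
  by_cases hv : v ∈ s
  · have h2 : {x | v ∈ S x ↔ v ∈ s} = {x | v ∈ S x} := by
      ext x
      simp [hv]
    rw [h2]
    exact hS v
  · have h2 : {x | v ∈ S x ↔ v ∈ s} = {x | v ∈ S x}ᶜ := by
      ext x
      simp [hv]
    rw [h2]
    exact (hS v).compl

theorem meas_comp_finset {S : X → Finset ℕ} (hS : ∀ v, MeasurableSet {x | v ∈ S x})
    {β : Type} [MeasurableSpace β] (G : Finset ℕ → β) : Measurable fun x => G (S x) := by
  intro B _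
  have h1 : (fun x => G (S x)) ⁻¹' B = ⋃ s : {s : Finset ℕ // G s ∈ B}, {x | S x = s.1} := by
    ext x
    simp only [Set.mem_preimage, Set.mem_iUnion, Set.mem_ofPred_eq]
    constructor
    · intro h
      exact ⟨⟨S x, h⟩, rfl⟩
    · rintro ⟨⟨s, hs⟩, h⟩
      rw [h]
      exact hs
  rw [h1]
  exact MeasurableSet.iUnion fun s => meas_eq_of_mem hS s.1

theorem meas_diag {f : ℕ → X → ℕ} (hf : ∀ m, Measurable (f m)) {N : X → ℕ} (hN : Measurable N) :
    Measurable fun x => f (N x) x := by
  refine measurable_to_countable' fun v => ?_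
  have h1 : (fun x => f (N x) x) ⁻¹' {v} = ⋃ m : ℕ, (N ⁻¹' {m}) ∩ (f m ⁻¹' {v}) := by
    ext x
    simp only [Set.mem_preimage, Set.mem_singleton_iff, Set.mem_iUnion, Set.mem_inter_iff]
    constructor
    · intro h
      exact ⟨N x, rfl, h⟩
    · rintro ⟨m, rfl, h⟩
      exact h
  rw [h1]
  exact MeasurableSet.iUnion fun m => (hN (measurableSet_singleton m)).inter
    (hf m (measurableSet_singleton v))

/-- the least natural number which is not in `s` -/
noncomputable def mex (s : Finset ℕ) : ℕ := Nat.find (Infinite.exists_notMem_finset s)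

theorem mex_notMem (s : Finset ℕ) : mex s ∉ s := Nat.find_spec (Infinite.exists_notMem_finset s)

theorem mex_le_card (s : Finset ℕ) : mex s ≤ s.card := by
  have h1 : Finset.range (mex s) ⊆ s := by
    intro j hj
    have h2 := Nat.find_min (Infinite.exists_notMem_finset s) (Finset.mem_range.1 hj)
    exact not_not.1 h2
  have h3 := Finset.card_le_card h1
  rwa [Finset.card_range] at h3

/-- a fixed enumeration of a finite set -/
noncomputable def enum (s : Finset ℕ) (i : ℕ) : ℕ := s.toList.getD i 0

theorem exists_enum {s : Finset ℕ} {v : ℕ} (hv : v ∈ s) : ∃ i < s.card, enum s i = v := by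
  obtain ⟨i, hi, h⟩ := List.mem_iff_getElem.1 (Finset.mem_toList.2 hv)
  refine ⟨i, by rwa [Finset.length_toList] at hi, ?_⟩
  unfold enum
  rw [List.getD_eq_getElem _ _ hi, h]

end Finsets

section Graph

variable {X : Type}

/-- adjacency in the `n`-th graph -/
def Adj (T : ℕ → X → X) (n : ℕ) (x y : X) : Prop := (∃ i ≤ n, T i x = y) ∧ ∃ j ≤ n, T j y = x

/-- distance at most `r` in the `n`-th graph -/
def Near (T : ℕ → X → X) (n : ℕ) : ℕ → X → X → Prop
  | 0, x, y => x = y
  | r + 1, x, y => ∃ z, Near T n r x z ∧ (z = y ∨ Adj T n z y)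

variable {T : ℕ → X → X} {n m r s : ℕ} {x y z : X}

theorem Adj.symm (h : Adj T n x y) : Adj T n y x := ⟨h.2, h.1⟩

theorem Adj.mono (h : Adj T n x y) (hnm : n ≤ m) : Adj T m x y := by
  obtain ⟨⟨i, hi, h1⟩, ⟨j, hj, h2⟩⟩ := h
  exact ⟨⟨i, hi.trans hnm, h1⟩, ⟨j, hj.trans hnm, h2⟩⟩

theorem Near.succ (h : Near T n r x y) : Near T n (r + 1) x y := ⟨y, h, Or.inl rfl⟩

theorem Near.refl (r : ℕ) (x : X) : Near T n r x x := by
  induction r with
  | zero => rfl
  | succ r ih => exact ih.succ

theorem Near.mono_r (h : Near T n r x y) (hrs : r ≤ s) : Near T n s x y := by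
  induction hrs with
  | refl => exact h
  | step _ ih => exact ih.succ

theorem Near.mono_n (h : Near T n r x y) (hnm : n ≤ m) : Near T m r x y := by
  induction r generalizing y with
  | zero => exact h
  | succ r ih =>
    obtain ⟨z, h1, h2⟩ := h
    exact ⟨z, ih h1, h2.imp id fun h => h.mono hnm⟩

theorem Near.trans (h : Near T n r x y) (h' : Near T n s y z) : Near T n (r + s) x z := by
  induction s generalizing z with
  | zero =>
    have h1 : y = z := h'
    subst h1
    exact h
  | succ s ih =>
    obtain ⟨w, h1, h2⟩ := h'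
    exact ⟨w, ih h1, h2⟩

theorem Near.one (h : Adj T n x y) : Near T n 1 x y := ⟨x, rfl, Or.inr h⟩

theorem Near.symm (h : Near T n r x y) : Near T n r y x := by
  induction r generalizing y with
  | zero => exact Eq.symm h
  | succ r ih =>
    obtain ⟨z, h1, h2⟩ := h
    have h3 : Near T n 1 y z := by
      rcases h2 with rfl | h2
      · exact Near.refl 1 z
      · exact Near.one h2.symm
    have h4 := h3.trans (ih h1)
    rwa [Nat.add_comm] at h4

theorem Near.rel {E : Setoid X} (hE : ∀ x y, E.r x y ↔ ∃ n, T n x = y) (h : Near T n r x y) :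
    E.r x y := by
  induction r generalizing y with
  | zero =>
    have h1 : x = y := h
    subst h1
    exact E.refl' x
  | succ r ih =>
    obtain ⟨z, h1, h2⟩ := h
    rcases h2 with rfl | ⟨⟨i, -, h2⟩, -⟩
    · exact ih h1
    · exact E.trans' (ih h1) ((hE z y).2 ⟨i, h2⟩)

theorem near_family (T : ℕ → X → X) [MeasurableSpace X] (hT : ∀ n, Measurable (T n))
    (n r : ℕ) : ∃ (k : ℕ) (φ : Fin k → X → X), (∀ i, Measurable (φ i)) ∧
      ∀ x y, Near T n r x y → ∃ i, φ i x = y := by
  induction r with
  | zero => exact ⟨1, fun _ x => x, fun _ => measurable_id, fun x y h => ⟨0, h⟩⟩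
  | succ r ih =>
    obtain ⟨k, φ, hφ, h⟩ := ih
    let A : Fin (n + 2) → X → X := fun j => if j.1 = 0 then id else T (j.1 - 1)
    have hA : ∀ j, Measurable (A j) := by
      intro j
      by_cases hj : j.1 = 0
      · simp only [A, if_pos hj]
        exact measurable_id
      · simp only [A, if_neg hj]
        exact hT _
    let e : Fin (k * (n + 2)) ≃ Fin k × Fin (n + 2) := finProdFinEquiv.symm
    refine ⟨k * (n + 2), fun i x => A (e i).2 (φ (e i).1 x), fun i => (hA _).comp (hφ _), ?_⟩
    rintro x y ⟨z, h1, h2⟩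
    obtain ⟨i, hi⟩ := h x z h1
    rcases h2 with rfl | ⟨⟨j, hj, h2⟩, -⟩
    · refine ⟨e.symm (i, ⟨0, by omega⟩), ?_⟩
      simp [A, hi]
    · refine ⟨e.symm (i, ⟨j + 1, by omega⟩), ?_⟩
      simp [A, hi, h2]

theorem near_finite (T : ℕ → X → X) (n r : ℕ) (x : X) : {y | Near T n r x y}.Finite := by
  let _ : MeasurableSpace X := ⊤
  obtain ⟨k, φ, -, h⟩ := near_family T (fun n => measurable_from_top) n r
  refine (Set.finite_range (fun i => φ i x)).subset ?_
  intro y hy
  obtain ⟨i, hi⟩ := h x y hy
  exact ⟨i, hi⟩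

end Graph

section Meas

variable {X : Type} [MeasurableSpace X]

theorem meas_rel {P : X → X → Prop} (hP : MeasurableSet {p : X × X | P p.1 p.2}) {Y : Type}
    [MeasurableSpace Y] {φ ψ : Y → X} (hφ : Measurable φ) (hψ : Measurable ψ) :
    MeasurableSet {y | P (φ y) (ψ y)} := (hφ.prodMk hψ) hP

variable [StandardBorelSpace X]

theorem meas_E {T : ℕ → X → X} (hT : ∀ n, Measurable (T n)) {E : Setoid X}
    (hE : ∀ x y, E.r x y ↔ ∃ n, T n x = y) : MeasurableSet {p : X × X | E.r p.1 p.2} := by
  have h1 : {p : X × X | E.r p.1 p.2} = ⋃ n : ℕ, {p : X × X | T n p.1 = p.2} := by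
    ext p
    simp only [Set.mem_iUnion, Set.mem_ofPred_eq]
    exact hE _ _
  rw [h1]
  exact MeasurableSet.iUnion fun n => measurableSet_eq_fun ((hT n).comp measurable_fst)
    measurable_snd

theorem meas_Adj {T : ℕ → X → X} (hT : ∀ n, Measurable (T n)) (n : ℕ) :
    MeasurableSet {p : X × X | Adj T n p.1 p.2} := by
  have h1 : {p : X × X | Adj T n p.1 p.2} = (⋃ i ∈ Set.Iic n, {p : X × X | T i p.1 = p.2}) ∩
      (⋃ i ∈ Set.Iic n, {p : X × X | T i p.2 = p.1}) := by
    ext p
    simp only [Set.mem_inter_iff, Set.mem_iUnion, Set.mem_ofPred_eq, Set.mem_Iic, Adj,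
      exists_prop]
  rw [h1]
  refine MeasurableSet.inter ?_ ?_
  · exact MeasurableSet.biUnion (Set.to_countable _) fun i _ =>
      measurableSet_eq_fun ((hT i).comp measurable_fst) measurable_snd
  · exact MeasurableSet.biUnion (Set.to_countable _) fun i _ =>
      measurableSet_eq_fun ((hT i).comp measurable_snd) measurable_fst

theorem meas_Near {T : ℕ → X → X} (hT : ∀ n, Measurable (T n)) (n r : ℕ) :
    MeasurableSet {p : X × X | Near T n r p.1 p.2} := by
  induction r with
  | zero =>
    exact measurableSet_eq_fun measurable_fst measurable_snd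
  | succ r ih =>
    obtain ⟨k, φ, hφ, h⟩ := near_family T hT n r
    have h1 : {p : X × X | Near T n (r + 1) p.1 p.2} = ⋃ i : Fin k,
        ({p : X × X | Near T n r p.1 (φ i p.1)} ∩
          ({p : X × X | φ i p.1 = p.2} ∪ {p : X × X | Adj T n (φ i p.1) p.2})) := by
      ext p
      simp only [Set.mem_iUnion, Set.mem_inter_iff, Set.mem_union, Set.mem_ofPred_eq]
      constructor
      · rintro ⟨z, h1, h2⟩
        obtain ⟨i, hi⟩ := h _ _ h1
        subst hi
        exact ⟨i, h1, h2⟩
      · rintro ⟨i, h1, h2⟩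
        exact ⟨φ i p.1, h1, h2⟩
    rw [h1]
    refine MeasurableSet.iUnion fun i => ?_
    have hφ1 : Measurable fun p : X × X => φ i p.1 := (hφ i).comp measurable_fst
    exact (meas_rel ih measurable_fst hφ1).inter
      ((measurableSet_eq_fun hφ1 measurable_snd).union
        (meas_rel (meas_Adj hT n) hφ1 measurable_snd))

/-- a Borel colouring with countably many colours for finitely many Borel functions -/
theorem exists_colour0 {k : ℕ} (φ : Fin k → X → X) (hφ : ∀ i, Measurable (φ i)) :
    ∃ c : X → ℕ, Measurable c ∧ ∀ x i, φ i x ≠ x → c (φ i x) ≠ c x := by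
  classical
  obtain ⟨b, hb, hinj⟩ := MeasurableSpace.measurable_injection_nat_bool_of_countablySeparated X
  have hbj : ∀ j, Measurable fun x => b x j := fun j => (measurable_pi_apply j).comp hb
  -- the prefix
  let P : ℕ → X → List Bool := fun m x => (List.range m).map (b x)
  have hP : ∀ m x y, P m x = P m y ↔ ∀ j < m, b x j = b y j := by
    intro m x y
    simp only [P]
    rw [List.map_inj_left]
    simp
  -- the separation property
  let Q : X → ℕ → Prop := fun x m => ∀ i, φ i x ≠ x → P m (φ i x) ≠ P m x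
  have hex : ∀ x, ∃ m, Q x m := by
    intro x
    have h1 : ∀ i, ∃ m, ∀ m' ≥ m, φ i x ≠ x → P m' (φ i x) ≠ P m' x := by
      intro i
      by_cases hi : φ i x = x
      · exact ⟨0, fun _ _ h => absurd hi h⟩
      · have h2 : b (φ i x) ≠ b x := fun h => hi (hinj h)
        obtain ⟨j, hj⟩ := Function.ne_iff.1 h2
        refine ⟨j + 1, fun m' hm' _ h3 => hj ?_⟩
        exact (hP m' _ _).1 h3 j (by omega)
    choose M hM using h1
    refine ⟨∑ i, M i, fun i hi => hM i _ ?_ hi⟩
    exact Finset.single_le_sum (f := M) (fun _ _ => Nat.zero_le _) (Finset.mem_univ i)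
  have hPeq : ∀ m (u v : X → X), Measurable u → Measurable v →
      MeasurableSet {x | P m (u x) = P m (v x)} := by
    intro m u v hu hv
    have h1 : {x | P m (u x) = P m (v x)} = ⋂ j ∈ Set.Iio m, {x | b (u x) j = b (v x) j} := by
      ext x
      simp only [Set.mem_iInter, Set.mem_ofPred_eq, Set.mem_Iio]
      exact hP m _ _
    rw [h1]
    exact MeasurableSet.biInter (Set.to_countable _) fun j _ =>
      measurableSet_eq_fun ((hbj j).comp hu) ((hbj j).comp hv)
  have hQ : ∀ m, MeasurableSet {x | Q x m} := by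
    intro m
    have h1 : {x | Q x m} = ⋂ i : Fin k, ({x | φ i x = x} ∪ {x | P m (φ i x) = P m x}ᶜ) := by
      ext x
      simp only [Set.mem_iInter, Set.mem_union, Set.mem_ofPred_eq, Set.mem_compl_iff, Q]
      refine forall_congr' fun i => ?_
      tauto
    rw [h1]
    exact MeasurableSet.iInter fun i => (measurableSet_eq_fun (hφ i) measurable_id).union
      (hPeq m (φ i) id (hφ i) measurable_id).compl
  have hN : Measurable fun x => Nat.find (hex x) := measurable_find hex hQ
  refine ⟨fun x => Encodable.encode (P (Nat.find (hex x)) x), ?_, ?_⟩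
  · refine meas_diag (f := fun m x => Encodable.encode (P m x)) (fun m => ?_) hN
    refine measurable_to_countable' fun v => ?_
    by_cases hv : ∃ x0, Encodable.encode (P m x0) = v
    · obtain ⟨x0, hx0⟩ := hv
      have h1 : (fun x => Encodable.encode (P m x)) ⁻¹' {v} = {x | P m (id x) = P m ((fun _ => x0) x)} := by
        ext x
        simp only [Set.mem_preimage, Set.mem_singleton_iff, Set.mem_ofPred_eq, id]
        rw [← hx0]
        exact Encodable.encode_injective.eq_iff
      rw [h1]
      exact hPeq m id (fun _ => x0) measurable_id measurable_const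
    · have h1 : (fun x => Encodable.encode (P m x)) ⁻¹' {v} = ∅ := by
        ext x
        simp only [Set.mem_preimage, Set.mem_singleton_iff, Set.mem_empty_iff_false, iff_false]
        exact fun h => hv ⟨x, h⟩
      rw [h1]
      exact MeasurableSet.empty
  · intro x i hi hc
    have h1 := Encodable.encode_injective hc
    have hlen : Nat.find (hex (φ i x)) = Nat.find (hex x) := by
      have h2 := congrArg List.length h1
      simpa [P] using h2
    rw [hlen] at h1
    exact Nat.find_spec (hex x) i hi h1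

end Meas

end Pool.Agent.MP_750e50_lc
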