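import Pool.Agent.MP_750e50_lc.Index

/-!
# Classes of countable Borel equivalence relations: finite asymptotic separation index, finite
amenability dimension, limits of bounded index
-/

set_option autoImplicit false

open Filter

namespace Pool.Agent.MP_750e50_lc

variable {X : Type} [MeasurableSpace X]

/-- `E` has finite asymptotic separation index with respect to some function `ρ` (for instance a
graph metric): there is `s` such that for every `r` the space is covered by `s + 1` Borel sets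
`U 0, ..., U s` whose `r`-components are finite, that is, contained in the classes of a Borel
equivalence relation `C i` with finite classes. -/
def FiniteAsi (E : Setoid X) : Prop :=
  ∃ (ρ : X → X → ℕ) (s : ℕ), ∀ r : ℕ, ∃ (U : Fin (s + 1) → Set X) (C : Fin (s + 1) → Setoid X),
    (∀ i, MeasurableSet (U i)) ∧ (∀ x, ∃ i, x ∈ U i) ∧
    (∀ i, MeasurableSet {p : X × X | (C i).r p.1 p.2}) ∧ (∀ i x, {y | (C i).r x y}.Finite) ∧
    ∀ i, ∀ x ∈ U i, ∀ y ∈ U i, E.r x y → ρ x y ≤ r → (C i).r x y

/-- `E` has finite amenability dimension along an iterated Fréchet filter `𝓕`: there are Borel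
probability measures `lam i x` on the class of `x`, with supports whose size is bounded on each
class, such that `lam i x - lam i y` converges to `0` uniformly along `𝓕` whenever `x E y`. -/
def FiniteAmenabilityDim (E : Setoid X) : Prop :=
  ∃ 𝓕 : Filter ℕ, IterFrechet 𝓕 ∧ ∃ lam : ℕ → X → X → ℝ,
    (∀ i, Measurable fun p : X × X => lam i p.1 p.2) ∧ (∀ i x y, 0 ≤ lam i x y) ∧
    (∀ x, ∃ s : ℕ, ∀ y, E.r x y → ∀ i, ∃ F : Finset X, F.card ≤ s ∧ (∀ z ∈ F, E.r x z) ∧
      (∀ z, z ∉ F → lam i y z = 0) ∧ ∑ z ∈ F, lam i y z = 1) ∧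
    ∀ x y, E.r x y → ∀ ε > 0, ∀ᶠ i in 𝓕, ∀ z, |lam i x z - lam i y z| < ε

/-- `E` is a limit of bounded index of Borel equivalence relations with finite classes, along an
iterated Fréchet filter: on each class of `E` there is `s` such that among any `s + 1` points of
the class two are `P i`-equivalent, for `𝓕`-almost all `i`. -/
def BoundedIndexLimit (E : Setoid X) : Prop :=
  ∃ 𝓕 : Filter ℕ, IterFrechet 𝓕 ∧ ∃ P : ℕ → Setoid X,
    (∀ i, MeasurableSet {p : X × X | (P i).r p.1 p.2}) ∧ (∀ i x, {y | (P i).r x y}.Finite) ∧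
    ∀ x, ∃ s : ℕ, ∀ a : Fin (s + 1) → X, (∀ k, E.r x (a k)) →
      ∀ᶠ i in 𝓕, ∃ j k, j ≠ k ∧ (P i).r (a j) (a k)

section Filters

theorem iter_atTop : IterFrechet atTop := by
  have h1 : (atTop : Filter ℕ) = Filter.bind atTop fun n => pure n := by
    ext A
    rw [Filter.mem_bind']
    simp only [Filter.mem_pure]
    rfl
  rw [h1]
  exact IterFrechet.lim _ fun n => IterFrechet.pure n

theorem iter_bind {𝓕 : Filter ℕ} (h𝓕 : IterFrechet 𝓕) {𝓖 : ℕ → Filter ℕ}
    (h𝓖 : ∀ i, IterFrechet (𝓖 i)) : IterFrechet (Filter.bind 𝓕 𝓖) := by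
  induction h𝓕 with
  | pure k =>
    have h1 : Filter.bind (pure k) 𝓖 = 𝓖 k := by
      ext A
      rw [Filter.mem_bind']
      simp only [Filter.mem_pure]
      rfl
    rw [h1]
    exact h𝓖 k
  | lim 𝓕 _ ih =>
    have h1 : Filter.bind (Filter.bind atTop 𝓕) 𝓖 =
        Filter.bind atTop fun n => Filter.bind (𝓕 n) 𝓖 := by
      ext A
      rw [Filter.mem_bind', Filter.mem_bind', Filter.mem_bind']
      simp only [Filter.mem_bind']
    rw [h1]
    exact IterFrechet.lim _ ih

theorem iter_map_pair (i : ℕ) : IterFrechet (Filter.map (Nat.pair i) atTop) := by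
  have h1 : Filter.map (Nat.pair i) atTop = Filter.bind atTop fun r => pure (Nat.pair i r) := by
    ext A
    rw [Filter.mem_bind', Filter.mem_map]
    simp only [Filter.mem_pure]
    rfl
  rw [h1]
  exact IterFrechet.lim _ fun n => IterFrechet.pure _

end Filters

variable [StandardBorelSpace X]

/-- **Borel-bounded limits of bounded index are hyperfinite.** -/
theorem hyperfinite_of_boundedIndexLimit {E : Setoid X} (hE : IsCBER E) (hB : BorelBounded E)
    (hL : BoundedIndexLimit E) : Hyperfinite E := by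
  classical
  obtain ⟨T, hT, hET⟩ := id hE
  obtain ⟨𝓕, h𝓕, P, hPm, hPf, hlim⟩ := hL
  obtain ⟨e, he⟩ := exists_surjective_nat (Σ s : ℕ, (Fin (s + 1) → ℕ))
  obtain ⟨t, ht, htA⟩ := exists_diag hE hB h𝓕
    (fun j x => {i | ∃ a b, a ≠ b ∧ (P i).r (T ((e j).2 a) x) (T ((e j).2 b) x)}) (by
      intro j i
      show MeasurableSet {x | ∃ a b, a ≠ b ∧ (P i).r (T ((e j).2 a) x) (T ((e j).2 b) x)}
      refine measurableSet_setOfPred.2 ?_
      refine Measurable.exists fun a => Measurable.exists fun b => ?_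
      refine Measurable.and measurable_const ?_
      exact measurableSet_setOfPred.1 (meas_rel (hPm i) (hT _) (hT _)))
  let P' : ℕ → Setoid X := fun n => ⟨fun x y => t x n = t y n ∧ (P (t x n)).r x y,
    fun x => ⟨rfl, (P _).refl' x⟩, fun {x y} h => ⟨h.1.symm, by
      rw [← h.1]
      exact (P _).symm' h.2⟩, fun {x y z} h h' => ⟨h.1.trans h'.1, by
      have h2 := h'.2
      rw [← h.1] at h2
      exact (P _).trans' h.2 h2⟩⟩
  refine hyperfinite_of_limit hE hB (P := P') (fun n => ?_) (fun n x => ?_) fun x => ?_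
  · have h1 : {p : X × X | (P' n).r p.1 p.2} =
        {p : X × X | ∃ v : ℕ, t p.1 n = v ∧ t p.2 n = v ∧ (P v).r p.1 p.2} := by
      ext p
      constructor
      · rintro ⟨h1, h2⟩
        exact ⟨_, rfl, h1.symm, h2⟩
      · rintro ⟨v, rfl, h2, h3⟩
        exact ⟨h2.symm, h3⟩
    rw [h1]
    have htn : Measurable fun x => t x n := measurable_pi_iff.1 ht.1 n
    refine measurableSet_setOfPred.2 ?_
    refine Measurable.exists fun v => Measurable.and ?_ (Measurable.and ?_ ?_)
    · exact measurableSet_setOfPred.1 (measurableSet_eq_fun (htn.comp measurable_fst)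
        measurable_const)
    · exact measurableSet_setOfPred.1 (measurableSet_eq_fun (htn.comp measurable_snd)
        measurable_const)
    · exact measurableSet_setOfPred.1 (hPm v)
  · exact (hPf (t x n) x).subset fun y hy => hy.2
  · obtain ⟨s, hs⟩ := hlim x
    refine ⟨s, fun a ha => ?_⟩
    choose c hc using fun k => (hET _ _).1 (ha k)
    obtain ⟨j, hj⟩ := he ⟨s, c⟩
    have h1 : ∀ᶠ n in atTop, ∃ a' b', a' ≠ b' ∧ (P (t x n)).r (a a') (a b') := by
      have h2 : ∀ i, (∃ a' b', a' ≠ b' ∧ (P i).r (a a') (a b')) ↔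
          ∃ a' b', a' ≠ b' ∧ (P i).r (T ((e j).2 a') x) (T ((e j).2 b') x) := by
        intro i
        rw [hj]
        simp only [hc]
      have h3 := htA x j ((hs a ha).mono fun i hi => (h2 i).1 hi)
      exact h3.mono fun n hn => (h2 _).2 hn
    have h4 : ∀ᶠ n in atTop, ∀ k, t x n = t (a k) n :=
      eventually_all.2 fun k => ht.2 _ _ (ha k)
    filter_upwards [h1, h4] with n hn1 hn2
    obtain ⟨a', b', hab, h5⟩ := hn1
    refine ⟨a', b', hab, ?_⟩
    show t (a a') n = t (a b') n ∧ (P (t (a a') n)).r (a a') (a b')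
    rw [← hn2 a', ← hn2 b']
    exact ⟨rfl, h5⟩

omit [StandardBorelSpace X] in
theorem boundedIndexLimit_of_finiteAsi {E : Setoid X} (hA : FiniteAsi E) :
    BoundedIndexLimit E := by
  classical
  obtain ⟨ρ, s, h⟩ := hA
  choose U C hU hcov hCm hCf hUC using h
  have hex : ∀ r x, ∃ n : ℕ, ∃ hn : n < s + 1, x ∈ U r ⟨n, hn⟩ := by
    intro r x
    obtain ⟨i, hi⟩ := hcov r x
    exact ⟨i.1, i.2, hi⟩
  have hQ : ∀ r n, MeasurableSet {x | ∃ hn : n < s + 1, x ∈ U r ⟨n, hn⟩} := by
    intro r n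
    by_cases hn : n < s + 1
    · have h1 : {x | ∃ hn : n < s + 1, x ∈ U r ⟨n, hn⟩} = U r ⟨n, hn⟩ := by
        ext x
        exact ⟨fun ⟨_, h⟩ => h, fun h => ⟨hn, h⟩⟩
      rw [h1]
      exact hU _ _
    · have h1 : {x | ∃ hn : n < s + 1, x ∈ U r ⟨n, hn⟩} = ∅ := by
        ext x
        simp only [Set.mem_ofPred_eq, Set.mem_empty_iff_false, iff_false]
        exact fun ⟨h, _⟩ => hn h
      rw [h1]
      exact MeasurableSet.empty
  let N : ℕ → X → ℕ := fun r x => Nat.find (hex r x)
  have hN : ∀ r, Measurable (N r) := fun r => measurable_find (hex r) (hQ r)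
  have hNlt : ∀ r x, N r x < s + 1 := fun r x => (Nat.find_spec (hex r x)).1
  have hNmem : ∀ r x, x ∈ U r ⟨N r x, hNlt r x⟩ := fun r x => (Nat.find_spec (hex r x)).2
  let P : ℕ → Setoid X := fun r => ⟨fun x y => N r x = N r y ∧ (C r ⟨N r x, hNlt r x⟩).r x y,
    fun x => ⟨rfl, (C r _).refl' x⟩, fun {x y} h => ⟨h.1.symm, by
      have h2 : (⟨N r y, hNlt r y⟩ : Fin (s + 1)) = ⟨N r x, hNlt r x⟩ := Fin.ext h.1.symm
      rw [h2]
      exact (C r _).symm' h.2⟩, fun {x y z} h h' => ⟨h.1.trans h'.1, by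
      have h2 : (⟨N r y, hNlt r y⟩ : Fin (s + 1)) = ⟨N r x, hNlt r x⟩ := Fin.ext h.1.symm
      have h3 := h'.2
      rw [h2] at h3
      exact (C r _).trans' h.2 h3⟩⟩
  refine ⟨atTop, iter_atTop, P, fun r => ?_, fun r x => ?_, fun x => ⟨s + 1, fun a ha => ?_⟩⟩
  · have h1 : {p : X × X | (P r).r p.1 p.2} = {p : X × X | ∃ i : Fin (s + 1),
        N r p.1 = i.1 ∧ N r p.2 = i.1 ∧ (C r i).r p.1 p.2} := by
      ext p
      constructor
      · rintro ⟨h1, h2⟩
        exact ⟨⟨N r p.1, hNlt r p.1⟩, rfl, h1.symm, h2⟩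
      · rintro ⟨i, h1, h2, h3⟩
        refine ⟨h1.trans h2.symm, ?_⟩
        have h4 : (⟨N r p.1, hNlt r p.1⟩ : Fin (s + 1)) = i := Fin.ext h1
        rw [h4]
        exact h3
    rw [h1]
    refine measurableSet_setOfPred.2 ?_
    refine Measurable.exists fun i => Measurable.and ?_ (Measurable.and ?_ ?_)
    · exact measurableSet_setOfPred.1 (measurableSet_eq_fun ((hN r).comp measurable_fst)
        measurable_const)
    · exact measurableSet_setOfPred.1 (measurableSet_eq_fun ((hN r).comp measurable_snd)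
        measurable_const)
    · exact measurableSet_setOfPred.1 (hCm r i)
  · exact (hCf r ⟨N r x, hNlt r x⟩ x).subset fun y hy => hy.2
  · filter_upwards [eventually_ge_atTop (∑ j, ∑ k, ρ (a j) (a k))] with r hr
    have hlt : Fintype.card (Fin (s + 1)) < Fintype.card (Fin (s + 1 + 1)) := by simp
    obtain ⟨j, k, hjk, h1⟩ := Fintype.exists_ne_map_eq_of_card_lt
      (fun k : Fin (s + 1 + 1) => (⟨N r (a k), hNlt r (a k)⟩ : Fin (s + 1))) hlt
    have h2 : N r (a j) = N r (a k) := congrArg Fin.val h1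
    refine ⟨j, k, hjk, h2, ?_⟩
    have h3 : ρ (a j) (a k) ≤ r := by
      refine le_trans ?_ hr
      exact (Finset.single_le_sum (f := fun k => ρ (a j) (a k)) (fun _ _ => Nat.zero_le _)
        (Finset.mem_univ k)).trans (Finset.single_le_sum (f := fun j => ∑ k, ρ (a j) (a k))
          (fun _ _ => Nat.zero_le _) (Finset.mem_univ j))
    refine hUC r _ (a j) (hNmem r (a j)) (a k) ?_ (E.trans' (E.symm' (ha j)) (ha k)) h3
    have h4 := hNmem r (a k)
    have h5 : (⟨N r (a j), hNlt r (a j)⟩ : Fin (s + 1)) = ⟨N r (a k), hNlt r (a k)⟩ := h1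
    rw [h5]
    exact h4

omit [StandardBorelSpace X] in
theorem finiteAsi_of_hyperfinite {E : Setoid X} (hH : Hyperfinite E) : FiniteAsi E := by
  classical
  obtain ⟨F, hFm, hFf, hmono, hFE⟩ := hH
  have hmono' : ∀ {k l : ℕ} {x y : X}, k ≤ l → (F k).r x y → (F l).r x y := by
    intro k l x y hkl hxy
    induction hkl with
    | refl => exact hxy
    | step _ ih => exact hmono _ _ _ ih
  refine ⟨fun x y => if h : ∃ n, (F n).r x y then Nat.find h else 0, 0, fun r =>
    ⟨fun _ => Set.univ, fun _ => F r, fun _ => MeasurableSet.univ, fun _ => ⟨0, trivial⟩,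
      fun _ => hFm r, fun _ x => hFf r x, fun _ x _ y _ hxy hr => ?_⟩⟩
  have h := (hFE x y).1 hxy
  simp only [dif_pos h] at hr
  exact hmono' hr (Nat.find_spec h)

theorem finiteAmenabilityDim_of_hyperfinite {E : Setoid X} (hE : IsCBER E) (hH : Hyperfinite E) :
    FiniteAmenabilityDim E := by
  classical
  obtain ⟨T, hT, hET⟩ := id hE
  obtain ⟨F, hFm, hFf, hmono, hFE⟩ := hH
  have hmono' : ∀ {k l : ℕ} {x y : X}, k ≤ l → (F k).r x y → (F l).r x y := by
    intro k l x y hkl hxy
    induction hkl with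
    | refl => exact hxy
    | step _ ih => exact hmono _ _ _ ih
  have hsub : ∀ n x y, (F n).r x y → E.r x y := fun n x y h => (hFE x y).2 ⟨n, h⟩
  choose q hqm hqF hqe using fun n => exists_selector hT hET (hFm n) (hFf n) (hsub n)
  refine ⟨atTop, iter_atTop, fun n x z => if q n x = z then 1 else 0, fun n => ?_, fun n x z => ?_,
    fun x => ⟨1, fun y hxy n => ⟨{q n y}, ?_, ?_, ?_, ?_⟩⟩, fun x y hxy ε hε => ?_⟩
  · exact Measurable.ite (measurableSet_eq_fun ((hqm n).comp measurable_fst) measurable_snd)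
      measurable_const measurable_const
  · show (0 : ℝ) ≤ if q n x = z then 1 else 0
    split_ifs <;> norm_num
  · simp
  · intro z hz
    rw [Finset.mem_singleton.1 hz]
    exact E.trans' hxy (hsub n _ _ (hqF n y))
  · intro z hz
    show (if q n y = z then (1 : ℝ) else 0) = 0
    exact if_neg fun h => hz (Finset.mem_singleton.2 h.symm)
  · simp
  · obtain ⟨k, hk⟩ := (hFE x y).1 hxy
    filter_upwards [eventually_ge_atTop k] with n hn z
    rw [hqe n x y (hmono' hn hk), sub_self, abs_zero]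
    exact hε

theorem boundedIndexLimit_of_finiteAmenabilityDim {E : Setoid X} (hE : IsCBER E)
    (hA : FiniteAmenabilityDim E) : BoundedIndexLimit E := by
  classical
  obtain ⟨T, hT, hET⟩ := id hE
  obtain ⟨𝓕, h𝓕, lam, hlm, hl0, hsupp, hconv⟩ := hA
  -- the heaviest point
  have hex : ∀ i x, ∃ k, ∀ j, lam i x (T j x) ≤ lam i x (T k x) := by
    intro i x
    obtain ⟨s, hs⟩ := hsupp x
    obtain ⟨F, -, hFE, hF0, hF1⟩ := hs x (E.refl' x) i
    have hne : F.Nonempty := by
      rw [Finset.nonempty_iff_ne_empty]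
      rintro rfl
      simp at hF1
    obtain ⟨z, hz, hmax⟩ := F.exists_max_image (lam i x) hne
    obtain ⟨k, hk⟩ := (hET _ _).1 (hFE z hz)
    refine ⟨k, fun j => ?_⟩
    rw [hk]
    by_cases hj : T j x ∈ F
    · exact hmax _ hj
    · rw [hF0 _ hj]
      exact hl0 _ _ _
  have hQ : ∀ i k, MeasurableSet {x | ∀ j, lam i x (T j x) ≤ lam i x (T k x)} := by
    intro i k
    refine measurableSet_setOfPred.2 (Measurable.forall fun j => ?_)
    refine measurableSet_setOfPred.1 (measurableSet_le ?_ ?_)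
    · exact (hlm i).comp (measurable_id.prodMk (hT j))
    · exact (hlm i).comp (measurable_id.prodMk (hT k))
  let p : ℕ → X → X := fun i x => T (Nat.find (hex i x)) x
  have hpm : ∀ i, Measurable (p i) := fun i => meas_diag' hT (measurable_find (hex i) (hQ i))
  have hpE : ∀ i x, E.r x (p i x) := fun i x => (hET _ _).2 ⟨_, rfl⟩
  have hpmax : ∀ i x z, E.r x z → lam i x z ≤ lam i x (p i x) := by
    intro i x z hz
    obtain ⟨j, rfl⟩ := (hET _ _).1 hz
    exact Nat.find_spec (hex i x) j
  let P : ℕ → Setoid X := fun m => ⟨fun x y => x = y ∨ (p m.unpair.1 x = p m.unpair.1 y ∧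
      (∃ j ≤ m.unpair.2, T j (p m.unpair.1 x) = x) ∧ ∃ j ≤ m.unpair.2, T j (p m.unpair.1 y) = y),
    fun x => Or.inl rfl, by
      rintro x y (h | ⟨h1, h2, h3⟩)
      · exact Or.inl h.symm
      · exact Or.inr ⟨h1.symm, h3, h2⟩, by
      rintro x y z (h | ⟨h1, h2, h3⟩) (h' | ⟨h1', h2', h3'⟩)
      · exact Or.inl (h.trans h')
      · subst h
        exact Or.inr ⟨h1', h2', h3'⟩
      · subst h'
        exact Or.inr ⟨h1, h2, h3⟩
      · exact Or.inr ⟨h1.trans h1', h2, h3'⟩⟩
  refine ⟨Filter.bind 𝓕 fun i => Filter.map (Nat.pair i) atTop, iter_bind h𝓕 iter_map_pair, P,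
    fun m => ?_, fun m x => ?_, fun x => ?_⟩
  · have h1 : MeasurableSet {x : X | ∃ j ≤ m.unpair.2, T j (p m.unpair.1 x) = x} := by
      refine measurableSet_setOfPred.2 ?_
      refine Measurable.exists fun j => Measurable.and measurable_const ?_
      exact measurableSet_setOfPred.1 (measurableSet_eq_fun ((hT j).comp (hpm _)) measurable_id)
    have h2 : {q : X × X | (P m).r q.1 q.2} = {q : X × X | q.1 = q.2} ∪
        ({q : X × X | p m.unpair.1 q.1 = p m.unpair.1 q.2} ∩
          ((Prod.fst ⁻¹' {x : X | ∃ j ≤ m.unpair.2, T j (p m.unpair.1 x) = x}) ∩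
            (Prod.snd ⁻¹' {x : X | ∃ j ≤ m.unpair.2, T j (p m.unpair.1 x) = x}))) := by
      ext q
      exact Iff.rfl
    rw [h2]
    refine (measurableSet_eq_fun measurable_fst measurable_snd).union ?_
    refine MeasurableSet.inter ?_ ((measurable_fst h1).inter (measurable_snd h1))
    exact measurableSet_eq_fun ((hpm _).comp measurable_fst) ((hpm _).comp measurable_snd)
  · have h1 : ({x} ∪ (fun j => T j (p m.unpair.1 x)) '' Set.Iic m.unpair.2).Finite :=
      (Set.finite_singleton x).union ((Set.finite_Iic _).image _)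
    refine h1.subset ?_
    rintro y (h | ⟨h1, -, ⟨j, hj, h4⟩⟩)
    · exact Or.inl h.symm
    · refine Or.inr ⟨j, hj, ?_⟩
      show T j (p m.unpair.1 x) = y
      rw [h1]
      exact h4
  · obtain ⟨s, hs⟩ := hsupp x
    refine ⟨s, fun a ha => ?_⟩
    have hspos : 0 < s := by
      obtain ⟨F, hF, -, -, hF1⟩ := hs x (E.refl' x) 0
      rcases Nat.eq_zero_or_pos s with h | h
      · rw [h, Nat.le_zero, Finset.card_eq_zero] at hF
        rw [hF] at hF1
        simp at hF1
      · exact h
    have hspos' : (0 : ℝ) < s := Nat.cast_pos.2 hspos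
    have h1 : ∀ᶠ i in 𝓕, ∀ k, ∀ z, |lam i x z - lam i (a k) z| < 1 / s :=
      eventually_all.2 fun k => hconv x (a k) (ha k) _ (by positivity)
    have h2 : ∀ᶠ i in 𝓕, ∃ j k, j ≠ k ∧ p i (a j) = p i (a k) := by
      refine h1.mono fun i hi => ?_
      obtain ⟨F, hF, hFE, hF0, hF1⟩ := hs x (E.refl' x) i
      have h3 : ∀ k, p i (a k) ∈ F := by
        intro k
        by_contra hnot
        have h4 := hF0 _ hnot
        have h5 : 1 / (s : ℝ) ≤ lam i (a k) (p i (a k)) := by
          obtain ⟨F', hF', hFE', hF0', hF1'⟩ := hs (a k) (ha k) i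
          by_contra hlt
          rw [not_le] at hlt
          have h6 : ∑ z ∈ F', lam i (a k) z < 1 := by
            have hne : F'.Nonempty := by
              rw [Finset.nonempty_iff_ne_empty]
              rintro rfl
              simp at hF1'
            have h7 : ∀ z ∈ F', lam i (a k) z < 1 / s := fun z hz =>
              lt_of_le_of_lt (hpmax i (a k) z (E.trans' (E.symm' (ha k)) (hFE' z hz))) hlt
            calc ∑ z ∈ F', lam i (a k) z < ∑ _z ∈ F', 1 / (s : ℝ) :=
                  Finset.sum_lt_sum_of_nonempty hne h7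
              _ = F'.card * (1 / (s : ℝ)) := by rw [Finset.sum_const, nsmul_eq_mul]
              _ ≤ s * (1 / (s : ℝ)) := by
                  refine mul_le_mul_of_nonneg_right (Nat.cast_le.2 hF') (by positivity)
              _ = 1 := by field_simp
          rw [hF1'] at h6
          exact lt_irrefl _ h6
        have h8 := hi k (p i (a k))
        rw [h4, zero_sub, abs_neg, abs_of_nonneg (hl0 _ _ _)] at h8
        exact not_lt.2 h5 h8
      have hlt : Fintype.card F < Fintype.card (Fin (s + 1)) := by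
        rw [Fintype.card_coe, Fintype.card_fin]
        omega
      obtain ⟨j, k, hjk, h9⟩ := Fintype.exists_ne_map_eq_of_card_lt
        (fun k : Fin (s + 1) => (⟨p i (a k), h3 k⟩ : F)) hlt
      exact ⟨j, k, hjk, congrArg Subtype.val h9⟩
    rw [Filter.eventually_iff, Filter.mem_bind']
    refine h2.mono fun i hi => ?_
    obtain ⟨j, k, hjk, h3⟩ := hi
    have h4 : ∀ k, ∃ m, T m (p i (a k)) = a k := fun k => (hET _ _).1 (E.symm' (hpE i (a k)))
    obtain ⟨m, hm⟩ := h4 j
    obtain ⟨m', hm'⟩ := h4 k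
    show _ ∈ Filter.map (Nat.pair i) atTop
    rw [Filter.mem_map]
    refine Filter.mem_of_superset (Filter.Ici_mem_atTop (m + m')) fun r hr => ?_
    have hr' : m + m' ≤ r := hr
    refine ⟨j, k, hjk, Or.inr ⟨?_, ⟨m, ?_, ?_⟩, ⟨m', ?_, ?_⟩⟩⟩
    all_goals simp only [Nat.unpair_pair]
    · exact h3
    · omega
    · exact hm
    · omega
    · exact hm'

end Pool.Agent.MP_750e50_lc
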