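import Pool.Agent.MP_750e50_lc.Basic

/-!
# Borel colourings of bounded degree graphs with finitely many colours
-/

set_option autoImplicit false

open Filter

namespace Pool.Agent.MP_750e50_lc

variable {X : Type}

open Classical in
/-- the colours used by the neighbours of smaller index -/
noncomputable def used {k : ℕ} (φ : Fin k → X → X) (R : X → X → Prop) (c0 : X → ℕ) (m : ℕ)
    (c : X → ℕ) (x : X) : Finset ℕ :=
  (Finset.univ.filter fun i : Fin k => R x (φ i x) ∧ c0 (φ i x) < m).image fun i => c (φ i x)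

open Classical in
/-- greedy colouring of the points with `c0 x < m` -/
noncomputable def greedy {k : ℕ} (φ : Fin k → X → X) (R : X → X → Prop) (c0 : X → ℕ) :
    ℕ → X → ℕ
  | 0, _ => 0
  | m + 1, x => if c0 x = m then mex (used φ R c0 m (greedy φ R c0 m) x)
      else greedy φ R c0 m x

theorem greedy_stable {k : ℕ} (φ : Fin k → X → X) (R : X → X → Prop) (c0 : X → ℕ) (x : X)
    (m : ℕ) (h : c0 x < m) : greedy φ R c0 m x = greedy φ R c0 (c0 x + 1) x := by
  induction m with
  | zero => omega
  | succ m ih =>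
    rcases Nat.lt_succ_iff_lt_or_eq.1 h with h1 | h1
    · rw [← ih h1]
      simp only [greedy]
      rw [if_neg (by omega)]
    · rw [h1]

theorem greedy_le {k : ℕ} (φ : Fin k → X → X) (R : X → X → Prop) (c0 : X → ℕ) (m : ℕ) (x : X) :
    greedy φ R c0 m x ≤ k := by
  classical
  induction m with
  | zero => exact Nat.zero_le _
  | succ m ih =>
    simp only [greedy]
    split_ifs with h
    · refine (mex_le_card _).trans ?_
      unfold used
      refine Finset.card_image_le.trans ((Finset.card_filter_le _ _).trans ?_)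
      simp
    · exact ih

theorem greedy_ne {k : ℕ} (φ : Fin k → X → X) (R : X → X → Prop) (c0 : X → ℕ)
    (hφR : ∀ x y, R x y → ∃ i, φ i x = y) (x y : X) (h : R x y) (hlt : c0 y < c0 x) :
    greedy φ R c0 (c0 x + 1) x ≠ greedy φ R c0 (c0 y + 1) y := by
  classical
  intro heq
  obtain ⟨i, hi⟩ := hφR x y h
  have h1 : greedy φ R c0 (c0 x + 1) x =
      mex (used φ R c0 (c0 x) (greedy φ R c0 (c0 x)) x) := by
    simp only [greedy]
    rw [if_pos trivial]
  have h2 : greedy φ R c0 (c0 x) y ∈ used φ R c0 (c0 x) (greedy φ R c0 (c0 x)) x := by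
    unfold used
    refine Finset.mem_image.2 ⟨i, ?_, by rw [hi]⟩
    rw [Finset.mem_filter, hi]
    exact ⟨Finset.mem_univ _, h, hlt⟩
  rw [greedy_stable φ R c0 y (c0 x) hlt, ← heq, h1] at h2
  exact mex_notMem _ h2

variable [MeasurableSpace X]

theorem greedy_meas {k : ℕ} (φ : Fin k → X → X) (hφ : ∀ i, Measurable (φ i)) (R : X → X → Prop)
    (hR : MeasurableSet {p : X × X | R p.1 p.2}) (c0 : X → ℕ) (hc0 : Measurable c0) (m : ℕ) :
    Measurable (greedy φ R c0 m) := by
  induction m with
  | zero => exact measurable_const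
  | succ m ih =>
    have h1 : ∀ v, MeasurableSet {x | v ∈ used φ R c0 m (greedy φ R c0 m) x} := by
      intro v
      have h2 : {x | v ∈ used φ R c0 m (greedy φ R c0 m) x} = ⋃ i : Fin k,
          ({x | R x (φ i x)} ∩ {x | c0 (φ i x) < m}) ∩ {x | greedy φ R c0 m (φ i x) = v} := by
        ext x
        simp only [used, Finset.mem_image, Finset.mem_filter, Finset.mem_univ, true_and,
          Set.mem_iUnion, Set.mem_inter_iff, Set.mem_ofPred_eq]
      rw [h2]
      refine MeasurableSet.iUnion fun i => ?_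
      refine ((meas_rel hR measurable_id (hφ i)).inter ?_).inter ?_
      · exact measurableSet_lt (hc0.comp (hφ i)) measurable_const
      · exact (ih.comp (hφ i)) (measurableSet_singleton v)
    have h3 : greedy φ R c0 (m + 1) = fun x => if c0 x = m then
        mex (used φ R c0 m (greedy φ R c0 m) x) else greedy φ R c0 m x := by
      funext x
      simp only [greedy]
    rw [h3]
    exact Measurable.ite (hc0 (measurableSet_singleton m)) (meas_comp_finset h1 mex) ih

variable [StandardBorelSpace X]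

theorem exists_colour {k : ℕ} (φ : Fin k → X → X) (hφ : ∀ i, Measurable (φ i))
    (R : X → X → Prop) (hR : MeasurableSet {p : X × X | R p.1 p.2})
    (hsym : ∀ x y, R x y → R y x) (hirr : ∀ x, ¬ R x x)
    (hφR : ∀ x y, R x y → ∃ i, φ i x = y) :
    ∃ c : X → ℕ, Measurable c ∧ (∀ x, c x ≤ k) ∧ ∀ x y, R x y → c x ≠ c y := by
  obtain ⟨c0, hc0, hne⟩ := exists_colour0 φ hφ
  refine ⟨fun x => greedy φ R c0 (c0 x + 1) x, ?_, fun x => greedy_le φ R c0 _ x, ?_⟩
  · exact meas_diag (f := fun m x => greedy φ R c0 (m + 1) x)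
      (fun m => greedy_meas φ hφ R hR c0 hc0 (m + 1)) hc0
  · intro x y hxy
    have h1 : c0 y ≠ c0 x := by
      obtain ⟨i, hi⟩ := hφR x y hxy
      have h2 : φ i x ≠ x := by
        rw [hi]
        rintro rfl
        exact hirr _ hxy
      have h3 := hne x i h2
      rwa [hi] at h3
    rcases lt_or_gt_of_ne h1 with h2 | h2
    · exact greedy_ne φ R c0 hφR x y hxy h2
    · exact (greedy_ne φ R c0 hφR y x (hsym x y hxy) h2).symm

/-- Borel colourings such that points at distance at most `r` in the `n`-th graph have different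
colours -/
theorem exists_near_colour {T : ℕ → X → X} (hT : ∀ n, Measurable (T n)) (n r : ℕ) :
    ∃ (k : ℕ) (c : X → ℕ), Measurable c ∧ (∀ x, c x ≤ k) ∧
      ∀ x y, Near T n r x y → c x = c y → x = y := by
  obtain ⟨k, φ, hφ, h⟩ := near_family T hT n r
  have hR : MeasurableSet {p : X × X | p.1 ≠ p.2 ∧ Near T n r p.1 p.2} := by
    have h1 : {p : X × X | p.1 ≠ p.2 ∧ Near T n r p.1 p.2} =
        {p : X × X | p.1 = p.2}ᶜ ∩ {p : X × X | Near T n r p.1 p.2} := rfl
    rw [h1]
    exact (measurableSet_eq_fun measurable_fst measurable_snd).compl.inter (meas_Near hT n r)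
  obtain ⟨c, hc, hck, hne⟩ := exists_colour φ hφ (fun x y => x ≠ y ∧ Near T n r x y) hR
    (fun x y h => ⟨h.1.symm, h.2.symm⟩) (fun x h => h.1 rfl) (fun x y h' => h x y h'.2)
  refine ⟨k, c, hc, hck, fun x y h1 h2 => ?_⟩
  by_contra h3
  exact hne x y ⟨h3, h1⟩ h2

end Pool.Agent.MP_750e50_lc
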