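import Mathlib

/-!
# MP_750e50_lc: countable Borel equivalence relations and guessing homomorphisms, definitions
-/

set_option autoImplicit false

open Filter

namespace Pool.Agent.MP_750e50_lc

variable {X : Type} [MeasurableSpace X]

/-- `E` is a countable Borel equivalence relation, in the form given by the Lusin-Novikov theorem:
`E` is the union of the graphs of countably many Borel functions `X → X`. -/
def IsCBER (E : Setoid X) : Prop :=
  ∃ T : ℕ → X → X, (∀ n, Measurable (T n)) ∧ ∀ x y, E.r x y ↔ ∃ n, T n x = y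

/-- `E` is hyperfinite: the union of an increasing sequence of Borel equivalence relations with
finite classes. -/
def Hyperfinite (E : Setoid X) : Prop :=
  ∃ F : ℕ → Setoid X, (∀ n, MeasurableSet {p : X × X | (F n).r p.1 p.2}) ∧
    (∀ n x, {y | (F n).r x y}.Finite) ∧ (∀ n x y, (F n).r x y → (F (n + 1)).r x y) ∧
    ∀ x y, E.r x y ↔ ∃ n, (F n).r x y

/-- `g` is a Borel homomorphism from `E` to the relation of eventual equality on `ℕ^ℕ`. -/
def IsHom (E : Setoid X) (g : X → ℕ → ℕ) : Prop :=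
  Measurable g ∧ ∀ x y, E.r x y → ∀ᶠ n in atTop, g x n = g y n

/-- `S` is a Borel homomorphism from `E` to the relation of eventual equality on sequences of
finite sets of natural numbers. -/
def IsSetHom (E : Setoid X) (S : X → ℕ → Finset ℕ) : Prop :=
  (∀ n v, MeasurableSet {x | v ∈ S x n}) ∧ ∀ x y, E.r x y → ∀ᶠ n in atTop, S x n = S y n

/-- Every Borel `f : X → ℕ^ℕ` is localised by a homomorphism to sequences of sets with
`#S n ≤ h n`. -/
def Localizable (E : Setoid X) (h : ℕ → ℕ) : Prop :=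
  ∀ f : X → ℕ → ℕ, Measurable f → ∃ S : X → ℕ → Finset ℕ, IsSetHom E S ∧
    (∀ x n, (S x n).card ≤ h n) ∧ ∀ x, ∀ᶠ n in atTop, f x n ∈ S x n

/-- Every Borel `f : X → ℕ^ℕ` is infinitely often equal to a homomorphism. -/
def Guessable (E : Setoid X) : Prop :=
  ∀ f : X → ℕ → ℕ, Measurable f → ∃ g : X → ℕ → ℕ, IsHom E g ∧
    ∀ x, ∃ᶠ n in atTop, f x n = g x n

/-- Every bounded Borel `f : X → ∏ n, {0, ..., b n}` is infinitely often captured by a homomorphism
to sequences of sets with `#S n ≤ h n`. -/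
def WeaklyGuessable (E : Setoid X) (h : ℕ → ℕ) : Prop :=
  ∀ b : ℕ → ℕ, ∀ f : X → ℕ → ℕ, Measurable f → (∀ x n, f x n ≤ b n) →
    ∃ S : X → ℕ → Finset ℕ, IsSetHom E S ∧ (∀ x n, (S x n).card ≤ h n) ∧
      ∀ x, ∃ᶠ n in atTop, f x n ∈ S x n

/-- For every Borel `f : X → ℕ^ℕ` there are `h : ℕ → ℕ` and a homomorphism to sequences of sets with
`#S n ≤ h n` which captures `f` infinitely often. -/
def UniformlyGuessable (E : Setoid X) : Prop :=
  ∀ f : X → ℕ → ℕ, Measurable f → ∃ (h : ℕ → ℕ) (S : X → ℕ → Finset ℕ), IsSetHom E S ∧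
    (∀ x n, (S x n).card ≤ h n) ∧ ∀ x, ∃ᶠ n in atTop, f x n ∈ S x n

/-- The product of `E` with equality on `ℕ^ℕ`. -/
def timesDiag {X : Type} (E : Setoid X) : Setoid (X × (ℕ → ℕ)) where
  r p q := E.r p.1 q.1 ∧ p.2 = q.2
  iseqv := ⟨fun p => ⟨E.refl' p.1, rfl⟩, fun h => ⟨E.symm' h.1, h.2.symm⟩,
    fun h h' => ⟨E.trans' h.1 h'.1, h.2.trans h'.2⟩⟩

end Pool.Agent.MP_750e50_lc
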