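import Pool.Agent.MP_750e50_lc.Basic

/-!
# Borel-bounded equivalence relations: diagonal sequences for iterated Fréchet filters, and scales
-/

set_option autoImplicit false

open Filter

namespace Pool.Agent.MP_750e50_lc

variable {X : Type} [MeasurableSpace X]

/-- `E` is Borel-bounded (Boykin-Jackson): every Borel `f : X → ℕ^ℕ` is eventually dominated by a
Borel homomorphism from `E` to eventual equality. -/
def BorelBounded (E : Setoid X) : Prop :=
  ∀ f : X → ℕ → ℕ, Measurable f → ∃ g : X → ℕ → ℕ, IsHom E g ∧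
    ∀ x, ∀ᶠ n in atTop, f x n ≤ g x n

/-- The iterated Fréchet filters on `ℕ`: the smallest class of filters which contains the principal
ultrafilters and contains with `𝓕 0, 𝓕 1, ...` the filter of all `A` such that `A ∈ 𝓕 n` for all but
finitely many `n`. -/
inductive IterFrechet : Filter ℕ → Prop
  | pure (k : ℕ) : IterFrechet (pure k)
  | lim (𝓕 : ℕ → Filter ℕ) : (∀ n, IterFrechet (𝓕 n)) → IterFrechet (Filter.bind atTop 𝓕)

section Meas

theorem meas_ev {p : ℕ → X → Prop} (hp : ∀ m, Measurable (p m)) :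
    Measurable fun x => ∀ᶠ m in atTop, p m x := by
  have h1 : (fun x => ∀ᶠ m in atTop, p m x) = fun x => ∃ N : ℕ, ∀ m : ℕ, m ≥ N → p m x := by
    funext x
    exact propext eventually_atTop
  rw [h1]
  exact Measurable.exists fun N => Measurable.forall fun m => measurable_const.imp (hp m)

theorem meas_mem {s : X → ℕ} (hs : Measurable s) {A : X → Set ℕ}
    (hA : ∀ v, MeasurableSet {x | v ∈ A x}) : Measurable fun x => s x ∈ A x := by
  have h1 : (fun x => s x ∈ A x) = fun x => ∃ v : ℕ, s x = v ∧ v ∈ A x := by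
    funext x
    simp
  rw [h1]
  refine Measurable.exists fun v => Measurable.and ?_ ?_
  · exact measurableSet_setOfPred.1 (hs (measurableSet_singleton v))
  · exact measurableSet_setOfPred.1 (hA v)

theorem meas_diag' {Y : Type} [MeasurableSpace Y] {f : ℕ → X → Y} (hf : ∀ m, Measurable (f m))
    {N : X → ℕ} (hN : Measurable N) : Measurable fun x => f (N x) x := by
  intro B hB
  have h1 : (fun x => f (N x) x) ⁻¹' B = ⋃ m : ℕ, (N ⁻¹' {m}) ∩ (f m ⁻¹' B) := by
    ext x
    simp only [Set.mem_preimage, Set.mem_singleton_iff, Set.mem_iUnion, Set.mem_inter_iff]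
    constructor
    · intro h
      exact ⟨N x, rfl, h⟩
    · rintro ⟨m, rfl, h⟩
      exact h
  rw [h1]
  exact MeasurableSet.iUnion fun m => (hN (measurableSet_singleton m)).inter (hf m hB)

end Meas

/-- **The diagonal principle.** If `E` is Borel-bounded then for every iterated Fréchet filter and
every countable Borel family of sets there is a homomorphism which eventually runs through each
member of the filter among them. -/
theorem exists_diag {E : Setoid X} (hE : IsCBER E) (hB : BorelBounded E) {𝓕 : Filter ℕ}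
    (h𝓕 : IterFrechet 𝓕) (A : ℕ → X → Set ℕ) (hA : ∀ j v, MeasurableSet {x | v ∈ A j x}) :
    ∃ s : X → ℕ → ℕ, IsHom E s ∧ ∀ x j, A j x ∈ 𝓕 → ∀ᶠ n in atTop, s x n ∈ A j x := by
  classical
  obtain ⟨T, hT, hET⟩ := hE
  induction h𝓕 with
  | pure k =>
    refine ⟨fun _ _ => k, ⟨measurable_const, fun _ _ _ => Eventually.of_forall fun _ => rfl⟩, ?_⟩
    intro x j hj
    exact Eventually.of_forall fun _ => hj
  | lim 𝓕 _ ih =>
    choose s hs hsA using ih
    have hsm : ∀ n m, Measurable fun x => s n x m := fun n m => measurable_pi_iff.1 (hs n).1 m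
    let Q : ℕ → X → ℕ → Prop := fun n x M => ∀ m : ℕ, m ≥ M →
      (∀ j : ℕ, j ≤ n → (∀ᶠ m' in atTop, s n x m' ∈ A j x) → s n x m ∈ A j x) ∧
        ∀ l : ℕ, l ≤ n → s n (T l x) m = s n x m
    have hex : ∀ n x, ∃ M, Q n x M := by
      intro n x
      have h1 : ∀ᶠ m in atTop, ∀ j ∈ Set.Iic n,
          ((∀ᶠ m' in atTop, s n x m' ∈ A j x) → s n x m ∈ A j x) := by
        rw [Filter.eventually_all_finite (Set.finite_Iic n)]
        intro j _
        by_cases hj : ∀ᶠ m' in atTop, s n x m' ∈ A j x
        · exact hj.mono fun m hm _ => hm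
        · exact Eventually.of_forall fun m h => absurd h hj
      have h2 : ∀ᶠ m in atTop, ∀ l ∈ Set.Iic n, s n (T l x) m = s n x m := by
        rw [Filter.eventually_all_finite (Set.finite_Iic n)]
        intro l _
        exact ((hs n).2 x (T l x) ((hET _ _).2 ⟨l, rfl⟩)).mono fun m h => h.symm
      obtain ⟨M, hM⟩ := eventually_atTop.1 (h1.and h2)
      exact ⟨M, hM⟩
    have hQ : ∀ n M, MeasurableSet {x | Q n x M} := by
      intro n M
      refine measurableSet_setOfPred.2 ?_
      refine Measurable.forall fun m => measurable_const.imp ?_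
      have h1 : ∀ j m, Measurable fun x => s n x m ∈ A j x := fun j m => meas_mem (hsm n m) (hA j)
      refine Measurable.and ?_ ?_
      · exact Measurable.forall fun j => measurable_const.imp ((meas_ev (h1 j)).imp (h1 j m))
      · refine Measurable.forall fun l => measurable_const.imp ?_
        exact measurableSet_setOfPred.1 (measurableSet_eq_fun ((hsm n m).comp (hT l)) (hsm n m))
    obtain ⟨g, hg, hfg⟩ := hB (fun x n => Nat.find (hex n x))
      (measurable_pi_iff.2 fun n => measurable_find (hex n) (hQ n))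
    refine ⟨fun x n => s n x (g x n), ⟨measurable_pi_iff.2 fun n => ?_, fun x y hxy => ?_⟩,
      fun x j hj => ?_⟩
    · exact meas_diag (f := fun m x => s n x m) (hsm n) (measurable_pi_iff.1 hg.1 n)
    · obtain ⟨l, rfl⟩ := (hET x y).1 hxy
      filter_upwards [hg.2 x _ hxy, hfg x, eventually_ge_atTop l] with n h1 h2 h3
      have h4 := (Nat.find_spec (hex n x) (g x n) h2).2 l h3
      rw [← h1, h4]
    · have h1 : ∀ᶠ n in atTop, A j x ∈ 𝓕 n := by
        have h2 := Filter.mem_bind'.1 hj
        exact h2
      filter_upwards [h1, hfg x, eventually_ge_atTop j] with n h1 h2 h3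
      exact (Nat.find_spec (hex n x) (g x n) h2).1 j h3 (hsA n x j h1)

section Grow

/-- the small values are replaced by the bound -/
def lft (h : ℕ → ℕ) (m k : ℕ) : ℕ := if k < m ∧ h k < m then m else h k

/-- a monotone function above `lft h m` -/
def env (h : ℕ → ℕ) (m v : ℕ) : ℕ := ∑ k ∈ Finset.range (v + 1), lft h m k + v + 1

/-- a sequence which grows faster than `h` -/
def grow (h : ℕ → ℕ) (m : ℕ) : ℕ := (env h m)^[m] 1

theorem le_lft (h : ℕ → ℕ) (m k : ℕ) : h k ≤ lft h m k := by
  unfold lft
  split_ifs with h1 <;> omega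

theorem lft_le_succ (h : ℕ → ℕ) (m k : ℕ) : lft h m k ≤ lft h (m + 1) k := by
  unfold lft
  split_ifs with h1 h2 <;> omega

theorem env_mono (h : ℕ → ℕ) (m : ℕ) : Monotone (env h m) := by
  intro v w hvw
  unfold env
  have h1 : ∑ k ∈ Finset.range (v + 1), lft h m k ≤ ∑ k ∈ Finset.range (w + 1), lft h m k :=
    Finset.sum_le_sum_of_subset (Finset.range_mono (by omega))
  omega

theorem env_le_succ (h : ℕ → ℕ) (m : ℕ) : env h m ≤ env h (m + 1) := by
  intro v
  show env h m v ≤ env h (m + 1) v
  unfold env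
  have h1 : ∑ k ∈ Finset.range (v + 1), lft h m k ≤
      ∑ k ∈ Finset.range (v + 1), lft h (m + 1) k := Finset.sum_le_sum fun k _ => lft_le_succ h m k
  omega

theorem le_env (h : ℕ → ℕ) (m v : ℕ) : h v + v + 1 ≤ env h m v := by
  unfold env
  have h1 := Finset.single_le_sum (f := lft h m) (fun _ _ => Nat.zero_le _)
    (Finset.mem_range.2 (show v < v + 1 by omega))
  have h2 := le_lft h m v
  omega

theorem grow_succ (h : ℕ → ℕ) (m : ℕ) : h (grow h m) + grow h m + 1 ≤ grow h (m + 1) := by
  have h1 : grow h m ≤ (env h (m + 1))^[m] 1 :=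
    Monotone.iterate_le_of_le (env_mono h m) (env_le_succ h m) m 1
  have h2 : grow h (m + 1) = env h (m + 1) ((env h (m + 1))^[m] 1) := by
    unfold grow
    rw [Function.iterate_succ_apply']
  rw [h2]
  exact (le_env h (m + 1) _).trans (env_mono h (m + 1) h1)

theorem grow_strictMono (h : ℕ → ℕ) : StrictMono (grow h) :=
  strictMono_nat_of_lt_succ fun m => by
    have h1 := grow_succ h m
    omega

theorem lt_grow (h : ℕ → ℕ) (m : ℕ) : m + 1 ≤ grow h m := by
  induction m with
  | zero => exact le_refl 1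
  | succ m ih =>
    have h1 := grow_succ h m
    omega

theorem grow_congr {h h' : ℕ → ℕ} (hh : ∀ᶠ k in atTop, h k = h' k) :
    ∀ᶠ m in atTop, grow h m = grow h' m := by
  obtain ⟨K, hK⟩ := eventually_atTop.1 hh
  refine eventually_atTop.2 ⟨∑ k ∈ Finset.range K, (h k + h' k + k + 1) + K + 1, fun m hm => ?_⟩
  have h1 : lft h m = lft h' m := by
    funext k
    unfold lft
    by_cases hk : K ≤ k
    · rw [hK k hk]
    · have h2 : h k + h' k + k + 1 ≤ ∑ k ∈ Finset.range K, (h k + h' k + k + 1) :=
        Finset.single_le_sum (f := fun k => h k + h' k + k + 1)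
          (fun _ _ => Nat.zero_le _) (Finset.mem_range.2 (not_le.1 hk))
      rw [if_pos ⟨by omega, by omega⟩, if_pos ⟨by omega, by omega⟩]
  have h2 : env h m = env h' m := by
    funext v
    unfold env
    rw [h1]
  unfold grow
  rw [h2]

theorem meas_grow {h : X → ℕ → ℕ} (hh : Measurable h) (m : ℕ) :
    Measurable fun x => grow (h x) m := by
  have hk : ∀ k, Measurable fun x => h x k := fun k => measurable_pi_iff.1 hh k
  have h1 : ∀ k, Measurable fun x => lft (h x) m k := by
    intro k
    unfold lft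
    exact (Measurable.of_discrete (f := fun v : ℕ => if k < m ∧ v < m then m else v)).comp (hk k)
  have h2 : ∀ v, Measurable fun x => env (h x) m v := by
    intro v
    unfold env
    exact ((Finset.measurable_sum _ fun k _ => h1 k).add measurable_const).add measurable_const
  have h3 : ∀ j, Measurable fun x => (env (h x) m)^[j] 1 := by
    intro j
    induction j with
    | zero => exact measurable_const
    | succ j ih =>
      have h4 : (fun x => (env (h x) m)^[j + 1] 1) = fun x => env (h x) m ((env (h x) m)^[j] 1) := by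
        funext x
        rw [Function.iterate_succ_apply']
      rw [h4]
      exact meas_diag (f := fun v x => env (h x) m v) h2 ih
  exact h3 m

end Grow

/-- **Scales.** If `E` is Borel-bounded then there is a homomorphism `g` such that `g x (n + 1)` is
large compared to `g x n`. -/
theorem exists_scale {E : Setoid X} (hB : BorelBounded E) {ι : Type} [Countable ι]
    (Λ : ℕ → Set ι) (hΛ : ∀ w, (Λ w).Finite) (A : ι → X → Set ℕ)
    (hA : ∀ j v, MeasurableSet {x | v ∈ A j x}) :
    ∃ g : X → ℕ → ℕ, IsHom E g ∧ (∀ x, StrictMono (g x)) ∧ (∀ x n, n + 1 ≤ g x n) ∧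
      ∀ x, ∀ᶠ n in atTop, ∀ j ∈ Λ (g x n), (∀ᶠ v in atTop, v ∈ A j x) → g x (n + 1) ∈ A j x := by
  classical
  let Q : ℕ → X → ℕ → Prop := fun w x V => ∀ v : ℕ, v ≥ V →
    ∀ j : ι, j ∈ Λ w → (∀ᶠ v' in atTop, v' ∈ A j x) → v ∈ A j x
  have hex : ∀ w x, ∃ V, Q w x V := by
    intro w x
    have h1 : ∀ᶠ v in atTop, ∀ j ∈ Λ w, ((∀ᶠ v' in atTop, v' ∈ A j x) → v ∈ A j x) := by
      rw [Filter.eventually_all_finite (hΛ w)]
      intro j _
      by_cases hj : ∀ᶠ v' in atTop, v' ∈ A j x
      · exact hj.mono fun m hm _ => hm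
      · exact Eventually.of_forall fun m h => absurd h hj
    obtain ⟨V, hV⟩ := eventually_atTop.1 h1
    exact ⟨V, hV⟩
  have hQ : ∀ w V, MeasurableSet {x | Q w x V} := by
    intro w V
    refine measurableSet_setOfPred.2 ?_
    refine Measurable.forall fun v => measurable_const.imp ?_
    refine Measurable.forall fun j => measurable_const.imp ?_
    exact (meas_ev fun v => measurableSet_setOfPred.1 (hA j v)).imp (measurableSet_setOfPred.1 (hA j v))
  obtain ⟨h, hh, hfh⟩ := hB (fun x w => Nat.find (hex w x))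
    (measurable_pi_iff.2 fun w => measurable_find (hex w) (hQ w))
  refine ⟨fun x => grow (h x), ⟨measurable_pi_iff.2 fun m => meas_grow hh.1 m,
    fun x y hxy => grow_congr (hh.2 x y hxy)⟩, fun x => grow_strictMono (h x),
    fun x n => lt_grow (h x) n, fun x => ?_⟩
  obtain ⟨W, hW⟩ := eventually_atTop.1 (hfh x)
  filter_upwards [eventually_ge_atTop W] with n hn j hj hev
  have h1 : W ≤ grow (h x) n := by
    have h2 := lt_grow (h x) n
    omega
  have h2 := hW _ h1
  have h3 := grow_succ (h x) n
  exact Nat.find_spec (hex (grow (h x) n) x) _ (by omega) j hj hev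

end Pool.Agent.MP_750e50_lc
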