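import Pool.Agent.MP_750e50_lc.Classes

/-!
# Flows to markers in a Borel directed graph
-/

set_option autoImplicit false

open Filter Relation

namespace Pool.Agent.MP_750e50_lc

variable {X : Type}

section Walks

/-- directed walks of length `n` -/
def Wk (D : X → X → Prop) : ℕ → X → X → Prop
  | 0, x, y => x = y
  | n + 1, x, y => ∃ w, D x w ∧ Wk D n w y

theorem exists_Wk {D : X → X → Prop} {x y : X} (h : ReflTransGen D x y) : ∃ n, Wk D n x y := by
  induction h using ReflTransGen.head_induction_on with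
  | refl => exact ⟨0, rfl⟩
  | head h1 _ ih =>
    obtain ⟨n, hn⟩ := ih
    exact ⟨n + 1, _, h1, hn⟩

theorem reach_of_Wk {D : X → X → Prop} {n : ℕ} {x y : X} (h : Wk D n x y) : ReflTransGen D x y := by
  induction n generalizing x with
  | zero =>
    have h1 : x = y := h
    rw [h1]
  | succ n ih =>
    obtain ⟨w, h1, h2⟩ := h
    exact ReflTransGen.head h1 (ih h2)

theorem reach_sub {D : X → X → Prop} {E : Setoid X} (hDE : ∀ x y, D x y → E.r x y) {x y : X}
    (h : ReflTransGen D x y) : E.r x y := by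
  induction h with
  | refl => exact E.refl' x
  | tail _ h1 ih => exact E.trans' ih (hDE _ _ h1)

end Walks

section Meas

variable [MeasurableSpace X] [StandardBorelSpace X]

theorem meas_Wk {E : Setoid X} {T : ℕ → X → X} (hT : ∀ n, Measurable (T n))
    (hET : ∀ x y, E.r x y ↔ ∃ n, T n x = y) {D : X → X → Prop}
    (hDm : MeasurableSet {p : X × X | D p.1 p.2}) (hDE : ∀ x y, D x y → E.r x y) (n : ℕ) :
    MeasurableSet {p : X × X | Wk D n p.1 p.2} := by
  induction n with
  | zero => exact measurableSet_eq_fun measurable_fst measurable_snd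
  | succ n ih =>
    have h1 : {p : X × X | Wk D (n + 1) p.1 p.2} =
        {p : X × X | ∃ j : ℕ, D p.1 (T j p.1) ∧ Wk D n (T j p.1) p.2} := by
      ext p
      constructor
      · rintro ⟨w, h1, h2⟩
        obtain ⟨j, rfl⟩ := (hET _ _).1 (hDE _ _ h1)
        exact ⟨j, h1, h2⟩
      · rintro ⟨j, h1, h2⟩
        exact ⟨_, h1, h2⟩
    rw [h1]
    refine measurableSet_setOfPred.2 (Measurable.exists fun j => Measurable.and ?_ ?_)
    · exact measurableSet_setOfPred.1 (meas_rel hDm measurable_fst ((hT j).comp measurable_fst))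
    · exact measurableSet_setOfPred.1 (meas_rel ih ((hT j).comp measurable_fst) measurable_snd)

theorem meas_reach {E : Setoid X} {T : ℕ → X → X} (hT : ∀ n, Measurable (T n))
    (hET : ∀ x y, E.r x y ↔ ∃ n, T n x = y) {D : X → X → Prop}
    (hDm : MeasurableSet {p : X × X | D p.1 p.2}) (hDE : ∀ x y, D x y → E.r x y) :
    MeasurableSet {p : X × X | ReflTransGen D p.1 p.2} := by
  have h1 : {p : X × X | ReflTransGen D p.1 p.2} = ⋃ n : ℕ, {p : X × X | Wk D n p.1 p.2} := by
    ext p
    simp only [Set.mem_iUnion, Set.mem_ofPred_eq]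
    exact ⟨exists_Wk, fun ⟨n, hn⟩ => reach_of_Wk hn⟩
  rw [h1]
  exact MeasurableSet.iUnion fun n => meas_Wk hT hET hDm hDE n

theorem meas_infinite {E : Setoid X} {T : ℕ → X → X} (hT : ∀ n, Measurable (T n))
    (hET : ∀ x y, E.r x y ↔ ∃ n, T n x = y) {R : X → X → Prop}
    (hRm : MeasurableSet {p : X × X | R p.1 p.2}) (hRE : ∀ x y, R x y → E.r x y) :
    MeasurableSet {x : X | {y | R x y}.Infinite} := by
  have h1 : {x : X | {y | R x y}.Infinite} =
      {x : X | ∀ N : ℕ, ∃ j : ℕ, R x (T j x) ∧ ∀ i : ℕ, i ≤ N → T j x ≠ T i x} := by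
    ext x
    constructor
    · intro h N
      obtain ⟨y, hy, hnot⟩ := h.exists_notMem_finite ((Set.finite_Iic N).image fun i => T i x)
      obtain ⟨j, rfl⟩ := (hET _ _).1 (hRE _ _ hy)
      exact ⟨j, hy, fun i hi h2 => hnot ⟨i, hi, h2.symm⟩⟩
    · intro h hfin
      have h2 : ∀ y, ∃ n : ℕ, R x y → T n x = y := by
        intro y
        by_cases hy : R x y
        · obtain ⟨n, hn⟩ := (hET _ _).1 (hRE _ _ hy)
          exact ⟨n, fun _ => hn⟩
        · exact ⟨0, fun h => absurd h hy⟩
      choose ix hix using h2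
      obtain ⟨N, hN⟩ := (hfin.image ix).bddAbove
      obtain ⟨j, hj, h3⟩ := h N
      exact h3 (ix (T j x)) (hN ⟨_, hj, rfl⟩) (hix _ hj).symm
  rw [h1]
  refine measurableSet_setOfPred.2 (Measurable.forall fun N => Measurable.exists fun j => ?_)
  refine Measurable.and ?_ (Measurable.forall fun i => measurable_const.imp ?_)
  · exact measurableSet_setOfPred.1 (meas_rel hRm measurable_id (hT j))
  · exact measurableSet_setOfPred.1 (measurableSet_eq_fun (hT j) (hT i)).compl

/-- **The flow to the markers.** -/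
theorem exists_flow {E : Setoid X} {T : ℕ → X → X} (hT : ∀ n, Measurable (T n))
    (hET : ∀ x y, E.r x y ↔ ∃ n, T n x = y) {D : X → X → Prop}
    (hDm : MeasurableSet {p : X × X | D p.1 p.2}) (hDE : ∀ x y, D x y → E.r x y) {M : Set X}
    (hM : MeasurableSet M) (hreach : ∀ x, ∃ y ∈ M, ReflTransGen D x y) :
    ∃ p : X → X, Measurable p ∧ (∀ x, E.r x (p x)) ∧ ∀ A : Set X, ∀ a ∈ A,
      (p a ∈ A ∧ p a ∈ M) ∨ ∃ u ∈ A, ∃ v, v ∉ A ∧ D u v ∧ p a = p v := by
  classical
  have hex : ∀ x, ∃ n, ∃ y ∈ M, Wk D n x y := by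
    intro x
    obtain ⟨y, hy, h⟩ := hreach x
    obtain ⟨n, hn⟩ := exists_Wk h
    exact ⟨n, y, hy, hn⟩
  have hQ : ∀ n, MeasurableSet {x | ∃ y ∈ M, Wk D n x y} := by
    intro n
    have h1 : {x | ∃ y ∈ M, Wk D n x y} = {x | ∃ j : ℕ, T j x ∈ M ∧ Wk D n x (T j x)} := by
      ext x
      constructor
      · rintro ⟨y, hy, h⟩
        obtain ⟨j, rfl⟩ := (hET _ _).1 (reach_sub hDE (reach_of_Wk h))
        exact ⟨j, hy, h⟩
      · rintro ⟨j, hj, h⟩
        exact ⟨_, hj, h⟩
    rw [h1]
    refine measurableSet_setOfPred.2 (Measurable.exists fun j => Measurable.and ?_ ?_)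
    · exact measurableSet_setOfPred.1 (hT j hM)
    · exact measurableSet_setOfPred.1 (meas_rel (meas_Wk hT hET hDm hDE n) measurable_id (hT j))
  let n : X → ℕ := fun x => Nat.find (hex x)
  have hn : Measurable n := measurable_find hex hQ
  -- the next point
  have hnext : ∀ x, ∃ j, n x = 0 ∨ (D x (T j x) ∧ n (T j x) + 1 = n x) := by
    intro x
    rcases Nat.eq_zero_or_pos (n x) with h0 | h0
    · exact ⟨0, Or.inl h0⟩
    · obtain ⟨m, hm⟩ : ∃ m, n x = m + 1 := ⟨n x - 1, by omega⟩
      have h1 : ∃ y ∈ M, Wk D (m + 1) x y := by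
        rw [← hm]
        exact Nat.find_spec (hex x)
      obtain ⟨y, hy, w, hw, h2⟩ := h1
      obtain ⟨j, rfl⟩ := (hET _ _).1 (hDE _ _ hw)
      have h3 : n (T j x) ≤ m := Nat.find_min' (hex (T j x)) ⟨y, hy, h2⟩
      have h4 : n x ≤ n (T j x) + 1 := by
        obtain ⟨y', hy', h5⟩ := Nat.find_spec (hex (T j x))
        exact Nat.find_min' (hex x) ⟨y', hy', _, hw, h5⟩
      exact ⟨j, Or.inr ⟨hw, by omega⟩⟩
  have hQ' : ∀ j, MeasurableSet {x | n x = 0 ∨ (D x (T j x) ∧ n (T j x) + 1 = n x)} := by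
    intro j
    refine measurableSet_setOfPred.2 (Measurable.or ?_ (Measurable.and ?_ ?_))
    · exact measurableSet_setOfPred.1 (measurableSet_eq_fun hn measurable_const)
    · exact measurableSet_setOfPred.1 (meas_rel hDm measurable_id (hT j))
    · exact measurableSet_setOfPred.1 (measurableSet_eq_fun
        ((hn.comp (hT j)).add measurable_const) hn)
  let nx : X → X := fun x => if n x = 0 then x else T (Nat.find (hnext x)) x
  have hnxm : Measurable nx := Measurable.ite (measurableSet_eq_fun hn measurable_const)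
    measurable_id (meas_diag' hT (measurable_find hnext hQ'))
  have hnx : ∀ x, n x ≠ 0 → D x (nx x) ∧ n (nx x) + 1 = n x := by
    intro x hx
    have h1 := Nat.find_spec (hnext x)
    have h2 : nx x = T (Nat.find (hnext x)) x := if_neg hx
    rw [h2]
    exact h1.resolve_left hx
  have hnx0 : ∀ x, n x = 0 → nx x = x := fun x hx => if_pos hx
  let p : X → X := fun x => nx^[n x] x
  have hp0 : ∀ x, n x = 0 → p x = x := by
    intro x hx
    show nx^[n x] x = x
    rw [hx]
    rfl
  have hp1 : ∀ x, n x ≠ 0 → p x = p (nx x) := by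
    intro x hx
    show nx^[n x] x = nx^[n (nx x)] (nx x)
    rw [← (hnx x hx).2, Function.iterate_succ_apply]
  have hM0 : ∀ x, n x = 0 → x ∈ M := by
    intro x hx
    obtain ⟨y, hy, h⟩ := Nat.find_spec (hex x)
    have h1 : Wk D (n x) x y := h
    rw [hx] at h1
    have h2 : x = y := h1
    rw [h2]
    exact hy
  have hiter : ∀ m, Measurable (nx^[m]) := by
    intro m
    induction m with
    | zero => exact measurable_id
    | succ m ih =>
      rw [Function.iterate_succ]
      exact ih.comp hnxm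
  refine ⟨p, meas_diag' hiter hn, ?_, ?_⟩
  · have h1 : ∀ m x, n x = m → E.r x (p x) := by
      intro m
      induction m with
      | zero =>
        intro x hx
        rw [hp0 x hx]
      | succ m ih =>
        intro x hx
        have h2 := hnx x (by omega)
        rw [hp1 x (by omega)]
        exact E.trans' (hDE _ _ h2.1) (ih _ (by omega))
    exact fun x => h1 _ x rfl
  · intro A
    have h1 : ∀ m, ∀ a ∈ A, n a = m →
        (p a ∈ A ∧ p a ∈ M) ∨ ∃ u ∈ A, ∃ v, v ∉ A ∧ D u v ∧ p a = p v := by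
      intro m
      induction m with
      | zero =>
        intro a ha h0
        rw [hp0 a h0]
        exact Or.inl ⟨ha, hM0 a h0⟩
      | succ m ih =>
        intro a ha h0
        have h2 := hnx a (by omega)
        rw [hp1 a (by omega)]
        by_cases h3 : nx a ∈ A
        · exact ih _ h3 (by omega)
        · exact Or.inr ⟨a, ha, nx a, h3, h2.1, rfl⟩
    exact fun a ha => h1 _ a ha rfl

end Meas

section Markers

/-- the points which can be reached from `x` -/
def Rch (D : X → X → Prop) (x : X) : Set X := {y | ReflTransGen D x y}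

/-- infinitely many points of colour `t` can be reached from `x` -/
def Rec (D : X → X → Prop) (c : X → ℕ) (t : ℕ) (x : X) : Prop :=
  {y | ReflTransGen D x y ∧ c y = t}.Infinite

/-- the least recurrent colour -/
noncomputable def sk (D : X → X → Prop) (c : X → ℕ) (x : X) : ℕ := sInf {t | Rec D c t x}

/-- the markers -/
def Mk (D : X → X → Prop) (c : X → ℕ) (φ : X → ℝ) : Set X :=
  {y | (Rec D c (c y) y ∧ ∀ t, Rec D c t y → c y ≤ t) ∨
    (¬ (Rch D y).Infinite ∧ (∀ z, ReflTransGen D y z → ReflTransGen D z y) ∧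
      ∀ z, ReflTransGen D y z → φ y ≤ φ z)}

variable {D : X → X → Prop} {c : X → ℕ} {N : ℕ} {φ : X → ℝ}

theorem exists_Rec (hc : ∀ x, c x < N) {x : X} (hx : (Rch D x).Infinite) :
    ∃ t, Rec D c t x := by
  by_contra hcon
  push Not at hcon
  apply hx
  have h1 : (⋃ t ∈ Set.Iio N, {y | ReflTransGen D x y ∧ c y = t}).Finite :=
    Set.Finite.biUnion (Set.finite_Iio N) fun t _ => Set.not_infinite.1 (hcon t)
  refine h1.subset fun y hy => ?_
  exact Set.mem_biUnion (Set.mem_Iio.2 (hc y)) ⟨hy, rfl⟩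

theorem sk_spec (hc : ∀ x, c x < N) {x : X} (hx : (Rch D x).Infinite) : Rec D c (sk D c x) x :=
  Nat.sInf_mem (exists_Rec hc hx)

theorem sk_le {t : ℕ} {x : X} (h : Rec D c t x) : sk D c x ≤ t := Nat.sInf_le h

theorem Rec_mono {x y : X} {t : ℕ} (hxy : ReflTransGen D x y) (h : Rec D c t y) :
    Rec D c t x := h.mono fun _ hz => ⟨hxy.trans hz.1, hz.2⟩

theorem Rec_inf {x : X} {t : ℕ} (h : Rec D c t x) : (Rch D x).Infinite := h.mono fun _ hz => hz.1

theorem sk_mono (hc : ∀ x, c x < N) {x y : X} (hxy : ReflTransGen D x y)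
    (hy : (Rch D y).Infinite) : sk D c x ≤ sk D c y := sk_le (Rec_mono hxy (sk_spec hc hy))

theorem sk_lt (hc : ∀ x, c x < N) {x : X} (hx : (Rch D x).Infinite) : sk D c x < N := by
  obtain ⟨y, hy⟩ := (sk_spec hc hx).nonempty
  rw [← hy.2]
  exact hc y

/-- markers can be reached from every point -/
theorem Mk_reach (hc : ∀ x, c x < N) (x : X) : ∃ y ∈ Mk D c φ, ReflTransGen D x y := by
  classical
  by_cases hA : ∃ y, ReflTransGen D x y ∧ ¬ (Rch D y).Infinite
  · have h1 : ∀ n : ℕ, ∀ y, ¬ (Rch D y).Infinite → (Rch D y).ncard = n →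
        ∃ z ∈ Mk D c φ, ReflTransGen D y z := by
      intro n
      induction n using Nat.strong_induction_on with
      | _ n ih =>
        intro y hy hn
        have hyf := Set.not_infinite.1 hy
        by_cases hterm : ∀ z, ReflTransGen D y z → ReflTransGen D z y
        · obtain ⟨z, hz, hmin⟩ := hyf.exists_minimalFor φ _ ⟨y, ReflTransGen.refl⟩
          have hz' : ReflTransGen D y z := hz
          refine ⟨z, Or.inr ⟨?_, ?_, ?_⟩, hz'⟩
          · exact fun h => hy (h.mono fun w hw => hz'.trans hw)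
          · exact fun w hw => (hterm w (hz'.trans hw)).trans hz'
          · intro w hw
            rcases le_total (φ z) (φ w) with h2 | h2
            · exact h2
            · exact hmin (hz'.trans hw) h2
        · push Not at hterm
          obtain ⟨z, hz, hnz⟩ := hterm
          have h2 : Rch D z ⊂ Rch D y := by
            refine ⟨fun w hw => hz.trans hw, fun h => hnz (h ReflTransGen.refl)⟩
          have h3 : ¬ (Rch D z).Infinite := fun h => hy (h.mono h2.1)
          obtain ⟨w, hw, h4⟩ := ih _ (by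
            rw [← hn]
            exact Set.ncard_lt_ncard h2 hyf) z h3 rfl
          exact ⟨w, hw, hz.trans h4⟩
    obtain ⟨y, hy, hyf⟩ := hA
    obtain ⟨z, hz, h2⟩ := h1 _ y hyf rfl
    exact ⟨z, hz, hy.trans h2⟩
  · push Not at hA
    have h1 : ∀ n : ℕ, ∀ y, ReflTransGen D x y → N - sk D c y = n →
        ∃ z ∈ Mk D c φ, ReflTransGen D y z := by
      intro n
      induction n using Nat.strong_induction_on with
      | _ n ih =>
        intro y hy hn
        have hyi := hA y hy
        obtain ⟨z, hz, hcz⟩ := (sk_spec hc hyi).nonempty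
        have hzi := hA z (hy.trans hz)
        rcases Nat.lt_or_ge (sk D c y) (sk D c z) with h2 | h2
        · have h3 := sk_lt hc hzi
          obtain ⟨w, hw, h4⟩ := ih _ (by omega) z (hy.trans hz) rfl
          exact ⟨w, hw, hz.trans h4⟩
        · have h3 : sk D c z = c z := by
            rw [hcz]
            exact le_antisymm h2 (sk_mono hc hz hzi)
          refine ⟨z, Or.inl ⟨?_, fun t ht => ?_⟩, hz⟩
          · rw [← h3]
            exact sk_spec hc hzi
          · rw [← h3]
            exact sk_le ht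
    exact h1 _ x ReflTransGen.refl rfl

/-- a walk from `A` stays in `A` or leaves it -/
theorem Rch_split {A : Set X} {y z : X} (hy : y ∈ A) (h : ReflTransGen D y z) :
    z ∈ A ∨ ∃ v, v ∉ A ∧ (∃ u ∈ A, D u v) ∧ ReflTransGen D y v ∧ ReflTransGen D v z := by
  classical
  induction h with
  | refl => exact Or.inl hy
  | @tail z z' h1 h2 ih =>
    rcases ih with h3 | ⟨v, hv, hu, h3, h4⟩
    · by_cases h5 : z' ∈ A
      · exact Or.inl h5
      · exact Or.inr ⟨z', h5, ⟨z, h3, h2⟩, h1.tail h2, ReflTransGen.refl⟩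
    · exact Or.inr ⟨v, hv, hu, h3, h4.tail h2⟩

/-- **Counting.** There are few markers in a finite set which is left by at most two arcs. -/
theorem card_markers (hc : ∀ x, c x < N) (hφ : Function.Injective φ) (A F : Finset X)
    (hF : F.card ≤ 2) (hAF : ∀ v, v ∉ A → (∃ u ∈ A, D u v) → v ∈ F)
    (hinj : ∀ a ∈ A, ∀ b ∈ A, c a = c b → a = b)
    (hU : ∀ y ∈ A, ∀ y' ∈ A, (Rch D y : Set X) ⊆ A → (Rch D y' : Set X) ⊆ A →
      (Rch D y ∩ Rch D y').Nonempty) :
    ∃ V : Finset X, V.card ≤ 5 ∧ ∀ y ∈ A, y ∈ Mk D c φ → y ∈ V := by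
  classical
  -- the three kinds of markers
  let V1 : Finset X := A.filter fun y => c y ∈ F.image (sk D c)
  let V2 : Finset X := A.filter fun y => ∃ v ∈ F, ReflTransGen D y v ∧ ReflTransGen D v y ∧
    ∀ z, ReflTransGen D y z → φ y ≤ φ z
  let V3 : Finset X := A.filter fun y => (Rch D y : Set X) ⊆ A ∧
    (∀ z, ReflTransGen D y z → ReflTransGen D z y) ∧ ∀ z, ReflTransGen D y z → φ y ≤ φ z
  have h1 : V1.card ≤ 2 := by
    have h2 : V1.card ≤ (F.image (sk D c)).card :=
      Finset.card_le_card_of_injOn c (fun y hy => (Finset.mem_filter.1 hy).2)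
        fun y hy y' hy' h => hinj y (Finset.mem_filter.1 hy).1 y' (Finset.mem_filter.1 hy').1 h
    exact h2.trans (Finset.card_image_le.trans hF)
  have h2 : V2.card ≤ 2 := by
    have h3 : ∀ y, ∃ v, y ∈ V2 → v ∈ F ∧ ReflTransGen D y v ∧ ReflTransGen D v y ∧
        ∀ z, ReflTransGen D y z → φ y ≤ φ z := by
      intro y
      by_cases hy : y ∈ V2
      · obtain ⟨v, hv, h4⟩ := (Finset.mem_filter.1 hy).2
        exact ⟨v, fun _ => ⟨hv, h4⟩⟩
      · exact ⟨y, fun h => absurd h hy⟩
    choose g hg using h3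
    refine (Finset.card_le_card_of_injOn g (fun y hy => (hg y hy).1) fun y hy y' hy' h => ?_).trans
      hF
    obtain ⟨-, a1, a2, a3⟩ := hg y hy
    obtain ⟨-, b1, b2, b3⟩ := hg y' hy'
    rw [← h] at b1 b2
    exact hφ (le_antisymm (a3 _ (a1.trans b2)) (b3 _ (b1.trans a2)))
  have h3 : V3.card ≤ 1 := by
    refine Finset.card_le_one.2 fun y hy y' hy' => ?_
    obtain ⟨hyA, hy1, hy2, hy3⟩ := Finset.mem_filter.1 hy
    obtain ⟨hyA', hy1', hy2', hy3'⟩ := Finset.mem_filter.1 hy'
    obtain ⟨z, hz, hz'⟩ := hU y hyA y' hyA' hy1 hy1'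
    have hz1 : ReflTransGen D y z := hz
    have hz2 : ReflTransGen D y' z := hz'
    exact hφ (le_antisymm (hy3 _ (hz1.trans (hy2' z hz2))) (hy3' _ (hz2.trans (hy2 z hz1))))
  refine ⟨V1 ∪ V2 ∪ V3, ?_, fun y hy hM => ?_⟩
  · have h4 := Finset.card_union_le (V1 ∪ V2) V3
    have h5 := Finset.card_union_le V1 V2
    omega
  · rcases hM with ⟨hrec, hmin⟩ | ⟨hfin, hterm, hleast⟩
    · -- infinitely many points are reached through one of the arcs
      have hinf := Rec_inf hrec
      have hsk : sk D c y = c y := le_antisymm (sk_le hrec) (hmin _ (sk_spec hc hinf))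
      have h4 : ∃ v ∈ F, ReflTransGen D y v ∧ Rec D c (c y) v := by
        by_contra hcon
        push Not at hcon
        apply hrec
        have h5 : ((A : Set X) ∪ ⋃ v ∈ {v | v ∈ F ∧ ReflTransGen D y v},
            {z | ReflTransGen D v z ∧ c z = c y}).Finite := by
          refine A.finite_toSet.union (Set.Finite.biUnion (F.finite_toSet.subset fun v hv => hv.1)
            fun v hv => Set.not_infinite.1 (hcon v hv.1 hv.2))
        refine h5.subset ?_
        rintro z ⟨hz, hcz⟩
        rcases Rch_split (A := (A : Set X)) hy hz with h6 | ⟨v, hv, hu, h7, h8⟩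
        · exact Or.inl h6
        · exact Or.inr (Set.mem_biUnion (show v ∈ {v | v ∈ F ∧ ReflTransGen D y v} from
            ⟨hAF v hv hu, h7⟩) ⟨h8, hcz⟩)
      obtain ⟨v, hv, h5, h6⟩ := h4
      refine Finset.mem_union_left _ (Finset.mem_union_left _ (Finset.mem_filter.2 ⟨hy, ?_⟩))
      refine Finset.mem_image.2 ⟨v, hv, ?_⟩
      refine le_antisymm (sk_le h6) ?_
      rw [← hsk]
      exact sk_mono hc h5 (Rec_inf h6)
    · by_cases hsub : (Rch D y : Set X) ⊆ A
      · exact Finset.mem_union_right _ (Finset.mem_filter.2 ⟨hy, hsub, hterm, hleast⟩)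
      · obtain ⟨z, hz, hzA⟩ := Set.not_subset.1 hsub
        rcases Rch_split (A := (A : Set X)) hy hz with h6 | ⟨v, hv, hu, h7, h8⟩
        · exact absurd h6 hzA
        · refine Finset.mem_union_left _ (Finset.mem_union_right _ (Finset.mem_filter.2 ⟨hy, ?_⟩))
          exact ⟨v, hAF v hv hu, h7, hterm v h7, hleast⟩

theorem meas_Mk [MeasurableSpace X] [StandardBorelSpace X] {E : Setoid X} {T : ℕ → X → X}
    (hT : ∀ n, Measurable (T n)) (hET : ∀ x y, E.r x y ↔ ∃ n, T n x = y)
    (hDm : MeasurableSet {p : X × X | D p.1 p.2}) (hDE : ∀ x y, D x y → E.r x y)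
    (hc : Measurable c) (hφ : Measurable φ) : MeasurableSet (Mk D c φ) := by
  have hR := meas_reach hT hET hDm hDE
  have hRec : ∀ t, MeasurableSet {x | Rec D c t x} := by
    intro t
    refine meas_infinite hT hET (R := fun x y => ReflTransGen D x y ∧ c y = t) ?_
      fun x y h => reach_sub hDE h.1
    exact hR.inter (measurableSet_eq_fun (hc.comp measurable_snd) measurable_const)
  have hinf : MeasurableSet {x | (Rch D x).Infinite} :=
    meas_infinite hT hET hR fun x y h => reach_sub hDE h
  have hall : ∀ {Q : X → X → Prop}, MeasurableSet {p : X × X | Q p.1 p.2} →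
      MeasurableSet {y | ∀ z, ReflTransGen D y z → Q y z} := by
    intro Q hQ
    have h1 : {y | ∀ z, ReflTransGen D y z → Q y z} =
        {y | ∀ j : ℕ, ReflTransGen D y (T j y) → Q y (T j y)} := by
      ext y
      constructor
      · exact fun h j => h _
      · intro h z hz
        obtain ⟨j, rfl⟩ := (hET _ _).1 (reach_sub hDE hz)
        exact h j hz
    rw [h1]
    refine measurableSet_setOfPred.2 (Measurable.forall fun j => Measurable.imp ?_ ?_)
    · exact measurableSet_setOfPred.1 (meas_rel hR measurable_id (hT j))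
    · exact measurableSet_setOfPred.1 (meas_rel hQ measurable_id (hT j))
  unfold Mk
  refine measurableSet_setOfPred.2 (Measurable.or (Measurable.and ?_ ?_)
    (Measurable.and ?_ (Measurable.and ?_ ?_)))
  · have h1 := meas_mem (s := c) hc (A := fun x => {t | Rec D c t x}) hRec
    exact h1
  · refine Measurable.forall fun t => Measurable.imp ?_ ?_
    · exact measurableSet_setOfPred.1 (hRec t)
    · exact measurableSet_setOfPred.1 (measurableSet_le hc measurable_const)
  · exact (measurableSet_setOfPred.1 hinf).not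
  · refine measurableSet_setOfPred.1 (hall (Q := fun y z => ReflTransGen D z y) ?_)
    exact meas_rel hR measurable_snd measurable_fst
  · refine measurableSet_setOfPred.1 (hall (Q := fun y z => φ y ≤ φ z) ?_)
    exact measurableSet_le (hφ.comp measurable_fst) (hφ.comp measurable_snd)

end Markers

end Pool.Agent.MP_750e50_lc
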