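import Pool.Agent.MP_750e50_lc.Narrow

/-!
# Flows to markers in Borel families of digraphs
-/

set_option autoImplicit false

open Filter Relation MeasureTheory ProbabilityTheory

namespace Pool.Agent.MP_750e50_lc

variable {X : Type}

section Explicit

/-- the distance to the markers -/
noncomputable def flN (D : X → X → Prop) (M : Set X) (x : X) : ℕ := sInf {n | ∃ y ∈ M, Wk D n x y}

/-- the index of the next point -/
noncomputable def flJ (T : ℕ → X → X) (D : X → X → Prop) (M : Set X) (x : X) : ℕ :=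
  sInf {j | flN D M x = 0 ∨ (D x (T j x) ∧ flN D M (T j x) + 1 = flN D M x)}

open Classical in
/-- the next point -/
noncomputable def flS (T : ℕ → X → X) (D : X → X → Prop) (M : Set X) (x : X) : X :=
  if flN D M x = 0 then x else T (flJ T D M x) x

/-- the flow to the markers -/
noncomputable def fl (T : ℕ → X → X) (D : X → X → Prop) (M : Set X) (x : X) : X :=
  (flS T D M)^[flN D M x] x

variable {T : ℕ → X → X} {D : X → X → Prop} {M : Set X}

theorem fl_ex (hreach : ∀ x, ∃ y ∈ M, ReflTransGen D x y) (x : X) :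
    ∃ n, ∃ y ∈ M, Wk D n x y := by
  obtain ⟨y, hy, h⟩ := hreach x
  obtain ⟨n, hn⟩ := exists_Wk h
  exact ⟨n, y, hy, hn⟩

theorem fl_next (hD : ∀ x y, D x y → ∃ j, T j x = y)
    (hreach : ∀ x, ∃ y ∈ M, ReflTransGen D x y) (x : X) :
    ∃ j, flN D M x = 0 ∨ (D x (T j x) ∧ flN D M (T j x) + 1 = flN D M x) := by
  rcases Nat.eq_zero_or_pos (flN D M x) with h0 | h0
  · exact ⟨0, Or.inl h0⟩
  · obtain ⟨m, hm⟩ : ∃ m, flN D M x = m + 1 := ⟨flN D M x - 1, by omega⟩
    have h1 : ∃ y ∈ M, Wk D (m + 1) x y := by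
      rw [← hm]
      exact Nat.sInf_mem (fl_ex hreach x)
    obtain ⟨y, hy, w, hw, h2⟩ := h1
    obtain ⟨j, rfl⟩ := hD _ _ hw
    have h3 : flN D M (T j x) ≤ m := Nat.sInf_le ⟨y, hy, h2⟩
    have h4 : flN D M x ≤ flN D M (T j x) + 1 := by
      obtain ⟨y', hy', h5⟩ := Nat.sInf_mem (fl_ex hreach (T j x))
      exact Nat.sInf_le ⟨y', hy', _, hw, h5⟩
    exact ⟨j, Or.inr ⟨hw, by omega⟩⟩

theorem flS_spec (hD : ∀ x y, D x y → ∃ j, T j x = y)
    (hreach : ∀ x, ∃ y ∈ M, ReflTransGen D x y) {x : X} (hx : flN D M x ≠ 0) :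
    D x (flS T D M x) ∧ flN D M (flS T D M x) + 1 = flN D M x := by
  have h1 : flN D M x = 0 ∨ (D x (T (flJ T D M x) x) ∧
      flN D M (T (flJ T D M x) x) + 1 = flN D M x) :=
    Nat.sInf_mem (s := {j | flN D M x = 0 ∨ (D x (T j x) ∧ flN D M (T j x) + 1 = flN D M x)})
      (fl_next hD hreach x)
  have h2 : flS T D M x = T (flJ T D M x) x := if_neg hx
  rw [h2]
  exact h1.resolve_left hx

theorem fl_zero {x : X} (hx : flN D M x = 0) : fl T D M x = x := by
  show (flS T D M)^[flN D M x] x = x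
  rw [hx]
  rfl

theorem fl_succ (hD : ∀ x y, D x y → ∃ j, T j x = y)
    (hreach : ∀ x, ∃ y ∈ M, ReflTransGen D x y) {x : X} (hx : flN D M x ≠ 0) :
    fl T D M x = fl T D M (flS T D M x) := by
  show (flS T D M)^[flN D M x] x = (flS T D M)^[flN D M (flS T D M x)] (flS T D M x)
  rw [← (flS_spec hD hreach hx).2, Function.iterate_succ_apply]

theorem fl_reach (hD : ∀ x y, D x y → ∃ j, T j x = y)
    (hreach : ∀ x, ∃ y ∈ M, ReflTransGen D x y) (x : X) : ReflTransGen D x (fl T D M x) := by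
  have h1 : ∀ m x, flN D M x = m → ReflTransGen D x (fl T D M x) := by
    intro m
    induction m with
    | zero =>
      intro x hx
      rw [fl_zero hx]
    | succ m ih =>
      intro x hx
      have h2 := flS_spec hD hreach (x := x) (by omega)
      rw [fl_succ hD hreach (by omega)]
      exact ReflTransGen.head h2.1 (ih _ (by omega))
  exact h1 _ x rfl

theorem fl_split (hD : ∀ x y, D x y → ∃ j, T j x = y)
    (hreach : ∀ x, ∃ y ∈ M, ReflTransGen D x y) (A : Set X) : ∀ a ∈ A,
      (fl T D M a ∈ A ∧ fl T D M a ∈ M) ∨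
        ∃ u ∈ A, ∃ v, v ∉ A ∧ D u v ∧ fl T D M a = fl T D M v := by
  have hM0 : ∀ x, flN D M x = 0 → x ∈ M := by
    intro x hx
    obtain ⟨y, hy, h⟩ := Nat.sInf_mem (fl_ex hreach x)
    have h1 : Wk D (flN D M x) x y := h
    rw [hx] at h1
    have h2 : x = y := h1
    rw [h2]
    exact hy
  have h1 : ∀ m, ∀ a ∈ A, flN D M a = m →
      (fl T D M a ∈ A ∧ fl T D M a ∈ M) ∨
        ∃ u ∈ A, ∃ v, v ∉ A ∧ D u v ∧ fl T D M a = fl T D M v := by
    intro m
    induction m with
    | zero =>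
      intro a ha h0
      rw [fl_zero h0]
      exact Or.inl ⟨ha, hM0 a h0⟩
    | succ m ih =>
      intro a ha h0
      have h2 := flS_spec hD hreach (x := a) (by omega)
      rw [fl_succ hD hreach (by omega)]
      by_cases h3 : flS T D M a ∈ A
      · exact ih _ h3 (by omega)
      · exact Or.inr ⟨a, ha, flS T D M a, h3, h2.1, rfl⟩
  exact fun a ha => h1 _ a ha rfl

end Explicit

section Meas

variable [MeasurableSpace X] [StandardBorelSpace X] {Z : Type} [MeasurableSpace Z]
variable {E : Setoid X} {T : ℕ → X → X} {D : Z → X → X → Prop}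

omit [StandardBorelSpace X] in
theorem meas_relP {P : Z → X → X → Prop} (hP : MeasurableSet {q : Z × (X × X) | P q.1 q.2.1 q.2.2})
    {Y : Type} [MeasurableSpace Y] {f : Y → Z} {g h : Y → X} (hf : Measurable f)
    (hg : Measurable g) (hh : Measurable h) : MeasurableSet {y | P (f y) (g y) (h y)} :=
  (hf.prodMk (hg.prodMk hh)) hP

theorem meas_WkP (hT : ∀ n, Measurable (T n)) (hET : ∀ x y, E.r x y ↔ ∃ n, T n x = y)
    (hDm : MeasurableSet {q : Z × (X × X) | D q.1 q.2.1 q.2.2})
    (hDE : ∀ z x y, D z x y → E.r x y) (n : ℕ) :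
    MeasurableSet {q : Z × (X × X) | Wk (D q.1) n q.2.1 q.2.2} := by
  have m1 : Measurable fun q : Z × (X × X) => q.1 := measurable_fst
  have m2 : Measurable fun q : Z × (X × X) => q.2.1 := measurable_fst.comp measurable_snd
  have m3 : Measurable fun q : Z × (X × X) => q.2.2 := measurable_snd.comp measurable_snd
  induction n with
  | zero => exact measurableSet_eq_fun m2 m3
  | succ n ih =>
    have h1 : {q : Z × (X × X) | Wk (D q.1) (n + 1) q.2.1 q.2.2} =
        {q : Z × (X × X) | ∃ j : ℕ, D q.1 q.2.1 (T j q.2.1) ∧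
          Wk (D q.1) n (T j q.2.1) q.2.2} := by
      ext q
      constructor
      · rintro ⟨w, h1, h2⟩
        obtain ⟨j, rfl⟩ := (hET _ _).1 (hDE _ _ _ h1)
        exact ⟨j, h1, h2⟩
      · rintro ⟨j, h1, h2⟩
        exact ⟨_, h1, h2⟩
    rw [h1]
    refine measurableSet_setOfPred.2 (Measurable.exists fun j => Measurable.and ?_ ?_)
    · exact measurableSet_setOfPred.1 (meas_relP hDm m1 m2 ((hT j).comp m2))
    · exact measurableSet_setOfPred.1 (meas_relP (P := fun z x y => Wk (D z) n x y) ih m1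
        ((hT j).comp m2) m3)

theorem meas_reachP (hT : ∀ n, Measurable (T n)) (hET : ∀ x y, E.r x y ↔ ∃ n, T n x = y)
    (hDm : MeasurableSet {q : Z × (X × X) | D q.1 q.2.1 q.2.2})
    (hDE : ∀ z x y, D z x y → E.r x y) :
    MeasurableSet {q : Z × (X × X) | ReflTransGen (D q.1) q.2.1 q.2.2} := by
  have h1 : {q : Z × (X × X) | ReflTransGen (D q.1) q.2.1 q.2.2} =
      ⋃ n : ℕ, {q : Z × (X × X) | Wk (D q.1) n q.2.1 q.2.2} := by
    ext q
    simp only [Set.mem_iUnion, Set.mem_ofPred_eq]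
    exact ⟨exists_Wk, fun ⟨n, hn⟩ => reach_of_Wk hn⟩
  rw [h1]
  exact MeasurableSet.iUnion fun n => meas_WkP hT hET hDm hDE n

theorem meas_infiniteP (hT : ∀ n, Measurable (T n)) (hET : ∀ x y, E.r x y ↔ ∃ n, T n x = y)
    {R : Z → X → X → Prop} (hRm : MeasurableSet {q : Z × (X × X) | R q.1 q.2.1 q.2.2})
    (hRE : ∀ z x y, R z x y → E.r x y) :
    MeasurableSet {q : Z × X | {y | R q.1 q.2 y}.Infinite} := by
  have h1 : {q : Z × X | {y | R q.1 q.2 y}.Infinite} =
      {q : Z × X | ∀ N : ℕ, ∃ j : ℕ, R q.1 q.2 (T j q.2) ∧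
        ∀ i : ℕ, i ≤ N → T j q.2 ≠ T i q.2} := by
    ext q
    constructor
    · intro h N
      obtain ⟨y, hy, hnot⟩ := h.exists_notMem_finite ((Set.finite_Iic N).image fun i => T i q.2)
      obtain ⟨j, rfl⟩ := (hET _ _).1 (hRE _ _ _ hy)
      exact ⟨j, hy, fun i hi h2 => hnot ⟨i, hi, h2.symm⟩⟩
    · intro h hfin
      have h2 : ∀ y, ∃ n : ℕ, R q.1 q.2 y → T n q.2 = y := by
        intro y
        by_cases hy : R q.1 q.2 y
        · obtain ⟨n, hn⟩ := (hET _ _).1 (hRE _ _ _ hy)
          exact ⟨n, fun _ => hn⟩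
        · exact ⟨0, fun h => absurd h hy⟩
      choose ix hix using h2
      obtain ⟨N, hN⟩ := (hfin.image ix).bddAbove
      obtain ⟨j, hj, h3⟩ := h N
      exact h3 (ix (T j q.2)) (hN ⟨_, hj, rfl⟩) (hix _ hj).symm
  rw [h1]
  refine measurableSet_setOfPred.2 (Measurable.forall fun N => Measurable.exists fun j => ?_)
  refine Measurable.and ?_ (Measurable.forall fun i => measurable_const.imp ?_)
  · exact measurableSet_setOfPred.1 (meas_relP hRm measurable_fst measurable_snd
      ((hT j).comp measurable_snd))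
  · exact measurableSet_setOfPred.1 (measurableSet_eq_fun ((hT j).comp measurable_snd)
      ((hT i).comp measurable_snd)).compl

theorem meas_flP (hT : ∀ n, Measurable (T n)) (hET : ∀ x y, E.r x y ↔ ∃ n, T n x = y)
    (hDm : MeasurableSet {q : Z × (X × X) | D q.1 q.2.1 q.2.2})
    (hDE : ∀ z x y, D z x y → E.r x y) {M : Z → Set X}
    (hM : MeasurableSet {q : Z × X | q.2 ∈ M q.1})
    (hreach : ∀ z x, ∃ y ∈ M z, ReflTransGen (D z) x y) :
    Measurable fun q : Z × X => fl T (D q.1) (M q.1) q.2 := by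
  classical
  have hex : ∀ q : Z × X, ∃ n, ∃ y ∈ M q.1, Wk (D q.1) n q.2 y := fun q =>
    fl_ex (hreach q.1) q.2
  have hQ : ∀ n, MeasurableSet {q : Z × X | ∃ y ∈ M q.1, Wk (D q.1) n q.2 y} := by
    intro n
    have h1 : {q : Z × X | ∃ y ∈ M q.1, Wk (D q.1) n q.2 y} =
        {q : Z × X | ∃ j : ℕ, T j q.2 ∈ M q.1 ∧ Wk (D q.1) n q.2 (T j q.2)} := by
      ext q
      constructor
      · rintro ⟨y, hy, h⟩
        obtain ⟨j, rfl⟩ := (hET _ _).1 (reach_sub (hDE q.1) (reach_of_Wk h))
        exact ⟨j, hy, h⟩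
      · rintro ⟨j, hj, h⟩
        exact ⟨_, hj, h⟩
    rw [h1]
    refine measurableSet_setOfPred.2 (Measurable.exists fun j => Measurable.and ?_ ?_)
    · exact measurableSet_setOfPred.1
        ((measurable_fst.prodMk ((hT j).comp measurable_snd) :
          Measurable fun q : Z × X => (q.1, T j q.2)) hM)
    · exact measurableSet_setOfPred.1 (meas_relP (P := fun z x y => Wk (D z) n x y)
        (meas_WkP hT hET hDm hDE n) measurable_fst measurable_snd ((hT j).comp measurable_snd))
  have hN : Measurable fun q : Z × X => flN (D q.1) (M q.1) q.2 := by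
    have h1 : (fun q : Z × X => flN (D q.1) (M q.1) q.2) = fun q => Nat.find (hex q) :=
      funext fun q => Nat.sInf_def _
    rw [h1]
    exact measurable_find hex hQ
  have hTN : ∀ j, Measurable fun q : Z × X => flN (D q.1) (M q.1) (T j q.2) := fun j =>
    hN.comp (measurable_fst.prodMk ((hT j).comp measurable_snd) :
      Measurable fun q : Z × X => (q.1, T j q.2))
  have hnext : ∀ q : Z × X, ∃ j, flN (D q.1) (M q.1) q.2 = 0 ∨ (D q.1 q.2 (T j q.2) ∧
      flN (D q.1) (M q.1) (T j q.2) + 1 = flN (D q.1) (M q.1) q.2) := fun q =>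
    fl_next (fun x y h => (hET x y).1 (hDE q.1 x y h)) (hreach q.1) q.2
  have hQ' : ∀ j, MeasurableSet {q : Z × X | flN (D q.1) (M q.1) q.2 = 0 ∨
      (D q.1 q.2 (T j q.2) ∧ flN (D q.1) (M q.1) (T j q.2) + 1 = flN (D q.1) (M q.1) q.2)} := by
    intro j
    refine measurableSet_setOfPred.2 (Measurable.or ?_ (Measurable.and ?_ ?_))
    · exact measurableSet_setOfPred.1 (measurableSet_eq_fun hN measurable_const)
    · exact measurableSet_setOfPred.1 (meas_relP hDm measurable_fst measurable_snd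
        ((hT j).comp measurable_snd))
    · exact measurableSet_setOfPred.1 (measurableSet_eq_fun ((hTN j).add measurable_const) hN)
  have hJ : Measurable fun q : Z × X => flJ T (D q.1) (M q.1) q.2 := by
    have h1 : (fun q : Z × X => flJ T (D q.1) (M q.1) q.2) = fun q => Nat.find (hnext q) := by
      funext q
      refine le_antisymm (Nat.sInf_le (Nat.find_spec (hnext q))) (Nat.find_min' (hnext q) ?_)
      exact Nat.sInf_mem (s := {j | flN (D q.1) (M q.1) q.2 = 0 ∨ (D q.1 q.2 (T j q.2) ∧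
        flN (D q.1) (M q.1) (T j q.2) + 1 = flN (D q.1) (M q.1) q.2)}) (hnext q)
    rw [h1]
    exact measurable_find hnext hQ'
  have hS : Measurable fun q : Z × X => flS T (D q.1) (M q.1) q.2 :=
    Measurable.ite (measurableSet_eq_fun hN measurable_const) measurable_snd
      (meas_diag' (f := fun j (q : Z × X) => T j q.2) (fun j => (hT j).comp measurable_snd) hJ)
  have hiter : ∀ m, Measurable fun q : Z × X => (flS T (D q.1) (M q.1))^[m] q.2 := by
    intro m
    induction m with
    | zero => exact measurable_snd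
    | succ m ih =>
      have h1 : (fun q : Z × X => (flS T (D q.1) (M q.1))^[m + 1] q.2) =
          fun q : Z × X => (flS T (D q.1) (M q.1))^[m] (flS T (D q.1) (M q.1) q.2) := by
        funext q
        rw [Function.iterate_succ_apply]
      rw [h1]
      exact ih.comp (measurable_fst.prodMk hS :
        Measurable fun q : Z × X => (q.1, flS T (D q.1) (M q.1) q.2))
  exact meas_diag' (f := fun m (q : Z × X) => (flS T (D q.1) (M q.1))^[m] q.2) hiter hN

theorem meas_MkP {c : X → ℕ} {φ : X → ℝ} (hT : ∀ n, Measurable (T n))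
    (hET : ∀ x y, E.r x y ↔ ∃ n, T n x = y)
    (hDm : MeasurableSet {q : Z × (X × X) | D q.1 q.2.1 q.2.2})
    (hDE : ∀ z x y, D z x y → E.r x y) (hc : Measurable c) (hφ : Measurable φ) :
    MeasurableSet {q : Z × X | q.2 ∈ Mk (D q.1) c φ} := by
  have hR := meas_reachP hT hET hDm hDE
  have hRec : ∀ t, MeasurableSet {q : Z × X | Rec (D q.1) c t q.2} := by
    intro t
    refine meas_infiniteP hT hET (R := fun z x y => ReflTransGen (D z) x y ∧ c y = t) ?_
      fun z x y h => reach_sub (hDE z) h.1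
    exact hR.inter (measurableSet_eq_fun (hc.comp (measurable_snd.comp measurable_snd))
      measurable_const)
  have hinf : MeasurableSet {q : Z × X | (Rch (D q.1) q.2).Infinite} :=
    meas_infiniteP hT hET (R := fun z x y => ReflTransGen (D z) x y) hR
      fun z x y h => reach_sub (hDE z) h
  have hall : ∀ {Q : Z → X → X → Prop}, MeasurableSet {q : Z × (X × X) | Q q.1 q.2.1 q.2.2} →
      MeasurableSet {q : Z × X | ∀ z, ReflTransGen (D q.1) q.2 z → Q q.1 q.2 z} := by
    intro Q hQ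
    have h1 : {q : Z × X | ∀ z, ReflTransGen (D q.1) q.2 z → Q q.1 q.2 z} =
        {q : Z × X | ∀ j : ℕ, ReflTransGen (D q.1) q.2 (T j q.2) → Q q.1 q.2 (T j q.2)} := by
      ext q
      constructor
      · exact fun h j => h _
      · intro h z hz
        obtain ⟨j, rfl⟩ := (hET _ _).1 (reach_sub (hDE q.1) hz)
        exact h j hz
    rw [h1]
    refine measurableSet_setOfPred.2 (Measurable.forall fun j => Measurable.imp ?_ ?_)
    · exact measurableSet_setOfPred.1 (meas_relP (P := fun z x y => ReflTransGen (D z) x y) hR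
        measurable_fst measurable_snd ((hT j).comp measurable_snd))
    · exact measurableSet_setOfPred.1 (meas_relP hQ measurable_fst measurable_snd
        ((hT j).comp measurable_snd))
  have h0 : {q : Z × X | q.2 ∈ Mk (D q.1) c φ} = {q : Z × X |
      (Rec (D q.1) c (c q.2) q.2 ∧ ∀ t, Rec (D q.1) c t q.2 → c q.2 ≤ t) ∨
      (¬ (Rch (D q.1) q.2).Infinite ∧ (∀ z, ReflTransGen (D q.1) q.2 z →
        ReflTransGen (D q.1) z q.2) ∧ ∀ z, ReflTransGen (D q.1) q.2 z → φ q.2 ≤ φ z)} := rfl
  rw [h0]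
  refine measurableSet_setOfPred.2 (Measurable.or (Measurable.and ?_ ?_)
    (Measurable.and ?_ (Measurable.and ?_ ?_)))
  · have h1 := meas_mem (s := fun q : Z × X => c q.2) (hc.comp measurable_snd)
      (A := fun q => {t | Rec (D q.1) c t q.2}) hRec
    exact h1
  · refine Measurable.forall fun t => Measurable.imp ?_ ?_
    · exact measurableSet_setOfPred.1 (hRec t)
    · exact measurableSet_setOfPred.1 (measurableSet_le (hc.comp measurable_snd) measurable_const)
  · exact (measurableSet_setOfPred.1 hinf).not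
  · refine measurableSet_setOfPred.1 (hall (Q := fun z y w => ReflTransGen (D z) w y) ?_)
    exact meas_relP (P := fun z x y => ReflTransGen (D z) x y) hR measurable_fst
      (measurable_snd.comp measurable_snd) (measurable_fst.comp measurable_snd)
  · refine measurableSet_setOfPred.1 (hall (Q := fun _ y z => φ y ≤ φ z) ?_)
    exact measurableSet_le (hφ.comp (measurable_fst.comp measurable_snd))
      (hφ.comp (measurable_snd.comp measurable_snd))

/-- limits of bounded index from Borel functions with values in the classes of a larger relation -/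
theorem boundedIndexLimit_of_funP {E E' : Setoid X} (hE' : IsCBER E') {𝓕 : Filter ℕ}
    (h𝓕 : IterFrechet 𝓕) {p : ℕ → X → X} (hpm : ∀ i, Measurable (p i))
    (hpE : ∀ i x, E'.r x (p i x))
    (hlim : ∀ x, ∃ s : ℕ, ∀ a : Fin (s + 1) → X, (∀ k, E.r x (a k)) →
      ∀ᶠ i in 𝓕, ∃ j k, j ≠ k ∧ p i (a j) = p i (a k)) : BoundedIndexLimit E := by
  classical
  obtain ⟨T, hT, hET⟩ := id hE'
  let P : ℕ → Setoid X := fun m => ⟨fun x y => x = y ∨ (p m.unpair.1 x = p m.unpair.1 y ∧
      (∃ j ≤ m.unpair.2, T j (p m.unpair.1 x) = x) ∧ ∃ j ≤ m.unpair.2, T j (p m.unpair.1 y) = y),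
    fun x => Or.inl rfl, by
      rintro x y (h | ⟨h1, h2, h3⟩)
      · exact Or.inl h.symm
      · exact Or.inr ⟨h1.symm, h3, h2⟩, by
      rintro x y z (h | ⟨h1, h2, h3⟩) (h' | ⟨h1', h2', h3'⟩)
      · exact Or.inl (h.trans h')
      · subst h
        exact Or.inr ⟨h1', h2', h3'⟩
      · subst h'
        exact Or.inr ⟨h1, h2, h3⟩
      · exact Or.inr ⟨h1.trans h1', h2, h3'⟩⟩
  refine ⟨Filter.bind 𝓕 fun i => Filter.map (Nat.pair i) atTop, iter_bind h𝓕 iter_map_pair, P,
    fun m => ?_, fun m x => ?_, fun x => ?_⟩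
  · have h1 : MeasurableSet {x : X | ∃ j ≤ m.unpair.2, T j (p m.unpair.1 x) = x} := by
      refine measurableSet_setOfPred.2 ?_
      refine Measurable.exists fun j => Measurable.and measurable_const ?_
      exact measurableSet_setOfPred.1 (measurableSet_eq_fun ((hT j).comp (hpm _)) measurable_id)
    have h2 : {q : X × X | (P m).r q.1 q.2} = {q : X × X | q.1 = q.2} ∪
        ({q : X × X | p m.unpair.1 q.1 = p m.unpair.1 q.2} ∩
          ((Prod.fst ⁻¹' {x : X | ∃ j ≤ m.unpair.2, T j (p m.unpair.1 x) = x}) ∩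
            (Prod.snd ⁻¹' {x : X | ∃ j ≤ m.unpair.2, T j (p m.unpair.1 x) = x}))) := by
      ext q
      exact Iff.rfl
    rw [h2]
    refine (measurableSet_eq_fun measurable_fst measurable_snd).union ?_
    refine MeasurableSet.inter ?_ ((measurable_fst h1).inter (measurable_snd h1))
    exact measurableSet_eq_fun ((hpm _).comp measurable_fst) ((hpm _).comp measurable_snd)
  · have h1 : ({x} ∪ (fun j => T j (p m.unpair.1 x)) '' Set.Iic m.unpair.2).Finite :=
      (Set.finite_singleton x).union ((Set.finite_Iic _).image _)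
    refine h1.subset ?_
    rintro y (h | ⟨h1, -, ⟨j, hj, h4⟩⟩)
    · exact Or.inl h.symm
    · refine Or.inr ⟨j, hj, ?_⟩
      show T j (p m.unpair.1 x) = y
      rw [h1]
      exact h4
  · obtain ⟨s, hs⟩ := hlim x
    refine ⟨s, fun a ha => ?_⟩
    rw [Filter.eventually_iff, Filter.mem_bind']
    refine (hs a ha).mono fun i hi => ?_
    obtain ⟨j, k, hjk, h3⟩ := hi
    have h4 : ∀ k, ∃ m, T m (p i (a k)) = a k := fun k => (hET _ _).1 (E'.symm' (hpE i (a k)))
    obtain ⟨m, hm⟩ := h4 j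
    obtain ⟨m', hm'⟩ := h4 k
    show _ ∈ Filter.map (Nat.pair i) atTop
    rw [Filter.mem_map]
    refine Filter.mem_of_superset (Filter.Ici_mem_atTop (m + m')) fun r hr => ?_
    have hr' : m + m' ≤ r := hr
    refine ⟨j, k, hjk, Or.inr ⟨?_, ⟨m, ?_, ?_⟩, ⟨m', ?_, ?_⟩⟩⟩
    all_goals simp only [Nat.unpair_pair]
    · exact h3
    · omega
    · exact hm
    · omega
    · exact hm'

/-- **Narrow families of digraphs.** `E` is contained in `E'`; along an iterated Fréchet filter
there are Borel digraphs `D i x` on the class of `x` for `E'`, which depend on the class of `x` for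
`E` only, and are narrow on finite sets which contain given finite subsets of the class of `x` for
`E`. Then `E` is a limit of bounded index. -/
theorem boundedIndexLimit_of_narrowP {E E' : Setoid X} (hE' : IsCBER E') {𝓕 : Filter ℕ}
    (h𝓕 : IterFrechet 𝓕) {D : ℕ → X → X → X → Prop}
    (hDm : ∀ i, MeasurableSet {q : X × (X × X) | D i q.1 q.2.1 q.2.2})
    (hDE : ∀ i x u v, D i x u v → E'.r u v) (hDinv : ∀ i x y, E.r x y → D i x = D i y)
    (hnar : ∀ x, ∃ s : ℕ, ∀ A0 : Finset X, (∀ a ∈ A0, E.r x a) →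
      ∃ A : Finset X, A0 ⊆ A ∧ ∀ᶠ i in 𝓕, NarrowOn (D i x) A s) : BoundedIndexLimit E := by
  classical
  obtain ⟨T, hT, hET⟩ := id hE'
  obtain ⟨φ, hφ⟩ := MeasureTheory.exists_measurableEmbedding_real X
  obtain ⟨c, N, hcm, hcN, hcs⟩ := exists_bits X
  have hre : ∀ i k x u, ∃ y ∈ Mk (D i x) (c k) φ, ReflTransGen (D i x) u y := fun i k x u =>
    Mk_reach (φ := φ) (hcN k) u
  let p : ℕ → ℕ → X → X := fun i k x => fl T (D i x) (Mk (D i x) (c k) φ) x
  have hpm : ∀ i k, Measurable (p i k) := fun i k =>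
    (meas_flP hT hET (hDm i) (hDE i) (M := fun x => Mk (D i x) (c k) φ)
      (meas_MkP hT hET (hDm i) (hDE i) (hcm k) hφ.measurable) (hre i k)).comp
      (measurable_id.prodMk measurable_id)
  have hDj : ∀ i x u v, D i x u v → ∃ j, T j u = v := fun i x u v h => (hET _ _).1 (hDE i x u v h)
  have hpE : ∀ i k x, E'.r x (p i k x) := fun i k x =>
    reach_sub (hDE i x) (fl_reach (hDj i x) (hre i k x) x)
  refine boundedIndexLimit_of_funP hE' (iter_bind h𝓕 iter_map_pair)
    (p := fun m => p m.unpair.1 m.unpair.2) (fun m => hpm _ _) (fun m x => hpE _ _ _) fun x => ?_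
  obtain ⟨s, hs⟩ := hnar x
  refine ⟨4 * s, fun a ha => ?_⟩
  obtain ⟨A, hA0, hev⟩ := hs (Finset.univ.image a) (by
    intro u hu
    obtain ⟨j, -, rfl⟩ := Finset.mem_image.1 hu
    exact ha j)
  have haA : ∀ j, a j ∈ A := fun j => hA0 (Finset.mem_image_of_mem a (Finset.mem_univ j))
  have h2 : ∀ᶠ k in atTop, ∀ u ∈ A, ∀ v ∈ A, c k u = c k v → u = v := by
    rw [Filter.eventually_all_finset]
    intro u _
    rw [Filter.eventually_all_finset]
    intro v _
    by_cases huv : u = v
    · exact Eventually.of_forall fun _ _ => huv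
    · exact (hcs u v huv).mono fun k hk h => absurd h hk
  rw [Filter.eventually_iff, Filter.mem_bind']
  refine hev.mono fun i hi => ?_
  show _ ∈ Filter.map (Nat.pair i) atTop
  rw [Filter.mem_map]
  refine h2.mono fun k hk => ?_
  show ∃ j j', j ≠ j' ∧ p (Nat.pair i k).unpair.1 (Nat.pair i k).unpair.2 (a j) =
    p (Nat.pair i k).unpair.1 (Nat.pair i k).unpair.2 (a j')
  simp only [Nat.unpair_pair]
  obtain ⟨⟨F, hF, hAF⟩, hU⟩ := hi
  obtain ⟨V, hV, hVM⟩ := card_markers_narrow (φ := φ) (hcN k) hφ.injective A F hF hAF hk hU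
  have hpa : ∀ j, p i k (a j) = fl T (D i x) (Mk (D i x) (c k) φ) (a j) := by
    intro j
    show fl T (D i (a j)) (Mk (D i (a j)) (c k) φ) (a j) = _
    rw [← hDinv i x (a j) (ha j)]
  have h3 : ∀ j, p i k (a j) ∈ V ∪ F.image (fl T (D i x) (Mk (D i x) (c k) φ)) := by
    intro j
    rw [hpa j]
    rcases fl_split (hDj i x) (hre i k x) (A : Set X) (a j) (haA j) with
      ⟨h4, h5⟩ | ⟨u, hu, v, hv, h4, h5⟩
    · exact Finset.mem_union_left _ (hVM _ h4 h5)
    · refine Finset.mem_union_right _ ?_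
      rw [h5]
      exact Finset.mem_image_of_mem _ (hAF v hv ⟨u, hu, h4⟩)
  have h4 : (V ∪ F.image (fl T (D i x) (Mk (D i x) (c k) φ))).card ≤ 4 * s := by
    have h5 := Finset.card_union_le V (F.image (fl T (D i x) (Mk (D i x) (c k) φ)))
    have h6 := Finset.card_image_le (s := F) (f := fl T (D i x) (Mk (D i x) (c k) φ))
    omega
  have hlt : Fintype.card (V ∪ F.image (fl T (D i x) (Mk (D i x) (c k) φ)) : Finset X) <
      Fintype.card (Fin (4 * s + 1)) := by
    rw [Fintype.card_coe, Fintype.card_fin]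
    omega
  obtain ⟨j, j', hjj, h9⟩ := Fintype.exists_ne_map_eq_of_card_lt
    (fun k' : Fin (4 * s + 1) => (⟨p i k (a k'), h3 k'⟩ :
      (V ∪ F.image (fl T (D i x) (Mk (D i x) (c k) φ)) : Finset X))) hlt
  exact ⟨j, j', hjj, congrArg Subtype.val h9⟩

end Meas

end Pool.Agent.MP_750e50_lc
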