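import Pool.Agent.MP_750e50_lc.Flow

/-!
# Sides of the edges of a forest and the digraph of heavy directions
-/

set_option autoImplicit false

open Filter Relation MeasureTheory

namespace Pool.Agent.MP_750e50_lc

variable {X : Type}

theorem rtg_mono {r p : X → X → Prop} (h : ∀ a b, r a b → p a b) {a b : X}
    (hab : ReflTransGen r a b) : ReflTransGen p a b := by
  induction hab with
  | refl => exact ReflTransGen.refl
  | tail _ h2 ih => exact ih.tail (h _ _ h2)

theorem rtg_symm {r : X → X → Prop} (h : ∀ a b, r a b → r b a) {a b : X}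
    (hab : ReflTransGen r a b) : ReflTransGen r b a := by
  induction hab with
  | refl => exact ReflTransGen.refl
  | tail _ h2 ih => exact ReflTransGen.head (h _ _ h2) ih

section Graph

variable {G : SimpleGraph X}

/-- connected without the edge `{x, y}` -/
def Cn (G : SimpleGraph X) (x y : X) (a b : X) : Prop :=
  ReflTransGen (fun a b => G.Adj a b ∧ s(a, b) ≠ s(x, y)) a b

theorem Cn.symm {x y a b : X} (h : Cn G x y a b) : Cn G x y b a := by
  refine rtg_symm (fun u v huv => ⟨huv.1.symm, ?_⟩) h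
  rw [Sym2.eq_swap]
  exact huv.2

theorem Cn.trans {x y a b d : X} (h : Cn G x y a b) (h' : Cn G x y b d) : Cn G x y a d :=
  ReflTransGen.trans h h'

theorem Cn.swap {x y a b : X} (h : Cn G x y a b) : Cn G y x a b := by
  refine rtg_mono (fun u v huv => ⟨huv.1, ?_⟩) h
  rw [Sym2.eq_swap (a := y)]
  exact huv.2

theorem not_Cn (hG : G.IsAcyclic) {u v : X} (h : G.Adj u v) : ¬ Cn G u v u v := by
  have h1 := SimpleGraph.isAcyclic_iff_forall_adj_isBridge.1 hG h
  rw [SimpleGraph.isBridge_iff, SimpleGraph.reachable_iff_reflTransGen] at h1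
  intro h2
  apply h1
  refine rtg_mono (fun a b hab => ?_) h2
  rw [SimpleGraph.deleteEdges_adj]
  exact ⟨hab.1, hab.2⟩

theorem Cn_cover {u v z : X} (hz : G.Reachable u z) :
    Cn G u v v z ∨ Cn G u v u z := by
  rw [SimpleGraph.reachable_iff_reflTransGen] at hz
  induction hz with
  | refl => exact Or.inr ReflTransGen.refl
  | @tail z z' _ h1 ih =>
    by_cases he : s(z, z') = s(u, v)
    · rcases Sym2.eq_iff.1 he with ⟨-, h2⟩ | ⟨-, h2⟩
      · rw [h2]
        exact Or.inl ReflTransGen.refl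
      · rw [h2]
        exact Or.inr ReflTransGen.refl
    · exact ih.imp (fun h => ReflTransGen.tail h ⟨h1, he⟩) fun h => ReflTransGen.tail h ⟨h1, he⟩

theorem Cn_disj {u v z : X} (hG : G.IsAcyclic) (h : G.Adj u v) :
    ¬ (Cn G u v v z ∧ Cn G u v u z) := fun h1 => not_Cn hG h (h1.2.trans h1.1.symm)

/-- the far sides of two edges which point away from each other are disjoint -/
theorem Cn_disj2 {u v u' v' z : X} (hG : G.IsAcyclic) (h : G.Adj u v) (h' : G.Adj u' v')
    (hne : s(u, v) ≠ s(u', v')) (h1 : Cn G u v u u') (h2 : Cn G u' v' u u') :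
    ¬ (Cn G u v v z ∧ Cn G u' v' v' z) := by
  rintro ⟨h3, h4⟩
  have h5 : Cn G u' v' v z ∨ Cn G u v v u' := by
    have h6 : ∀ w, Cn G u v v w → Cn G u' v' v w ∨ Cn G u v v u' := by
      intro w hw
      induction hw with
      | refl => exact Or.inl ReflTransGen.refl
      | @tail w w' h7 h8 ih =>
        rcases ih with h9 | h9
        · by_cases he : s(w, w') = s(u', v')
          · right
            rcases Sym2.eq_iff.1 he with ⟨h10, -⟩ | ⟨-, h10⟩
            · rw [← h10]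
              exact h7
            · rw [← h10]
              exact ReflTransGen.tail h7 h8
          · exact Or.inl (ReflTransGen.tail h9 ⟨h8.1, he⟩)
        · exact Or.inr h9
    exact h6 z h3
  rcases h5 with h5 | h5
  · -- `v` is connected with `u'` without `u'v'`
    have h6 : Cn G u' v' v u := ReflTransGen.single ⟨h.symm, by
      rw [Sym2.eq_swap]
      exact hne⟩
    exact not_Cn hG h' (((h6.trans h2).symm.trans h5).trans h4.symm)
  · exact not_Cn hG h (h1.trans h5.symm)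

/-- a configuration of two edges pointing from a connected set to two disjoint closed sets -/
theorem exists_between {A K K' : Set X} (hdis : ∀ x ∈ K, x ∉ K') {y y' : X} (hy : y ∈ K)
    (hy' : y' ∈ K') (hw : ReflTransGen (fun a b => G.Adj a b ∧ a ∈ A ∧ b ∈ A) y y') :
    ∃ x ∈ K, ∃ x' ∈ K', x ∈ A ∧ x' ∈ A ∧ (G.Adj x x' ∨ ∃ x1 x1', G.Adj x x1 ∧ G.Adj x' x1' ∧
      x1 ∉ K ∧ x1 ∉ K' ∧ x1' ∉ K ∧ x1' ∉ K' ∧
      ReflTransGen (fun a b => G.Adj a b ∧ a ∉ K ∧ a ∉ K' ∧ b ∉ K ∧ b ∉ K') x1 x1') := by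
  by_contra hcon
  have h1 : ∀ w, ReflTransGen (fun a b => G.Adj a b ∧ a ∈ A ∧ b ∈ A) y w →
      w ∈ K ∨ (w ∉ K ∧ w ∉ K' ∧ ∃ x ∈ K, ∃ x1, x ∈ A ∧ G.Adj x x1 ∧ x1 ∉ K ∧ x1 ∉ K' ∧
        ReflTransGen (fun a b => G.Adj a b ∧ a ∉ K ∧ a ∉ K' ∧ b ∉ K ∧ b ∉ K') x1 w) := by
    intro w hw
    induction hw with
    | refl => exact Or.inl hy
    | @tail w w' _ h2 ih =>
      by_cases h3 : w' ∈ K
      · exact Or.inl h3
      · rcases ih with h4 | ⟨h4, h4', x, hx, x1, hxA, h5, h6, h7, h8⟩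
        · by_cases h5 : w' ∈ K'
          · exact absurd ⟨w, h4, w', h5, h2.2.1, h2.2.2, Or.inl h2.1⟩ hcon
          · exact Or.inr ⟨h3, h5, w, h4, w', h2.2.1, h2.1, h3, h5, ReflTransGen.refl⟩
        · by_cases h9 : w' ∈ K'
          · exact absurd ⟨x, hx, w', h9, hxA, h2.2.2, Or.inr ⟨x1, w, h5, h2.1.symm, h6, h7, h4,
              h4', h8⟩⟩ hcon
          · exact Or.inr ⟨h3, h9, x, hx, x1, hxA, h5, h6, h7,
              h8.tail ⟨h2.1, h4, h4', h3, h9⟩⟩
  rcases h1 y' hw with h2 | ⟨-, h2, -⟩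
  · exact hdis y' h2 hy'
  · exact h2 hy'

end Graph

section Mass

variable [MeasurableSpace X] {G : SimpleGraph X}

/-- the side of `y` -/
def Side (G : SimpleGraph X) (x y : X) : Set X := {z | Cn G x y y z}

/-- the heavy directions -/
def Dir (G : SimpleGraph X) (ν : X → Measure X) (x y : X) : Prop :=
  G.Adj x y ∧ 2 / 5 < (ν x).real (Side G x y)

theorem add_three_le {μ : Measure X} [IsProbabilityMeasure μ] {S1 S2 S3 : Set X}
    (m2 : MeasurableSet S2) (m3 : MeasurableSet S3)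
    (h12 : Disjoint S1 S2) (h13 : Disjoint S1 S3) (h23 : Disjoint S2 S3) :
    μ.real S1 + μ.real S2 + μ.real S3 ≤ 1 := by
  rw [← measureReal_union h12 m2, ← measureReal_union (Set.disjoint_union_left.2 ⟨h13, h23⟩) m3]
  exact measureReal_le_one

theorem add_two_le {μ : Measure X} [IsProbabilityMeasure μ] {S1 S2 : Set X}
    (m2 : MeasurableSet S2) (h12 : Disjoint S1 S2) : μ.real S1 + μ.real S2 ≤ 1 := by
  rw [← measureReal_union h12 m2]
  exact measureReal_le_one

variable {ν : X → Measure X} {μ : Measure X} [IsProbabilityMeasure μ] {A : Finset X}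

/-- **At most two heavy arcs leave a connected set on which the measures are close.** -/
theorem exists_heads (hG : G.IsAcyclic) (hS : ∀ x y, MeasurableSet (Side G x y))
    (hconn : ∀ a ∈ A, ∀ b ∈ A, ReflTransGen (fun a b => G.Adj a b ∧ a ∈ A ∧ b ∈ A) a b)
    (hclose : ∀ a ∈ A, ∀ S, MeasurableSet S → |(ν a).real S - μ.real S| < 1 / 100) :
    ∃ F : Finset X, F.card ≤ 2 ∧ ∀ v, v ∉ A → (∃ u ∈ A, Dir G ν u v) → v ∈ F := by
  classical
  have hheavy : ∀ u ∈ A, ∀ v, Dir G ν u v → 1 / 3 < μ.real (Side G u v) := by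
    intro u hu v huv
    have h1 := abs_lt.1 (hclose u hu _ (hS u v))
    have h2 := huv.2
    linarith [h1.2]
  have hdisj : ∀ u ∈ A, ∀ u' ∈ A, ∀ v, v ∉ A → ∀ v', v' ∉ A → v ≠ v' → G.Adj u v → G.Adj u' v' →
      Disjoint (Side G u v) (Side G u' v') := by
    intro u hu u' hu' v hv v' hv' hne h h'
    rw [Set.disjoint_left]
    intro z hz hz'
    have hmono : ∀ w w', w ∉ A → Cn G w' w u u' := by
      intro w w' hw
      refine rtg_mono (fun a b hab => ⟨hab.1, fun he => ?_⟩) (hconn u hu u' hu')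
      rcases Sym2.eq_iff.1 he with ⟨-, h2⟩ | ⟨h2, -⟩
      · exact hw (h2 ▸ hab.2.2)
      · exact hw (h2 ▸ hab.2.1)
    refine Cn_disj2 hG h h' (fun he => ?_) (hmono v u hv) (hmono v' u' hv') ⟨hz, hz'⟩
    rcases Sym2.eq_iff.1 he with ⟨-, h2⟩ | ⟨h2, -⟩
    · exact hne h2
    · exact hv' (h2 ▸ hu)
  -- the heads
  have h3 : ∀ v1 v2 v3, v1 ∉ A → v2 ∉ A → v3 ∉ A → (∃ u ∈ A, Dir G ν u v1) →
      (∃ u ∈ A, Dir G ν u v2) → (∃ u ∈ A, Dir G ν u v3) → v1 ≠ v2 → v1 ≠ v3 → v2 ≠ v3 → False := by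
    rintro v1 v2 v3 n1 n2 n3 ⟨u1, a1, d1⟩ ⟨u2, a2, d2⟩ ⟨u3, a3, d3⟩ h12 h13 h23
    have h4 := add_three_le (μ := μ) (hS u2 v2) (hS u3 v3)
      (hdisj u1 a1 u2 a2 v1 n1 v2 n2 h12 d1.1 d2.1) (hdisj u1 a1 u3 a3 v1 n1 v3 n3 h13 d1.1 d3.1)
      (hdisj u2 a2 u3 a3 v2 n2 v3 n3 h23 d2.1 d3.1)
    have h5 := hheavy u1 a1 v1 d1
    have h6 := hheavy u2 a2 v2 d2
    have h7 := hheavy u3 a3 v3 d3
    linarith
  by_cases h0 : ∃ v1, v1 ∉ A ∧ ∃ u ∈ A, Dir G ν u v1
  · obtain ⟨v1, n1, e1⟩ := h0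
    by_cases h1 : ∃ v2, v2 ∉ A ∧ (∃ u ∈ A, Dir G ν u v2) ∧ v1 ≠ v2
    · obtain ⟨v2, n2, e2, h12⟩ := h1
      refine ⟨{v1, v2}, Finset.card_le_two, fun v hv he => ?_⟩
      by_contra hnot
      rw [Finset.mem_insert, Finset.mem_singleton, not_or] at hnot
      exact h3 v1 v2 v n1 n2 hv e1 e2 he h12 (Ne.symm hnot.1) (Ne.symm hnot.2)
    · push Not at h1
      refine ⟨{v1}, by simp, fun v hv he => ?_⟩
      exact Finset.mem_singleton.2 (h1 v hv he).symm
  · push Not at h0
    refine ⟨∅, by simp, fun v hv he => ?_⟩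
    obtain ⟨u, hu, h⟩ := he
    exact absurd h (h0 v hv u hu)

/-- **Two points of the connected set reach a common point.** -/
theorem closed_meet (hG : G.IsAcyclic) (hS : ∀ x y, MeasurableSet (Side G x y)) {a0 : X}
    (hμ : μ {z | ¬ G.Reachable a0 z} = 0)
    (hconn : ∀ a ∈ A, ∀ b ∈ A, ReflTransGen (fun a b => G.Adj a b ∧ a ∈ A ∧ b ∈ A) a b)
    (hA0 : ∀ a ∈ A, G.Reachable a a0)
    (hclose : ∀ a ∈ A, ∀ S, MeasurableSet S → |(ν a).real S - μ.real S| < 1 / 100)
    {y y' : X} (hy : y ∈ A) (hy' : y' ∈ A) :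
    (Rch (Dir G ν) y ∩ Rch (Dir G ν) y').Nonempty := by
  classical
  by_contra hcon
  rw [Set.not_nonempty_iff_eq_empty] at hcon
  have hdis : ∀ x ∈ Rch (Dir G ν) y, x ∉ Rch (Dir G ν) y' := by
    intro x hx hx'
    have h1 : x ∈ (Rch (Dir G ν) y ∩ Rch (Dir G ν) y') := ⟨hx, hx'⟩
    rw [hcon] at h1
    exact h1
  -- the mass on the other side of an edge which is not an arc
  have hother : ∀ x ∈ A, ∀ x1, G.Adj x x1 → ¬ Dir G ν x x1 → 1 / 2 < μ.real (Side G x1 x) := by
    intro x hx x1 hadj hnot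
    have h1 : (ν x).real (Side G x x1) ≤ 2 / 5 := by
      by_contra h
      exact hnot ⟨hadj, not_le.1 h⟩
    have h2 := abs_lt.1 (hclose x hx _ (hS x x1))
    have h3 : 1 ≤ μ.real (Side G x x1) + μ.real (Side G x1 x) := by
      have h4 : μ.real (Side G x x1 ∪ Side G x1 x ∪ {z | ¬ G.Reachable a0 z}) = 1 := by
        have h5 : Side G x x1 ∪ Side G x1 x ∪ {z | ¬ G.Reachable a0 z} = Set.univ := by
          ext z
          simp only [Set.mem_univ, iff_true]
          by_cases hz : G.Reachable a0 z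
          · left
            rcases Cn_cover (G := G) (v := x1) ((hA0 x hx).trans hz) with h6 | h6
            · exact Or.inl h6
            · exact Or.inr h6.swap
          · exact Or.inr hz
        rw [h5]
        exact probReal_univ
      have h5 := measureReal_union_le (μ := μ) (Side G x x1 ∪ Side G x1 x)
        {z | ¬ G.Reachable a0 z}
      have h6 := measureReal_union_le (μ := μ) (Side G x x1) (Side G x1 x)
      have h7 : μ.real {z | ¬ G.Reachable a0 z} = 0 := by
        rw [Measure.real, hμ, ENNReal.toReal_zero]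
      linarith
    linarith [h2.1]
  obtain ⟨x, hx, x', hx', hxA, hxA', hcase⟩ := exists_between hdis (y := y) (y' := y')
    ReflTransGen.refl ReflTransGen.refl (hconn y hy y' hy')
  have hna : ∀ x1, x1 ∉ Rch (Dir G ν) y → ¬ Dir G ν x x1 := fun x1 h1 h2 =>
    h1 (ReflTransGen.tail hx h2)
  have hna' : ∀ x1, x1 ∉ Rch (Dir G ν) y' → ¬ Dir G ν x' x1 := fun x1 h1 h2 =>
    h1 (ReflTransGen.tail hx' h2)
  rcases hcase with hadj | ⟨x1, x1', hadj, hadj', n1, n1', n2, n2', hw⟩
  · have h1 := hother x hxA x' hadj (hna x' fun h => hdis x' h hx')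
    have h2 := hother x' hxA' x hadj.symm (hna' x (hdis x hx))
    have h3 : Disjoint (Side G x' x) (Side G x x') := by
      rw [Set.disjoint_left]
      intro z hz hz'
      exact Cn_disj hG hadj ⟨hz', Cn.swap hz⟩
    have h4 := add_two_le (μ := μ) (hS x x') h3
    linarith
  · have h1 := hother x hxA x1 hadj (hna x1 n1)
    have h2 := hother x' hxA' x1' hadj' (hna' x1' n2')
    have hmono : ∀ w w', w ∈ Rch (Dir G ν) y ∨ w ∈ Rch (Dir G ν) y' → Cn G w' w x1 x1' := by
      intro w w' hw'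
      refine rtg_mono (fun a b hab => ⟨hab.1, fun he => ?_⟩) hw
      rcases Sym2.eq_iff.1 he with ⟨-, h2⟩ | ⟨h2, -⟩
      · rw [h2] at hab
        rcases hw' with h3 | h3
        · exact hab.2.2.2.1 h3
        · exact hab.2.2.2.2 h3
      · rw [h2] at hab
        rcases hw' with h3 | h3
        · exact hab.2.1 h3
        · exact hab.2.2.1 h3
    have h3 : Disjoint (Side G x1 x) (Side G x1' x') := by
      rw [Set.disjoint_left]
      intro z hz hz'
      refine Cn_disj2 hG hadj.symm hadj'.symm (fun he => ?_) (hmono x x1 (Or.inl hx))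
        (hmono x' x1' (Or.inr hx')) ⟨hz, hz'⟩
      rcases Sym2.eq_iff.1 he with ⟨-, h4⟩ | ⟨-, h4⟩
      · rw [h4] at hx
        exact hdis x' hx hx'
      · rw [h4] at hx
        exact n2 hx
    have h4 := add_two_le (μ := μ) (hS x1' x') h3
    linarith

end Mass

end Pool.Agent.MP_750e50_lc
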