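import Pool.Agent.MP_750e50_lc.Narrow

/-!
# Hyperbolic graphings: amenability gives narrow digraphs
-/

set_option autoImplicit false

open Filter Relation MeasureTheory ProbabilityTheory

namespace Pool.Agent.MP_750e50_lc

variable {X : Type}

section Metric

variable {G : SimpleGraph X}

theorem Wk_iff_walk {n : ℕ} {x y : X} : Wk G.Adj n x y ↔ ∃ p : G.Walk x y, p.length = n := by
  induction n generalizing x with
  | zero =>
    constructor
    · intro h
      have h1 : x = y := h
      subst h1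
      exact ⟨SimpleGraph.Walk.nil, rfl⟩
    · rintro ⟨p, hp⟩
      exact SimpleGraph.Walk.eq_of_length_eq_zero hp
  | succ n ih =>
    constructor
    · rintro ⟨w, h1, h2⟩
      obtain ⟨p, hp⟩ := ih.1 h2
      exact ⟨SimpleGraph.Walk.cons h1 p, by simp [hp]⟩
    · rintro ⟨p, hp⟩
      cases p with
      | nil => simp at hp
      | cons h q =>
        refine ⟨_, h, ih.2 ⟨q, ?_⟩⟩
        simpa using hp

theorem dist_le_of_Wk {n : ℕ} {x y : X} (h : Wk G.Adj n x y) : G.dist x y ≤ n := by
  obtain ⟨p, rfl⟩ := Wk_iff_walk.1 h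
  exact SimpleGraph.dist_le p

theorem Wk_dist {x y : X} (h : G.Reachable x y) : Wk G.Adj (G.dist x y) x y :=
  Wk_iff_walk.2 h.exists_walk_length_eq_dist

theorem Wk_add {D : X → X → Prop} {a b : ℕ} {x y : X} :
    Wk D (a + b) x y ↔ ∃ w, Wk D a x w ∧ Wk D b w y := by
  induction a generalizing x with
  | zero =>
    rw [Nat.zero_add]
    constructor
    · exact fun h => ⟨x, rfl, h⟩
    · rintro ⟨w, h1, h2⟩
      have h3 : x = w := h1
      rw [h3]
      exact h2
  | succ a ih =>
    rw [show a + 1 + b = (a + b) + 1 by omega]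
    constructor
    · rintro ⟨w, h1, h2⟩
      obtain ⟨w', h3, h4⟩ := ih.1 h2
      exact ⟨w', ⟨w, h1, h3⟩, h4⟩
    · rintro ⟨w', ⟨w, h1, h3⟩, h4⟩
      exact ⟨w, h1, ih.2 ⟨w', h3, h4⟩⟩

theorem reachable_of_Wk {n : ℕ} {x y : X} (h : Wk G.Adj n x y) : G.Reachable x y := by
  obtain ⟨p, -⟩ := Wk_iff_walk.1 h
  exact ⟨p⟩

theorem dist_tri {x y z : X} (h : G.Reachable x y) (h' : G.Reachable y z) :
    G.dist x z ≤ G.dist x y + G.dist y z :=
  dist_le_of_Wk (Wk_add.2 ⟨y, Wk_dist h, Wk_dist h'⟩)

theorem dist_geod {x y : X} (h : G.Reachable x y) {t : ℕ} (ht : t ≤ G.dist x y) :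
    ∃ w, G.Reachable x w ∧ G.dist x w = t ∧ G.dist w y = G.dist x y - t := by
  have h1 : Wk G.Adj (t + (G.dist x y - t)) x y := by
    rw [Nat.add_sub_cancel' ht]
    exact Wk_dist h
  obtain ⟨w, h2, h3⟩ := Wk_add.1 h1
  have h4 := dist_le_of_Wk h2
  have h5 := dist_le_of_Wk h3
  have h6 := dist_tri (reachable_of_Wk h2) (reachable_of_Wk h3)
  exact ⟨w, reachable_of_Wk h2, by omega, by omega⟩

/-- the bound for the size of the balls -/
def bb (d : ℕ) : ℕ → ℕ
  | 0 => 1
  | n + 1 => 1 + d * bb d n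

theorem exists_ball {d : ℕ} {x : X} (hd : ∀ y, G.Reachable x y →
      ∃ F : Finset X, F.card ≤ d ∧ ∀ z, G.Adj y z → z ∈ F) (n : ℕ) :
    ∀ y, G.Reachable x y → ∃ B : Finset X, B.card ≤ bb d n ∧
      ∀ z, G.Reachable y z → G.dist y z ≤ n → z ∈ B := by
  classical
  have h0 : ∀ n, ∀ y, G.Reachable x y → ∃ B : Finset X, B.card ≤ bb d n ∧
      ∀ m, m ≤ n → ∀ z, Wk G.Adj m y z → z ∈ B := by
    intro n
    induction n with
    | zero =>
      intro y hy
      refine ⟨{y}, by simp [bb], fun m hm z hz => ?_⟩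
      obtain rfl : m = 0 := by omega
      have h1 : y = z := hz
      rw [h1]
      exact Finset.mem_singleton_self _
    | succ n ih =>
      intro y hy
      obtain ⟨F, hF, hFa⟩ := hd y hy
      have h1 : ∀ w, ∃ B : Finset X, G.Adj y w → B.card ≤ bb d n ∧
          ∀ m, m ≤ n → ∀ z, Wk G.Adj m w z → z ∈ B := by
        intro w
        by_cases hw : G.Adj y w
        · obtain ⟨B, hB⟩ := ih w (hy.trans hw.reachable)
          exact ⟨B, fun _ => hB⟩
        · exact ⟨∅, fun h => absurd h hw⟩
      choose B hB using h1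
      refine ⟨insert y ((F.filter fun w => G.Adj y w).biUnion B), ?_, fun m hm z hz => ?_⟩
      · refine (Finset.card_insert_le _ _).trans ?_
        have h2 : ((F.filter fun w => G.Adj y w).biUnion B).card ≤
            (F.filter fun w => G.Adj y w).card * bb d n :=
          Finset.card_biUnion_le_card_mul _ _ _ fun w hw => (hB w (Finset.mem_filter.1 hw).2).1
        have h3 : (F.filter fun w => G.Adj y w).card ≤ d := (Finset.card_filter_le _ _).trans hF
        have h4 := Nat.mul_le_mul_right (bb d n) h3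
        show _ ≤ 1 + d * bb d n
        omega
      · cases m with
        | zero =>
          have h2 : y = z := hz
          rw [← h2]
          exact Finset.mem_insert_self _ _
        | succ m =>
          obtain ⟨w, h2, h3⟩ := hz
          refine Finset.mem_insert_of_mem (Finset.mem_biUnion.2 ⟨w, ?_, ?_⟩)
          · exact Finset.mem_filter.2 ⟨hFa w h2, h2⟩
          · exact (hB w h2).2 m (by omega) z h3
  intro y hy
  obtain ⟨B, hB, hBm⟩ := h0 n y hy
  exact ⟨B, hB, fun z hz hn => hBm _ hn z (Wk_dist hz)⟩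

end Metric

section Coarse

variable {G : SimpleGraph X}

/-- Gromov's four point condition on the component of `o` -/
def FourPt (G : SimpleGraph X) (δ : ℕ) (o : X) : Prop :=
  ∀ x y z w, G.Reachable o x → G.Reachable o y → G.Reachable o z → G.Reachable o w →
    G.dist x y + G.dist z w ≤ max (G.dist x z + G.dist y w) (G.dist x w + G.dist y z) + δ

/-- the step -/
def LL (δ : ℕ) : ℕ := 2 * δ + 1

/-- the points in the direction of `y` seen from `x` -/
def SideH (G : SimpleGraph X) (δ : ℕ) (x y : X) : Set X :=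
  {z | G.Reachable x z ∧ G.dist y z + LL δ ≤ G.dist x z + δ}

/-- the heavy directions -/
def DirH [MeasurableSpace X] (G : SimpleGraph X) (δ : ℕ) (ν : X → Measure X) (x y : X) : Prop :=
  G.Reachable x y ∧ G.dist x y = LL δ ∧ 2 / 5 < (ν x).real (SideH G δ x y)

/-- heads of arcs which leave a ball and share a point are close -/
theorem heads_close {δ : ℕ} {o u v u' v' z : X} (h4 : FourPt G δ o) {R : ℕ} (hu : G.Reachable o u)
    (hv : G.Reachable o v) (hu' : G.Reachable o u') (hv' : G.Reachable o v')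
    (huR : G.dist o u ≤ R) (hvR : R < G.dist o v) (huR' : G.dist o u' ≤ R)
    (hvR' : R < G.dist o v') (hd : G.dist u v = LL δ) (hd' : G.dist u' v' = LL δ)
    (hz : z ∈ SideH G δ u v) (hz' : z ∈ SideH G δ u' v') : G.dist v v' ≤ LL δ + 3 * δ := by
  have hoz : G.Reachable o z := hu.trans hz.1
  have key : ∀ u v, G.Reachable o u → G.Reachable o v → G.dist o u ≤ R → R < G.dist o v →
      G.dist u v = LL δ → z ∈ SideH G δ u v →
      G.dist o v + G.dist v z ≤ G.dist o z + 2 * δ ∧ G.dist o v ≤ R + LL δ := by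
    intro u v hu hv h1 h2 h3 h5
    have h6 := h4 o v u z SimpleGraph.Reachable.rfl hv hu hoz
    have h7 := dist_tri hu (hu.symm.trans hv)
    have h8 := h5.2
    rw [SimpleGraph.dist_comm (u := v) (v := u)] at h6
    unfold LL at *
    omega
  obtain ⟨a1, a2⟩ := key u v hu hv huR hvR hd hz
  obtain ⟨b1, b2⟩ := key u' v' hu' hv' huR' hvR' hd' hz'
  have h6 := h4 v v' o z hv hv' SimpleGraph.Reachable.rfl hoz
  rw [SimpleGraph.dist_comm (u := v) (v := o), SimpleGraph.dist_comm (u := v') (v := o)] at h6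
  omega

/-- the points which are not seen from `q` in the direction of `o` are seen from afar in the
direction of `q` -/
theorem seen_far {δ : ℕ} {o q w p0 p p' z : X} (h4 : FourPt G δ o) (hq : G.Reachable o q)
    (hw : G.Reachable o w) (hp0 : G.Reachable o p0) (hp : G.Reachable o p) (hp' : G.Reachable o p')
    (hz : G.Reachable o z) (hr : LL δ ≤ G.dist o q) (hqw : G.dist q w = LL δ)
    (hwo : G.dist w o = G.dist o q - LL δ) (hz1 : z ∉ SideH G δ q w)
    (hr0 : G.dist o p0 ≤ G.dist o q) (hgeo : G.dist p0 p + G.dist p q = G.dist p0 q)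
    (hfar : 2 * LL δ + 3 * δ ≤ G.dist p q) (hpp : G.dist p p' = LL δ)
    (hpq : G.dist p' q = G.dist p q - LL δ) : z ∈ SideH G δ p p' := by
  have hLL : LL δ = 2 * δ + 1 := rfl
  have hqz : G.Reachable q z := hq.symm.trans hz
  have h1 : ¬ (G.dist w z + LL δ ≤ G.dist q z + δ) := fun h => hz1 ⟨hqz, h⟩
  -- four point conditions
  have e1 := h4 w z q o hw hz hq SimpleGraph.Reachable.rfl
  have e2 := h4 o p p0 q SimpleGraph.Reachable.rfl hp hp0 hq
  have e3 := h4 p q o z hp hq SimpleGraph.Reachable.rfl hz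
  have e4 := h4 p' z p q hp' hz hp hq
  rw [SimpleGraph.dist_comm (u := w) (v := q), SimpleGraph.dist_comm (u := z) (v := o), SimpleGraph.dist_comm (u := z) (v := q), SimpleGraph.dist_comm (u := q) (v := o)] at e1
  rw [SimpleGraph.dist_comm (u := p) (v := p0)] at e2
  rw [SimpleGraph.dist_comm (u := p) (v := o), SimpleGraph.dist_comm (u := q) (v := o)] at e3
  rw [SimpleGraph.dist_comm (u := p') (v := p), SimpleGraph.dist_comm (u := z) (v := p), SimpleGraph.dist_comm (u := z) (v := q)] at e4
  refine ⟨hp.symm.trans hz, ?_⟩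
  omega

end Coarse

end Pool.Agent.MP_750e50_lc
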