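import Pool.Agent.MP_750e50_lc.HypNarrow
import Pool.Agent.MP_750e50_lc.FlowP

/-!
# Hyperbolic Fréchet-amenable equivalence relations are limits of bounded index
-/

set_option autoImplicit false

open Filter Relation MeasureTheory ProbabilityTheory

namespace Pool.Agent.MP_750e50_lc

variable {X : Type} [MeasurableSpace X]

/-- `E` has a hyperbolic graphing of bounded degree: its classes are the connected components of a
Borel graph, and each of these components is Gromov hyperbolic and has bounded degree (both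
constants may depend on the component). -/
def HyperbolicGraphing (E : Setoid X) : Prop :=
  ∃ G : SimpleGraph X, MeasurableSet {p : X × X | G.Adj p.1 p.2} ∧
    (∀ x y, E.r x y ↔ G.Reachable x y) ∧ ∀ x, ∃ δ d : ℕ, FourPt G δ x ∧
      ∀ y, G.Reachable x y → ∃ F : Finset X, F.card ≤ d ∧ ∀ z, G.Adj y z → z ∈ F

variable [StandardBorelSpace X]

section Meas

variable {G : SimpleGraph X} {E : Setoid X} {T : ℕ → X → X}

theorem meas_reachable (hT : ∀ n, Measurable (T n)) (hET : ∀ x y, E.r x y ↔ ∃ n, T n x = y)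
    (hGE : ∀ x y, E.r x y ↔ G.Reachable x y) : MeasurableSet {p : X × X | G.Reachable p.1 p.2} := by
  have h1 : {p : X × X | G.Reachable p.1 p.2} = {p : X × X | E.r p.1 p.2} := by
    ext p
    exact (hGE _ _).symm
  rw [h1]
  exact meas_E hT hET

theorem meas_dist (hT : ∀ n, Measurable (T n)) (hET : ∀ x y, E.r x y ↔ ∃ n, T n x = y)
    (hGm : MeasurableSet {p : X × X | G.Adj p.1 p.2}) (hGE : ∀ x y, E.r x y ↔ G.Reachable x y) :
    Measurable fun p : X × X => G.dist p.1 p.2 := by
  have hadj : ∀ x y, G.Adj x y → E.r x y := fun x y h => (hGE x y).2 h.reachable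
  refine measurable_of_Iic fun n => ?_
  have h1 : (fun p : X × X => G.dist p.1 p.2) ⁻¹' Set.Iic n =
      {p : X × X | G.Reachable p.1 p.2}ᶜ ∪ ⋃ m ∈ Set.Iic n, {p : X × X | Wk G.Adj m p.1 p.2} := by
    ext p
    simp only [Set.mem_preimage, Set.mem_Iic, Set.mem_union, Set.mem_compl_iff, Set.mem_ofPred_eq,
      Set.mem_iUnion, exists_prop]
    constructor
    · intro h
      by_cases hr : G.Reachable p.1 p.2
      · exact Or.inr ⟨_, h, Wk_dist hr⟩
      · exact Or.inl hr
    · rintro (h | ⟨m, hm, h⟩)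
      · rw [SimpleGraph.dist_eq_zero_of_not_reachable h]
        exact Nat.zero_le _
      · exact (dist_le_of_Wk h).trans hm
  rw [h1]
  refine (meas_reachable hT hET hGE).compl.union ?_
  exact MeasurableSet.biUnion (Set.to_countable _) fun m _ => meas_Wk hT hET hGm hadj m

theorem meas_FourPt (hT : ∀ n, Measurable (T n)) (hET : ∀ x y, E.r x y ↔ ∃ n, T n x = y)
    (hGm : MeasurableSet {p : X × X | G.Adj p.1 p.2}) (hGE : ∀ x y, E.r x y ↔ G.Reachable x y)
    (δ : ℕ) : MeasurableSet {x : X | FourPt G δ x} := by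
  have hdist := meas_dist hT hET hGm hGE
  have h1 : {x : X | FourPt G δ x} = {x : X | ∀ i j k l : ℕ,
      G.dist (T i x) (T j x) + G.dist (T k x) (T l x) ≤
        max (G.dist (T i x) (T k x) + G.dist (T j x) (T l x))
          (G.dist (T i x) (T l x) + G.dist (T j x) (T k x)) + δ} := by
    ext x
    constructor
    · intro h i j k l
      have h2 : ∀ i, G.Reachable x (T i x) := fun i => (hGE _ _).1 ((hET _ _).2 ⟨i, rfl⟩)
      exact h _ _ _ _ (h2 i) (h2 j) (h2 k) (h2 l)
    · intro h y1 y2 y3 y4 r1 r2 r3 r4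
      obtain ⟨i, rfl⟩ := (hET _ _).1 ((hGE _ _).2 r1)
      obtain ⟨j, rfl⟩ := (hET _ _).1 ((hGE _ _).2 r2)
      obtain ⟨k, rfl⟩ := (hET _ _).1 ((hGE _ _).2 r3)
      obtain ⟨l, rfl⟩ := (hET _ _).1 ((hGE _ _).2 r4)
      exact h i j k l
  rw [h1]
  have hd : ∀ i j, Measurable fun x => G.dist (T i x) (T j x) := fun i j =>
    hdist.comp ((hT i).prodMk (hT j))
  refine measurableSet_setOfPred.2 (Measurable.forall fun i => Measurable.forall fun j =>
    Measurable.forall fun k => Measurable.forall fun l => ?_)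
  refine measurableSet_setOfPred.1 (measurableSet_le ((hd i j).add (hd k l)) ?_)
  exact (((hd i k).add (hd j l)).max ((hd i l).add (hd j k))).add measurable_const

theorem meas_SideH (hT : ∀ n, Measurable (T n)) (hET : ∀ x y, E.r x y ↔ ∃ n, T n x = y)
    (hGm : MeasurableSet {p : X × X | G.Adj p.1 p.2}) (hGE : ∀ x y, E.r x y ↔ G.Reachable x y)
    {δ : X → ℕ} (hδ : Measurable δ) :
    MeasurableSet {q : (X × X) × X | q.2 ∈ SideH G (δ q.1.1) q.1.1 q.1.2} := by
  have hdist := meas_dist hT hET hGm hGE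
  have m1 : Measurable fun q : (X × X) × X => q.1.1 := measurable_fst.comp measurable_fst
  have m2 : Measurable fun q : (X × X) × X => q.1.2 := measurable_snd.comp measurable_fst
  have m3 : Measurable fun q : (X × X) × X => q.2 := measurable_snd
  have h1 : MeasurableSet {q : (X × X) × X | G.Reachable q.1.1 q.2} :=
    meas_rel (meas_reachable hT hET hGE) m1 m3
  have h2 : MeasurableSet {q : (X × X) × X | G.dist q.1.2 q.2 + LL (δ q.1.1) ≤
      G.dist q.1.1 q.2 + δ q.1.1} := by
    refine measurableSet_le ?_ ?_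
    · exact (hdist.comp (m2.prodMk m3)).add
        ((Measurable.of_discrete (f := LL)).comp (hδ.comp m1))
    · exact (hdist.comp (m1.prodMk m3)).add (hδ.comp m1)
  exact h1.inter h2

theorem meas_DirH (hT : ∀ n, Measurable (T n)) (hET : ∀ x y, E.r x y ↔ ∃ n, T n x = y)
    (hGm : MeasurableSet {p : X × X | G.Adj p.1 p.2}) (hGE : ∀ x y, E.r x y ↔ G.Reachable x y)
    {δ : X → ℕ} (hδ : Measurable δ) (κ : Kernel X X) [IsMarkovKernel κ] {r : X → X → X}
    (hr : Measurable fun p : X × X => r p.1 p.2) :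
    MeasurableSet {q : X × (X × X) |
      DirH G (δ q.1) (fun w => κ (r q.1 w)) q.2.1 q.2.2} := by
  have hdist := meas_dist hT hET hGm hGE
  have m1 : Measurable fun q : X × (X × X) => q.1 := measurable_fst
  have m2 : Measurable fun q : X × (X × X) => q.2.1 := measurable_fst.comp measurable_snd
  have m3 : Measurable fun q : X × (X × X) => q.2.2 := measurable_snd.comp measurable_snd
  have hS : MeasurableSet {q : (X × (X × X)) × X |
      q.2 ∈ SideH G (δ q.1.1) q.1.2.1 q.1.2.2} := by
    have n1 : Measurable fun q : (X × (X × X)) × X => q.1.1 := m1.comp measurable_fst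
    have n2 : Measurable fun q : (X × (X × X)) × X => q.1.2.1 := m2.comp measurable_fst
    have n3 : Measurable fun q : (X × (X × X)) × X => q.1.2.2 := m3.comp measurable_fst
    have n4 : Measurable fun q : (X × (X × X)) × X => q.2 := measurable_snd
    have h1 : MeasurableSet {q : (X × (X × X)) × X | G.Reachable q.1.2.1 q.2} :=
      meas_rel (meas_reachable hT hET hGE) n2 n4
    have h2 : MeasurableSet {q : (X × (X × X)) × X | G.dist q.1.2.2 q.2 + LL (δ q.1.1) ≤
        G.dist q.1.2.1 q.2 + δ q.1.1} := by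
      refine measurableSet_le ?_ ?_
      · exact (hdist.comp (n3.prodMk n4)).add
          ((Measurable.of_discrete (f := LL)).comp (hδ.comp n1))
      · exact (hdist.comp (n2.prodMk n4)).add (hδ.comp n1)
    exact h1.inter h2
  have hrm : Measurable fun q : X × (X × X) => r q.1 q.2.1 := hr.comp (m1.prodMk m2)
  have h1 : Measurable fun q : X × (X × X) => (κ.comap (fun q : X × (X × X) => r q.1 q.2.1) hrm) q
      (Prod.mk q ⁻¹' {q : (X × (X × X)) × X | q.2 ∈ SideH G (δ q.1.1) q.1.2.1 q.1.2.2}) :=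
    Kernel.measurable_kernel_prodMk_left hS
  have h2 : Measurable fun q : X × (X × X) => (κ (r q.1 q.2.1)).real
      (SideH G (δ q.1) q.2.1 q.2.2) := h1.ennreal_toReal
  have h3 : MeasurableSet {q : X × (X × X) | G.dist q.2.1 q.2.2 = LL (δ q.1)} :=
    measurableSet_eq_fun (hdist.comp (m2.prodMk m3))
      ((Measurable.of_discrete (f := LL)).comp (hδ.comp m1))
  have h4 : MeasurableSet {q : X × (X × X) | G.Reachable q.2.1 q.2.2} :=
    meas_rel (meas_reachable hT hET hGE) m2 m3
  exact h4.inter (h3.inter (measurableSet_lt measurable_const h2))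

end Meas

omit [MeasurableSpace X] [StandardBorelSpace X] in
/-- narrowness only depends on the arcs which start in the component -/
theorem NarrowOn.congr {D D' : X → X → Prop} {A : Finset X} {s : ℕ} (h : NarrowOn D A s)
    {C : Set X} (hC : ∀ u ∈ C, ∀ v, D u v → v ∈ C) (hAC : ∀ a ∈ A, a ∈ C)
    (hDD : ∀ u ∈ C, ∀ v, D' u v ↔ D u v) : NarrowOn D' A s := by
  have hRR : ∀ y ∈ C, Rch D' y = Rch D y := by
    intro y hy
    ext z
    constructor
    · intro hz
      have h3 : ReflTransGen D' y z := hz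
      have h4 : z ∈ C ∧ ReflTransGen D y z := by
        clear hz
        induction h3 with
        | refl => exact ⟨hy, ReflTransGen.refl⟩
        | @tail a b _ h5 ih =>
          have h6 := (hDD a ih.1 b).1 h5
          exact ⟨hC a ih.1 b h6, ih.2.tail h6⟩
      exact h4.2
    · intro hz
      have h3 : ReflTransGen D y z := hz
      have h4 : z ∈ C ∧ ReflTransGen D' y z := by
        clear hz
        induction h3 with
        | refl => exact ⟨hy, ReflTransGen.refl⟩
        | @tail a b _ h5 ih =>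
          exact ⟨hC a ih.1 b h5, ih.2.tail ((hDD a ih.1 b).2 h5)⟩
      exact h4.2
  obtain ⟨⟨F, hF, hFm⟩, hcl⟩ := h
  refine ⟨⟨F, hF, ?_⟩, fun B hBA hB hdis => hcl B hBA (fun y hy => ?_)
    fun y hy y' hy' hne => ?_⟩
  · rintro v hv ⟨u, hu, huv⟩
    exact hFm v hv ⟨u, hu, (hDD u (hAC u hu) v).1 huv⟩
  · rw [← hRR y (hAC y (hBA hy))]
    exact hB y hy
  · rw [← hRR y (hAC y (hBA hy)), ← hRR y' (hAC y' (hBA hy'))]
    exact hdis y hy y' hy' hne

/-- **Fréchet-amenable subrelations of equivalence relations with hyperbolic graphings of bounded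
degree are limits of bounded index.** -/
theorem boundedIndexLimit_of_hyperbolic_amenable {E E' : Setoid X} (hE : IsCBER E)
    (hE' : IsCBER E') (hsub : ∀ x y, E.r x y → E'.r x y) (hH : HyperbolicGraphing E')
    (hAm : FrechetAmenable E) : BoundedIndexLimit E := by
  classical
  obtain ⟨T0, hT0, hET0⟩ := id hE
  have hEm : MeasurableSet {p : X × X | E.r p.1 p.2} := meas_E hT0 hET0
  obtain ⟨T, hT, hET⟩ := id hE'
  obtain ⟨G, hGm, hGE, hhyp⟩ := hH
  obtain ⟨𝓕, h𝓕, κ, hκ, hκE, hconv⟩ := hAm
  -- the constants of hyperbolicity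
  have hex : ∀ x, ∃ δ, FourPt G δ x := fun x => by
    obtain ⟨δ, d, h, -⟩ := hhyp x
    exact ⟨δ, h⟩
  let δ : X → ℕ := fun x => Nat.find (hex x)
  have hδm : Measurable δ := measurable_find hex (meas_FourPt hT hET hGm hGE)
  have hδ4 : ∀ x, FourPt G (δ x) x := fun x => Nat.find_spec (hex x)
  have hmove : ∀ x y n, G.Reachable x y → FourPt G n x → FourPt G n y := by
    intro x y n hxy h a b c e ha hb hc he
    exact h a b c e (hxy.trans ha) (hxy.trans hb) (hxy.trans hc) (hxy.trans he)
  have hδeq : ∀ x y, G.Reachable x y → δ x = δ y := by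
    intro x y hxy
    exact le_antisymm (Nat.find_min' (hex x) (hmove y x _ hxy.symm (hδ4 y)))
      (Nat.find_min' (hex y) (hmove x y _ hxy (hδ4 x)))
  -- the retraction onto the class of `z`
  have hr0 : ∀ q : X × X, ∃ n, E.r q.1 (T n q.2) ∨ ∀ m, ¬ E.r q.1 (T m q.2) := by
    intro q
    by_cases h : ∃ n, E.r q.1 (T n q.2)
    · exact ⟨h.choose, Or.inl h.choose_spec⟩
    · push Not at h
      exact ⟨0, Or.inr h⟩
  have hEn : ∀ n, MeasurableSet {q : X × X | E.r q.1 (T n q.2)} := fun n =>
    meas_rel hEm measurable_fst ((hT n).comp measurable_snd)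
  let ρ : X × X → ℕ := fun q => Nat.find (hr0 q)
  have hρm : Measurable ρ := measurable_find hr0 fun n => by
    refine measurableSet_setOfPred.2 (Measurable.or ?_ (Measurable.forall fun m => ?_))
    · exact measurableSet_setOfPred.1 (hEn n)
    · exact (measurableSet_setOfPred.1 (hEn m)).not
  let r : X → X → X := fun z w => T (ρ (z, w)) w
  have hrm : Measurable fun q : X × X => r q.1 q.2 :=
    meas_diag' (f := fun m (q : X × X) => T m q.2) (fun m => (hT m).comp measurable_snd) hρm
  have hrE : ∀ z w, G.Reachable z w → E.r z (r z w) := by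
    intro z w hzw
    obtain ⟨n, hn⟩ := (hET w z).1 ((hGE w z).2 hzw.symm)
    rcases Nat.find_spec (hr0 (z, w)) with h | h
    · exact h
    · exact absurd (by
        show E.r z (T n w)
        rw [hn]) (h n)
  have hreq : ∀ z z', E.r z z' → r z = r z' := by
    intro z z' hzz
    funext w
    have h1 : ∀ n, E.r z (T n w) ↔ E.r z' (T n w) := fun n =>
      ⟨fun h => E.trans' (E.symm' hzz) h, fun h => E.trans' hzz h⟩
    have h2 : ρ (z, w) = ρ (z', w) := by
      refine le_antisymm (Nat.find_min' (hr0 (z, w)) ?_) (Nat.find_min' (hr0 (z', w)) ?_)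
      · rcases Nat.find_spec (hr0 (z', w)) with h | h
        · exact Or.inl ((h1 _).2 h)
        · exact Or.inr fun m hm => h m ((h1 m).1 hm)
      · rcases Nat.find_spec (hr0 (z, w)) with h | h
        · exact Or.inl ((h1 _).1 h)
        · exact Or.inr fun m hm => h m ((h1 m).2 hm)
    show T (ρ (z, w)) w = T (ρ (z', w)) w
    rw [h2]
  refine boundedIndexLimit_of_narrowP hE' h𝓕
    (D := fun i z u v => G.Reachable z u ∧ DirH G (δ z) (fun w => κ i (r z w)) u v)
    (fun i => ?_) (fun i z u v h => (hGE _ _).2 h.2.1) (fun i z z' hzz => ?_) fun o => ?_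
  · have := hκ i
    have h1 : MeasurableSet {q : X × (X × X) | G.Reachable q.1 q.2.1} :=
      meas_rel (meas_reachable hT hET hGE) measurable_fst (measurable_fst.comp measurable_snd)
    exact h1.inter (meas_DirH hT hET hGm hGE hδm (κ i) hrm)
  · have hz : G.Reachable z z' := (hGE _ _).1 (hsub _ _ hzz)
    funext u v
    rw [hδeq z z' hz, hreq z z' hzz]
    exact propext ⟨fun h => ⟨hz.symm.trans h.1, h.2⟩, fun h => ⟨hz.trans h.1, h.2⟩⟩
  obtain ⟨-, d, -, hd⟩ := hhyp o
  refine ⟨2 * bb d (LL (δ o) + 3 * δ o) + (bb d (LL (δ o)) + bb d (2 * LL (δ o) + 3 * δ o)),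
    fun A0 hA0 => ?_⟩
  obtain ⟨B, -, hB⟩ := exists_ball (G := G) (x := o) (d := d) hd
    (A0.sup fun a => G.dist o a) o SimpleGraph.Reachable.rfl
  let A : Finset X := B.filter fun u => G.Reachable o u ∧ G.dist o u ≤ A0.sup fun a => G.dist o a
  have hA : ∀ u, u ∈ A ↔ G.Reachable o u ∧ G.dist o u ≤ A0.sup fun a => G.dist o a := by
    intro u
    constructor
    · exact fun h => (Finset.mem_filter.1 h).2
    · exact fun h => Finset.mem_filter.2 ⟨hB u h.1 h.2, h⟩
  refine ⟨A, fun a ha => (hA a).2 ⟨(hGE _ _).1 (hsub _ _ (hA0 a ha)), ?_⟩, ?_⟩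
  · exact Finset.le_sup (f := fun a => G.dist o a) ha
  have h1 : ∀ᶠ i in 𝓕, ∀ u ∈ A, ∀ S : Set X, MeasurableSet S →
      |(κ i (r o u)).real S - (κ i o).real S| < 1 / 100 := by
    rw [Filter.eventually_all_finset]
    intro u hu
    exact hconv (r o u) o (E.symm' (hrE o u ((hA u).1 hu).1)) _ (by norm_num)
  refine h1.mono fun i hi => ?_
  have := hκ i
  have hμ : κ i o {z | ¬ G.Reachable o z} = 0 :=
    measure_mono_null (fun z hz h => hz ((hGE _ _).1 (hsub _ _ h))) (hκE i o)
  have hS : ∀ x y, MeasurableSet (SideH G (δ o) x y) := fun x y =>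
    (measurable_prodMk_left (x := (x, y)))
      (meas_SideH hT hET hGm hGE (δ := fun _ => δ o) measurable_const)
  have h2 := narrowH (μ := κ i o) (ν := fun w => κ i (r o w)) (A := A) (hδ4 o) hd hA hμ hS hi
  exact h2.congr (C := {u | G.Reachable o u}) (fun u hu v huv => hu.trans huv.1)
    (fun a ha => ((hA a).1 ha).1) fun u hu v => ⟨fun h => h.2, fun h => ⟨hu, h⟩⟩

end Pool.Agent.MP_750e50_lc
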