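import Pool.Agent.MP_750e50_lc.Hyp

/-!
# The digraph of heavy directions of a hyperbolic graph is narrow
-/

set_option autoImplicit false

open Filter Relation MeasureTheory ProbabilityTheory

namespace Pool.Agent.MP_750e50_lc

variable {X : Type} [MeasurableSpace X] {G : SimpleGraph X}
variable {ν : X → Measure X} {μ : Measure X} [IsProbabilityMeasure μ] {A : Finset X}

/-- **Few heavy arcs leave a ball on which the measures are close.** -/
theorem exists_headsH {δ d R : ℕ} {o : X} (h4 : FourPt G δ o)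
    (hd : ∀ y, G.Reachable o y → ∃ F : Finset X, F.card ≤ d ∧ ∀ z, G.Adj y z → z ∈ F)
    (hA : ∀ u, u ∈ A ↔ G.Reachable o u ∧ G.dist o u ≤ R)
    (hS : ∀ x y, MeasurableSet (SideH G δ x y))
    (hclose : ∀ a ∈ A, ∀ S, MeasurableSet S → |(ν a).real S - μ.real S| < 1 / 100) :
    ∃ F : Finset X, F.card ≤ 2 * bb d (LL δ + 3 * δ) ∧
      ∀ v, v ∉ A → (∃ u ∈ A, DirH G δ ν u v) → v ∈ F := by
  classical
  have hheavy : ∀ u ∈ A, ∀ v, DirH G δ ν u v → 1 / 3 < μ.real (SideH G δ u v) := by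
    intro u hu v huv
    have h1 := abs_lt.1 (hclose u hu _ (hS u v))
    have h2 := huv.2.2
    linarith [h1.2]
  have hreach : ∀ u ∈ A, ∀ v, DirH G δ ν u v → G.Reachable o v := fun u hu v huv =>
    ((hA u).1 hu).1.trans huv.1
  have hR : ∀ u ∈ A, ∀ v, v ∉ A → DirH G δ ν u v → R < G.dist o v := by
    intro u hu v hv huv
    by_contra h
    exact hv ((hA v).2 ⟨hreach u hu v huv, not_lt.1 h⟩)
  have hcl : ∀ u ∈ A, ∀ u' ∈ A, ∀ v v', v ∉ A → v' ∉ A → DirH G δ ν u v → DirH G δ ν u' v' →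
      ¬ Disjoint (SideH G δ u v) (SideH G δ u' v') → G.dist v v' ≤ LL δ + 3 * δ := by
    intro u hu u' hu' v v' hv hv' h h' hdis
    obtain ⟨z, hz, hz'⟩ := Set.not_disjoint_iff.1 hdis
    exact heads_close h4 ((hA u).1 hu).1 (hreach u hu v h) ((hA u').1 hu').1 (hreach u' hu' v' h')
      ((hA u).1 hu).2 (hR u hu v hv h) ((hA u').1 hu').2 (hR u' hu' v' hv' h') h.2.1 h'.2.1 hz hz'
  have hball := exists_ball (G := G) (x := o) (d := d) hd (LL δ + 3 * δ)
  by_cases h0 : ∃ v1, v1 ∉ A ∧ ∃ u ∈ A, DirH G δ ν u v1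
  · obtain ⟨v1, n1, u1, a1, d1⟩ := h0
    have r1 := hreach u1 a1 v1 d1
    obtain ⟨B1, hB1, hB1m⟩ := hball v1 r1
    by_cases h1 : ∃ v2, v2 ∉ A ∧ ∃ u ∈ A, DirH G δ ν u v2 ∧
        Disjoint (SideH G δ u1 v1) (SideH G δ u v2)
    · obtain ⟨v2, n2, u2, a2, d2, hdis⟩ := h1
      have r2 := hreach u2 a2 v2 d2
      obtain ⟨B2, hB2, hB2m⟩ := hball v2 r2
      refine ⟨B1 ∪ B2, (Finset.card_union_le _ _).trans (by omega), ?_⟩
      rintro v hv ⟨u, hu, huv⟩
      by_contra hnot
      rw [Finset.mem_union, not_or] at hnot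
      have rv := hreach u hu v huv
      have g1 : Disjoint (SideH G δ u1 v1) (SideH G δ u v) := by
        by_contra h
        exact hnot.1 (hB1m v (r1.symm.trans rv) (hcl u1 a1 u hu v1 v n1 hv d1 huv h))
      have g2 : Disjoint (SideH G δ u2 v2) (SideH G δ u v) := by
        by_contra h
        exact hnot.2 (hB2m v (r2.symm.trans rv) (hcl u2 a2 u hu v2 v n2 hv d2 huv h))
      have h5 := add_three_le (μ := μ) (hS u2 v2) (hS u v) hdis g1 g2
      linarith [hheavy u1 a1 v1 d1, hheavy u2 a2 v2 d2, hheavy u hu v huv]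
    · refine ⟨B1, by omega, ?_⟩
      rintro v hv ⟨u, hu, huv⟩
      have rv := hreach u hu v huv
      refine hB1m v (r1.symm.trans rv) (hcl u1 a1 u hu v1 v n1 hv d1 huv fun h => ?_)
      exact h1 ⟨v, hv, u, hu, huv, h⟩
  · refine ⟨∅, by simp, ?_⟩
    rintro v hv ⟨u, hu, huv⟩
    exact absurd ⟨v, hv, u, hu, huv⟩ h0

/-- the mass which is not on the side of a light direction -/
theorem mass_compl {δ : ℕ} {o q w : X} (hμ : μ {z | ¬ G.Reachable o z} = 0)
    (hqw : μ.real (SideH G δ q w) ≤ 41 / 100) {S : Set X}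
    (hsub : ∀ z, G.Reachable o z → z ∉ SideH G δ q w → z ∈ S) : 59 / 100 ≤ μ.real S := by
  have h4 : μ.real (SideH G δ q w ∪ S ∪ {z | ¬ G.Reachable o z}) = 1 := by
    have h5 : SideH G δ q w ∪ S ∪ {z | ¬ G.Reachable o z} = Set.univ := by
      ext z
      simp only [Set.mem_univ, iff_true]
      by_cases hz : G.Reachable o z
      · left
        by_cases h6 : z ∈ SideH G δ q w
        · exact Or.inl h6
        · exact Or.inr (hsub z hz h6)
      · exact Or.inr hz
    rw [h5]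
    exact probReal_univ
  have h5 := measureReal_union_le (μ := μ) (SideH G δ q w ∪ S) {z | ¬ G.Reachable o z}
  have h6 := measureReal_union_le (μ := μ) (SideH G δ q w) S
  have h7 : μ.real {z | ¬ G.Reachable o z} = 0 := by
    rw [Measure.real, hμ, ENNReal.toReal_zero]
  linarith

/-- **A ball contains few disjoint closed sets.** -/
theorem card_closedH {δ d R : ℕ} {o : X} (h4 : FourPt G δ o)
    (hd : ∀ y, G.Reachable o y → ∃ F : Finset X, F.card ≤ d ∧ ∀ z, G.Adj y z → z ∈ F)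
    (hA : ∀ u, u ∈ A ↔ G.Reachable o u ∧ G.dist o u ≤ R)
    (hμ : μ {z | ¬ G.Reachable o z} = 0)
    (hS : ∀ x y, MeasurableSet (SideH G δ x y))
    (hclose : ∀ a ∈ A, ∀ S, MeasurableSet S → |(ν a).real S - μ.real S| < 1 / 100)
    (B : Finset X) (hcl : ∀ y ∈ B, (Rch (DirH G δ ν) y : Set X) ⊆ A)
    (hdis : ∀ y ∈ B, ∀ y' ∈ B, y ≠ y' → Disjoint (Rch (DirH G δ ν) y) (Rch (DirH G δ ν) y')) :
    B.card ≤ bb d (LL δ) + bb d (2 * LL δ + 3 * δ) := by
  classical
  -- the closest points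
  have h1 : ∀ y, ∃ c, c ∈ Rch (DirH G δ ν) y ∧ ∀ z ∈ Rch (DirH G δ ν) y,
      G.dist o c ≤ G.dist o z := by
    intro y
    have hne : ∃ n, ∃ z ∈ Rch (DirH G δ ν) y, G.dist o z = n := ⟨_, y, ReflTransGen.refl, rfl⟩
    obtain ⟨c, hc, hcn⟩ := Nat.find_spec hne
    exact ⟨c, hc, fun z hz => by
      rw [hcn]
      exact Nat.find_min' hne ⟨z, hz, rfl⟩⟩
  choose c hc hcmin using h1
  have hcR : ∀ y ∈ B, G.Reachable o (c y) ∧ G.dist o (c y) ≤ R := fun y hy =>
    (hA _).1 (hcl y hy (hc y))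
  have hball := fun n => exists_ball (G := G) (x := o) (d := d) hd n
  -- an injection into a ball
  have hinj : ∀ (q : X) (r : ℕ), G.Reachable o q → (∀ y ∈ B, ∃ e ∈ Rch (DirH G δ ν) y,
      G.Reachable q e ∧ G.dist q e ≤ r) → B.card ≤ bb d r := by
    intro q r hq he
    obtain ⟨W, hW, hWm⟩ := hball r q hq
    have h2 : ∀ y, ∃ e, y ∈ B → e ∈ Rch (DirH G δ ν) y ∧ G.Reachable q e ∧ G.dist q e ≤ r := by
      intro y
      by_cases hy : y ∈ B
      · obtain ⟨e, h3⟩ := he y hy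
        exact ⟨e, fun _ => h3⟩
      · exact ⟨y, fun h => absurd h hy⟩
    choose e he' using h2
    refine (Finset.card_le_card_of_injOn e (fun y hy => ?_) fun y hy y' hy' h => ?_).trans hW
    · exact hWm _ (he' y hy).2.1 (he' y hy).2.2
    · by_contra hne
      refine Set.disjoint_left.1 (hdis y hy y' hy' hne) (he' y hy).1 ?_
      rw [h]
      exact (he' y' hy').1
  rcases B.eq_empty_or_nonempty with hB0 | hB0
  · rw [hB0, Finset.card_empty]
    exact Nat.zero_le _
  obtain ⟨ys, hys, hmax⟩ := Finset.exists_max_image B (fun y => G.dist o (c y)) hB0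
  rcases Nat.lt_or_ge (G.dist o (c ys)) (LL δ) with hr | hr
  · have h2 := hinj o (LL δ) SimpleGraph.Reachable.rfl fun y hy => ⟨c y, hc y, (hcR y hy).1,
      (hmax y hy).trans hr.le⟩
    omega
  obtain ⟨hq, hqR⟩ := hcR ys hys
  have hqA : c ys ∈ A := hcl ys hys (hc ys)
  obtain ⟨w, hqw, hw1, hw2⟩ := dist_geod hq.symm (t := LL δ) (by
    rw [SimpleGraph.dist_comm (u := c ys) (v := o)]
    exact hr)
  have hw : G.Reachable o w := hq.trans hqw
  have hwo : G.dist w o = G.dist o (c ys) - LL δ := by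
    rw [hw2, SimpleGraph.dist_comm (u := c ys) (v := o)]
  have hLL : LL δ = 2 * δ + 1 := rfl
  have hwn : w ∉ Rch (DirH G δ ν) ys := by
    intro h
    have h2 := hcmin ys w h
    rw [SimpleGraph.dist_comm (u := o) (v := w), hwo] at h2
    omega
  have hlight : μ.real (SideH G δ (c ys) w) ≤ 41 / 100 := by
    have h2 : (ν (c ys)).real (SideH G δ (c ys) w) ≤ 2 / 5 := by
      by_contra h
      exact hwn (ReflTransGen.tail (hc ys) ⟨hqw, hw1, not_le.1 h⟩)
    have h3 := abs_lt.1 (hclose _ hqA _ (hS (c ys) w))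
    linarith [h3.1]
  have h2 := hinj (c ys) (2 * LL δ + 3 * δ) hq fun y hy => by
    obtain ⟨hp0, hp0R⟩ := hcR y hy
    -- walk towards `c ys`
    have hwalk : ∀ n : ℕ, ∀ p, p ∈ Rch (DirH G δ ν) y → G.dist p (c ys) = n →
        G.dist (c y) p + G.dist p (c ys) = G.dist (c y) (c ys) →
        ∃ e ∈ Rch (DirH G δ ν) y, G.Reachable (c ys) e ∧ G.dist (c ys) e ≤ 2 * LL δ + 3 * δ := by
      intro n
      induction n using Nat.strong_induction_on with
      | _ n ih =>
        intro p hp hn hgeo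
        have hpA := hcl y hy hp
        have hpo := ((hA p).1 hpA).1
        rcases Nat.lt_or_ge (G.dist p (c ys)) (2 * LL δ + 3 * δ) with hs | hs
        · refine ⟨p, hp, hq.symm.trans hpo, ?_⟩
          rw [SimpleGraph.dist_comm (u := c ys) (v := p)]
          exact hs.le
        · obtain ⟨p', h5, h6, h7⟩ := dist_geod (hpo.symm.trans hq) (t := LL δ) (by omega)
          have hp'o : G.Reachable o p' := hpo.trans h5
          have hside : 59 / 100 ≤ μ.real (SideH G δ p p') :=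
            mass_compl hμ hlight fun z hz hz' =>
              seen_far h4 hq hw hp0 hpo hp'o hz hr hw1 hwo hz' (hmax y hy) hgeo hs h6 h7
          have hD : DirH G δ ν p p' := by
            refine ⟨h5, h6, ?_⟩
            have h8 := abs_lt.1 (hclose p hpA _ (hS p p'))
            linarith [h8.1]
          refine ih (G.dist p' (c ys)) (by omega) p' (ReflTransGen.tail hp hD) rfl ?_
          have t1 := dist_tri (hp0.symm.trans hpo) h5
          have t2 := dist_tri (hp0.symm.trans hp'o) (hp'o.symm.trans hq)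
          omega
    refine hwalk _ (c y) (hc y) rfl ?_
    rw [SimpleGraph.dist_self, Nat.zero_add]
  omega

/-- **The digraph of heavy directions is narrow on balls.** -/
theorem narrowH {δ d R : ℕ} {o : X} (h4 : FourPt G δ o)
    (hd : ∀ y, G.Reachable o y → ∃ F : Finset X, F.card ≤ d ∧ ∀ z, G.Adj y z → z ∈ F)
    (hA : ∀ u, u ∈ A ↔ G.Reachable o u ∧ G.dist o u ≤ R)
    (hμ : μ {z | ¬ G.Reachable o z} = 0)
    (hS : ∀ x y, MeasurableSet (SideH G δ x y))
    (hclose : ∀ a ∈ A, ∀ S, MeasurableSet S → |(ν a).real S - μ.real S| < 1 / 100) :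
    NarrowOn (DirH G δ ν) A
      (2 * bb d (LL δ + 3 * δ) + (bb d (LL δ) + bb d (2 * LL δ + 3 * δ))) := by
  constructor
  · obtain ⟨F, hF, hFm⟩ := exists_headsH h4 hd hA hS hclose
    exact ⟨F, by omega, hFm⟩
  · intro B _ hcl hdis
    have h1 := card_closedH h4 hd hA hμ hS hclose B hcl hdis
    omega

end Pool.Agent.MP_750e50_lc
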