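import Pool.Agent.MP_750e50_lc.Reduce
import Pool.Agent.MP_750e50_lc.Diag

/-!
# Borel-bounded limits of bounded index are hyperfinite
-/

set_option autoImplicit false

open Filter

namespace Pool.Agent.MP_750e50_lc

variable {X : Type} [MeasurableSpace X]

/-- two of the points `a 0, ..., a (m - 1)` are related -/
def Coll (P : Setoid X) {m : ℕ} (a : Fin m → X) : Prop := ∃ j k, j ≠ k ∧ P.r (a j) (a k)

section FiniteIndex

variable [StandardBorelSpace X]

/-- **Finite index.** If `E' ⊆ E`, `E'` is hyperfinite and each class of `E` consists of finitely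
many classes of `E'`, then `E` is hyperfinite. -/
theorem hyperfinite_of_finite_index {E E' : Setoid X} (hE : IsCBER E) (hE' : IsCBER E')
    (hH : Hyperfinite E') {T : ℕ → X → X}
    (hT : ∀ n, Measurable (T n)) (hET : ∀ x y, E.r x y ↔ ∃ n, T n x = y)
    (hfin : ∀ x, ∃ I : ℕ, ∀ j, ∃ i ≤ I, E'.r (T j x) (T i x)) : Hyperfinite E := by
  classical
  have hE'm : MeasurableSet {p : X × X | E'.r p.1 p.2} := by
    obtain ⟨T', hT', hET'⟩ := hE'
    exact meas_E hT' hET'
  refine hyperfinite_of_weaklyGuessable (h := fun n => (n + 1) * (n + 1)) hE ?_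
  intro b f hf _
  obtain ⟨S, hS, hcard, hmem⟩ := localizable_of_hyperfinite hE' hH (tendsto_add_atTop_nat 1) f hf
  have hPm : ∀ I, MeasurableSet {x : X | ∀ j, ∃ i ≤ I, E'.r (T j x) (T i x)} := by
    intro I
    refine measurableSet_setOfPred.2 ?_
    refine Measurable.forall fun j => Measurable.exists fun i => ?_
    refine Measurable.and measurable_const ?_
    exact measurableSet_setOfPred.1 (meas_rel hE'm (hT j) (hT i))
  have hI : Measurable fun x => Nat.find (hfin x) := measurable_find hfin hPm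
  -- the union of the sets of the classes
  let U : X → ℕ → Finset ℕ := fun x n =>
    (Finset.range (Nat.find (hfin x) + 1)).biUnion fun i => S (T i x) n
  have hUmem : ∀ x n v, v ∈ U x n ↔ ∃ i ≤ Nat.find (hfin x), v ∈ S (T i x) n := by
    intro x n v
    simp only [U, Finset.mem_biUnion, Finset.mem_range]
    constructor
    · rintro ⟨i, hi, h⟩
      exact ⟨i, by omega, h⟩
    · rintro ⟨i, hi, h⟩
      exact ⟨i, by omega, h⟩
  have hUm : ∀ n v, MeasurableSet {x | v ∈ U x n} := by
    intro n v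
    have h1 : {x | v ∈ U x n} = {x | ∃ i : ℕ, i ≤ Nat.find (hfin x) ∧ v ∈ S (T i x) n} := by
      ext x
      exact hUmem x n v
    rw [h1]
    refine measurableSet_setOfPred.2 ?_
    refine Measurable.exists fun i => Measurable.and ?_ ?_
    · exact measurableSet_setOfPred.1 (measurableSet_le measurable_const hI)
    · exact measurableSet_setOfPred.1 ((hT i) (hS.1 n v))
  -- inclusions
  have hinc : ∀ x y, E.r x y → ∀ᶠ n in atTop, U x n ⊆ U y n := by
    intro x y hxy
    have h1 : ∀ i ∈ Set.Iic (Nat.find (hfin x)), ∀ᶠ n in atTop, S (T i x) n ⊆ U y n := by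
      intro i _
      have h2 : E.r y (T i x) := E.trans' (E.symm' hxy) ((hET _ _).2 ⟨i, rfl⟩)
      obtain ⟨j, hj⟩ := (hET _ _).1 h2
      obtain ⟨i', hi', h3⟩ := Nat.find_spec (hfin y) j
      rw [hj] at h3
      filter_upwards [hS.2 _ _ h3] with n hn v hv
      rw [hn] at hv
      exact (hUmem y n v).2 ⟨i', hi', hv⟩
    rw [← Filter.eventually_all_finite (Set.finite_Iic _)] at h1
    filter_upwards [h1] with n hn v hv
    obtain ⟨i, hi, h2⟩ := (hUmem x n v).1 hv
    exact hn i hi h2
  have hUcard : ∀ x, ∀ᶠ n in atTop, (U x n).card ≤ (n + 1) * (n + 1) := by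
    intro x
    filter_upwards [eventually_ge_atTop (Nat.find (hfin x))] with n hn
    refine Finset.card_biUnion_le.trans ?_
    refine (Finset.sum_le_card_nsmul _ _ (n + 1) fun i _ => hcard _ _).trans ?_
    rw [Finset.card_range, smul_eq_mul]
    exact Nat.mul_le_mul_right _ (by omega)
  have hUf : ∀ x, ∀ᶠ n in atTop, f x n ∈ U x n := by
    intro x
    obtain ⟨j, hj⟩ := (hET _ _).1 (E.refl' x)
    obtain ⟨i, hi, h3⟩ := Nat.find_spec (hfin x) j
    rw [hj] at h3
    filter_upwards [hS.2 _ _ h3, hmem x] with n hn hn'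
    rw [hn] at hn'
    exact (hUmem x n _).2 ⟨i, hi, hn'⟩
  refine ⟨fun x n => if (U x n).card ≤ (n + 1) * (n + 1) then U x n else ∅,
    ⟨fun n v => ?_, fun x y hxy => ?_⟩, fun x n => ?_, fun x => ?_⟩
  · have h1 : {x | v ∈ if (U x n).card ≤ (n + 1) * (n + 1) then U x n else ∅} =
        {x | (U x n).card ≤ (n + 1) * (n + 1)} ∩ {x | v ∈ U x n} := by
      ext x
      simp only [Set.mem_inter_iff, Set.mem_ofPred_eq]
      split_ifs with h2
      · simp [h2]
      · simp [h2]
    rw [h1]
    exact (measurableSet_le (meas_comp_finset (hUm n) Finset.card) measurable_const).inter (hUm n v)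
  · filter_upwards [hinc x y hxy, hinc y x (E.symm' hxy)] with n h1 h2
    rw [Finset.Subset.antisymm h1 h2]
  · show (if (U x n).card ≤ (n + 1) * (n + 1) then U x n else ∅).card ≤ (n + 1) * (n + 1)
    split_ifs with h1
    · exact h1
    · simp
  · refine Filter.Eventually.frequently ?_
    filter_upwards [hUf x, hUcard x] with n h1 h2
    rw [if_pos h2]
    exact h1

omit [MeasurableSpace X] [StandardBorelSpace X] in
/-- if among any `s + 1` points of the class two are related, then the class consists of finitely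
many classes -/
theorem finite_index_of_coll {E E' : Setoid X} {T : ℕ → X → X}
    (hET : ∀ x y, E.r x y ↔ ∃ n, T n x = y) {x : X} {s : ℕ}
    (hs : ∀ a : Fin (s + 1) → X, (∀ k, E.r x (a k)) → Coll E' a) :
    ∃ I : ℕ, ∀ j, ∃ i ≤ I, E'.r (T j x) (T i x) := by
  by_contra hcon
  push Not at hcon
  choose J hJ using hcon
  have hlt : ∀ I, I < J I := by
    intro I
    by_contra hle
    exact hJ I (J I) (not_lt.1 hle) (E'.refl' _)
  let a : ℕ → ℕ := fun k => J^[k] (J 0)
  have ha : ∀ k, a (k + 1) = J (a k) := fun k => Function.iterate_succ_apply' J k _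
  have hmono : StrictMono a := strictMono_nat_of_lt_succ fun k => by
    rw [ha]
    exact hlt _
  have hne : ∀ j k, j < k → ¬ E'.r (T (a k) x) (T (a j) x) := by
    intro j k hjk
    obtain ⟨k', rfl⟩ : ∃ k', k = k' + 1 := ⟨k - 1, by omega⟩
    rw [ha]
    exact hJ (a k') (a j) (hmono.monotone (by omega))
  obtain ⟨j, k, hjk, h⟩ := hs (fun k => T (a k) x) fun k => (hET _ _).2 ⟨_, rfl⟩
  rcases lt_or_gt_of_ne (fun h => hjk (Fin.ext h) : j.1 ≠ k.1) with h1 | h1
  · exact hne _ _ h1 (E'.symm' h)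
  · exact hne _ _ h1 h

end FiniteIndex

section Selector

variable [StandardBorelSpace X]

/-- a Borel selector for a finite Borel equivalence relation -/
theorem exists_selector {E : Setoid X} {T : ℕ → X → X}
    (hT : ∀ n, Measurable (T n)) (hET : ∀ x y, E.r x y ↔ ∃ n, T n x = y) {P : Setoid X}
    (hPm : MeasurableSet {p : X × X | P.r p.1 p.2}) (hPf : ∀ x, {y | P.r x y}.Finite)
    (hPE : ∀ x y, P.r x y → E.r x y) :
    ∃ q : X → X, Measurable q ∧ (∀ x, P.r x (q x)) ∧ ∀ x y, P.r x y → q x = q y := by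
  classical
  obtain ⟨φ, hφ⟩ := MeasureTheory.exists_measurableEmbedding_real X
  let Q : X → ℕ → Prop := fun x i => P.r x (T i x) ∧
    ∀ j : ℕ, P.r x (T j x) → φ (T i x) ≤ φ (T j x)
  have hex : ∀ x, ∃ i, Q x i := by
    intro x
    obtain ⟨y, hy, hmin⟩ := (hPf x).exists_minimalFor φ _ ⟨x, P.refl' x⟩
    obtain ⟨i, rfl⟩ := (hET x y).1 (hPE x y hy)
    refine ⟨i, hy, fun j hj => ?_⟩
    rcases le_total (φ (T i x)) (φ (T j x)) with h1 | h1
    · exact h1
    · exact hmin hj h1
  have hQ : ∀ i, MeasurableSet {x | Q x i} := by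
    intro i
    refine measurableSet_setOfPred.2 (Measurable.and ?_ ?_)
    · exact measurableSet_setOfPred.1 (meas_rel hPm measurable_id (hT i))
    · refine Measurable.forall fun j => Measurable.imp ?_ ?_
      · exact measurableSet_setOfPred.1 (meas_rel hPm measurable_id (hT j))
      · exact measurableSet_setOfPred.1 (measurableSet_le (hφ.measurable.comp (hT i))
          (hφ.measurable.comp (hT j)))
  have hN : Measurable fun x => Nat.find (hex x) := measurable_find hex hQ
  have h1 : ∀ x, P.r x (T (Nat.find (hex x)) x) := fun x => (Nat.find_spec (hex x)).1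
  have h2 : ∀ x y, P.r x y → φ (T (Nat.find (hex x)) x) ≤ φ (T (Nat.find (hex y)) y) := by
    intro x y hxy
    have h3 : P.r x (T (Nat.find (hex y)) y) := P.trans' hxy (h1 y)
    obtain ⟨j, hj⟩ := (hET _ _).1 (hPE _ _ h3)
    rw [← hj]
    exact (Nat.find_spec (hex x)).2 j (by rw [hj]; exact h3)
  exact ⟨fun x => T (Nat.find (hex x)) x, meas_diag' hT hN, h1, fun x y hxy =>
    hφ.injective (le_antisymm (h2 x y hxy) (h2 y x (P.symm' hxy)))⟩

end Selector

section Limit

/-- the finite sets of lists which are bounded by `w` -/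
def Lw (w : ℕ) : Set (List ℕ) := {l | l.length ≤ w ∧ ∀ b ∈ l, b ≤ w}

theorem finite_Lw (w : ℕ) : (Lw w).Finite := by
  have h1 := (List.finite_length_le (Fin (w + 1)) w).image (List.map Fin.val)
  refine h1.subset ?_
  rintro l ⟨h2, h3⟩
  refine ⟨l.map fun b => if hb : b < w + 1 then ⟨b, hb⟩ else 0, ?_, ?_⟩
  · simpa using h2
  · rw [List.map_map]
    conv_rhs => rw [← List.map_id l]
    refine List.map_congr_left fun b hb => ?_
    have h4 := h3 b hb
    simp only [Function.comp]
    rw [dif_pos (by omega)]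
    rfl

/-- the indices of the conditions which have to be met above `w` -/
def Lam (w : ℕ) : Set ((Σ s : ℕ, (Fin (s + 1) → List ℕ × ℕ)) ⊕ List ℕ) :=
  (⋃ s ∈ Set.Iic w, (fun c : Fin (s + 1) → List ℕ × ℕ => Sum.inl ⟨s, c⟩) ''
    {c | ∀ k, c k ∈ Lw w ×ˢ Set.Iic w}) ∪ Sum.inr '' Lw w

theorem finite_Lam (w : ℕ) : (Lam w).Finite := by
  refine Set.Finite.union ?_ ((finite_Lw w).image _)
  refine Set.Finite.biUnion (Set.finite_Iic w) fun s _ => Set.Finite.image _ ?_
  exact Set.Finite.pi' fun _ => (finite_Lw w).prod (Set.finite_Iic w)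

/-- the composition of the selectors along a list -/
def Qs (q : ℕ → X → X) (l : List ℕ) (x : X) : X := l.foldl (fun y v => q v y) x

/-- the `n`-th centre of `x` -/
def pt (q : ℕ → X → X) (g : X → ℕ → ℕ) (n : ℕ) (x : X) : X := Qs q ((List.range n).map (g x)) x

omit [MeasurableSpace X] in
theorem pt_succ (q : ℕ → X → X) (g : X → ℕ → ℕ) (n : ℕ) (x : X) :
    pt q g (n + 1) x = q (g x n) (pt q g n x) := by
  unfold pt Qs
  rw [List.range_succ, List.map_append, List.foldl_append]
  rfl

theorem meas_Qs {q : ℕ → X → X} (hq : ∀ v, Measurable (q v)) (l : List ℕ) :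
    Measurable (Qs q l) := by
  unfold Qs
  induction l with
  | nil => exact measurable_id
  | cons v l ih => exact ih.comp (hq v)

theorem meas_pt {q : ℕ → X → X} (hq : ∀ v, Measurable (q v)) {g : X → ℕ → ℕ} (hg : Measurable g)
    (n : ℕ) : Measurable (pt q g n) := by
  induction n with
  | zero => exact measurable_id
  | succ n ih =>
    have h1 : pt q g (n + 1) = fun x => q (g x n) (pt q g n x) := by
      funext x
      exact pt_succ q g n x
    rw [h1]
    exact meas_diag' (f := fun v x => q v (pt q g n x)) (fun v => (hq v).comp ih)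
      (measurable_pi_iff.1 hg n)

omit [MeasurableSpace X] in
theorem rel_Qs {E : Setoid X} {q : ℕ → X → X} (hq : ∀ v x, E.r x (q v x)) (l : List ℕ) (x : X) :
    E.r x (Qs q l x) := by
  unfold Qs
  induction l generalizing x with
  | nil => exact E.refl' x
  | cons v l ih => exact E.trans' (hq v x) (ih _)

omit [MeasurableSpace X] in
theorem mem_Lw_of_mono {g : X → ℕ → ℕ} (hg : ∀ x, StrictMono (g x)) (hg' : ∀ x n, n + 1 ≤ g x n)
    {n : ℕ} {x : X} {w : ℕ} (hw : g x n = w) : (List.range (n + 1)).map (g x) ∈ Lw w := by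
  subst hw
  refine ⟨?_, fun b hb => ?_⟩
  · simpa using hg' x n
  · obtain ⟨j, hj, rfl⟩ := List.mem_map.1 hb
    exact (hg x).monotone (by
      have := List.mem_range.1 hj
      omega)

/-- the `n`-th finite equivalence relation -/
def Fn (T : ℕ → X → X) (q : ℕ → X → X) (g : X → ℕ → ℕ) (n : ℕ) : Setoid X where
  r x y := x = y ∨ (g x n = g y n ∧ pt q g n x = pt q g n y ∧
    (∃ i ≤ g x n, T i (pt q g n x) = x) ∧ ∃ i ≤ g y n, T i (pt q g n y) = y)
  iseqv := by
    refine ⟨fun x => Or.inl rfl, ?_, ?_⟩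
    · rintro x y (h | ⟨h1, h2, h3, h4⟩)
      · exact Or.inl h.symm
      · exact Or.inr ⟨h1.symm, h2.symm, h4, h3⟩
    · rintro x y z (h | ⟨h1, h2, h3, h4⟩) (h' | ⟨h1', h2', h3', h4'⟩)
      · exact Or.inl (h.trans h')
      · subst h
        exact Or.inr ⟨h1', h2', h3', h4'⟩
      · subst h'
        exact Or.inr ⟨h1, h2, h3, h4⟩
      · exact Or.inr ⟨h1.trans h1', h2.trans h2', h3, h4'⟩

omit [MeasurableSpace X] in
theorem Fn_finite (T : ℕ → X → X) (q : ℕ → X → X) (g : X → ℕ → ℕ) (n : ℕ) (x : X) :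
    {y | (Fn T q g n).r x y}.Finite := by
  have h1 : ({x} ∪ (fun i => T i (pt q g n x)) '' Set.Iic (g x n)).Finite :=
    (Set.finite_singleton x).union ((Set.finite_Iic _).image _)
  refine h1.subset ?_
  rintro y (h | ⟨h1, h2, -, ⟨i, hi, h4⟩⟩)
  · exact Or.inl h.symm
  · refine Or.inr ⟨i, ?_, ?_⟩
    · rw [h1]
      exact hi
    · show T i (pt q g n x) = y
      rw [h2]
      exact h4

theorem meas_Fn [StandardBorelSpace X] {T : ℕ → X → X} (hT : ∀ n, Measurable (T n))
    {q : ℕ → X → X} (hq : ∀ v, Measurable (q v)) {g : X → ℕ → ℕ} (hg : Measurable g) (n : ℕ) :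
    MeasurableSet {p : X × X | (Fn T q g n).r p.1 p.2} := by
  have hgn : Measurable fun x => g x n := measurable_pi_iff.1 hg n
  have hp := meas_pt hq hg n
  have h1 : MeasurableSet {x : X | ∃ i ≤ g x n, T i (pt q g n x) = x} := by
    refine measurableSet_setOfPred.2 ?_
    refine Measurable.exists fun i => Measurable.and ?_ ?_
    · exact measurableSet_setOfPred.1 (measurableSet_le measurable_const hgn)
    · exact measurableSet_setOfPred.1 (measurableSet_eq_fun ((hT i).comp hp) measurable_id)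
  have h2 : {p : X × X | (Fn T q g n).r p.1 p.2} = {p : X × X | p.1 = p.2} ∪
      (({p : X × X | g p.1 n = g p.2 n} ∩ {p : X × X | pt q g n p.1 = pt q g n p.2}) ∩
        ((Prod.fst ⁻¹' {x : X | ∃ i ≤ g x n, T i (pt q g n x) = x}) ∩
          (Prod.snd ⁻¹' {x : X | ∃ i ≤ g x n, T i (pt q g n x) = x}))) := by
    ext p
    constructor
    · rintro (h | ⟨h1, h2, h3, h4⟩)
      · exact Or.inl h
      · exact Or.inr ⟨⟨h1, h2⟩, h3, h4⟩
    · rintro (h | ⟨⟨h1, h2⟩, h3, h4⟩)
      · exact Or.inl h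
      · exact Or.inr ⟨h1, h2, h3, h4⟩
  rw [h2]
  refine (measurableSet_eq_fun measurable_fst measurable_snd).union ?_
  refine MeasurableSet.inter (MeasurableSet.inter ?_ ?_) ((measurable_fst h1).inter
    (measurable_snd h1))
  · exact measurableSet_eq_fun (hgn.comp measurable_fst) (hgn.comp measurable_snd)
  · exact measurableSet_eq_fun (hp.comp measurable_fst) (hp.comp measurable_snd)

/-- the lower limit of a sequence of equivalence relations -/
def Liminf (F : ℕ → Setoid X) : Setoid X where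
  r x y := ∀ᶠ n in atTop, (F n).r x y
  iseqv := by
    refine ⟨fun x => Eventually.of_forall fun n => (F n).refl' x, ?_, ?_⟩
    · intro x y h
      exact h.mono fun n hn => (F n).symm' hn
    · intro x y z h h'
      filter_upwards [h, h'] with n h1 h2
      exact (F n).trans' h1 h2

theorem hyperfinite_Liminf {F : ℕ → Setoid X}
    (hFm : ∀ n, MeasurableSet {p : X × X | (F n).r p.1 p.2})
    (hFf : ∀ n x, {y | (F n).r x y}.Finite) : Hyperfinite (Liminf F) := by
  refine ⟨fun N => ⟨fun x y => ∀ n : ℕ, n ≥ N → (F n).r x y, ?_⟩, fun N => ?_, fun N x => ?_,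
    fun N x y h n hn => h n (by omega), fun x y => ?_⟩
  · exact ⟨fun x n _ => (F n).refl' x, fun h n hn => (F n).symm' (h n hn),
      fun h h' n hn => (F n).trans' (h n hn) (h' n hn)⟩
  · refine measurableSet_setOfPred.2 ?_
    refine Measurable.forall fun n => measurable_const.imp ?_
    exact measurableSet_setOfPred.1 (hFm n)
  · exact (hFf N x).subset fun y hy => hy N le_rfl
  · exact eventually_atTop

theorem meas_Liminf {F : ℕ → Setoid X}
    (hFm : ∀ n, MeasurableSet {p : X × X | (F n).r p.1 p.2}) :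
    MeasurableSet {p : X × X | (Liminf F).r p.1 p.2} :=
  measurableSet_setOfPred.2 (meas_ev fun n => measurableSet_setOfPred.1 (hFm n))

theorem isCBER_of_sub [StandardBorelSpace X] {E E' : Setoid X} (hE : IsCBER E)
    (hm : MeasurableSet {p : X × X | E'.r p.1 p.2}) (hsub : ∀ x y, E'.r x y → E.r x y) :
    IsCBER E' := by
  classical
  obtain ⟨T, hT, hET⟩ := hE
  refine ⟨fun n x => if E'.r x (T n x) then T n x else x, fun n => ?_, fun x y => ⟨fun h => ?_, ?_⟩⟩
  · exact Measurable.ite (meas_rel hm measurable_id (hT n)) (hT n) measurable_id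
  · obtain ⟨n, rfl⟩ := (hET _ _).1 (hsub _ _ h)
    exact ⟨n, if_pos h⟩
  · rintro ⟨n, rfl⟩
    show E'.r x (if E'.r x (T n x) then T n x else x)
    by_cases h : E'.r x (T n x)
    · rw [if_pos h]
      exact h
    · rw [if_neg h]

/-- **The main theorem for the Fréchet filter.** -/
theorem hyperfinite_of_limit [StandardBorelSpace X] {E : Setoid X} (hE : IsCBER E)
    (hB : BorelBounded E) {P : ℕ → Setoid X}
    (hPm : ∀ i, MeasurableSet {p : X × X | (P i).r p.1 p.2})
    (hPf : ∀ i x, {y | (P i).r x y}.Finite)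
    (hlim : ∀ x, ∃ s : ℕ, ∀ a : Fin (s + 1) → X, (∀ k, E.r x (a k)) →
      ∀ᶠ i in atTop, Coll (P i) a) : Hyperfinite E := by
  classical
  obtain ⟨T, hT, hET⟩ := id hE
  have hEm := meas_E hT hET
  -- the selectors
  have hsel : ∀ i, ∃ q : X → X, Measurable q ∧ (∀ x, E.r x (q x)) ∧
      ∀ x y, (P i).r x y → E.r x y → q x = q y := by
    intro i
    let P' : Setoid X := ⟨fun x y => (P i).r x y ∧ E.r x y, fun x => ⟨(P i).refl' x, E.refl' x⟩,
      fun h => ⟨(P i).symm' h.1, E.symm' h.2⟩,
      fun h h' => ⟨(P i).trans' h.1 h'.1, E.trans' h.2 h'.2⟩⟩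
    obtain ⟨q, hq1, hq2, hq3⟩ := exists_selector (P := P') hT hET ((hPm i).inter hEm)
      (fun x => (hPf i x).subset fun y hy => hy.1) (fun x y h => h.2)
    exact ⟨q, hq1, fun x => (hq2 x).2, fun x y h h' => hq3 x y ⟨h, h'⟩⟩
  choose q hqm hqE hqP using hsel
  -- the conditions
  let A : ((Σ s : ℕ, (Fin (s + 1) → List ℕ × ℕ)) ⊕ List ℕ) → X → Set ℕ := fun j x =>
    match j with
    | Sum.inl ⟨_, c⟩ => {v | Coll (P v) fun k => Qs q (c k).1 (T (c k).2 x)}
    | Sum.inr l => {v | ∃ i ≤ v, T i (Qs q l x) = x}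
  have hA : ∀ j v, MeasurableSet {x | v ∈ A j x} := by
    rintro (⟨s, c⟩ | l) v
    · show MeasurableSet {x | Coll (P v) fun k => Qs q (c k).1 (T (c k).2 x)}
      refine measurableSet_setOfPred.2 ?_
      refine Measurable.exists fun j => Measurable.exists fun k => ?_
      refine Measurable.and measurable_const ?_
      exact measurableSet_setOfPred.1 (meas_rel (hPm v) ((meas_Qs hqm _).comp (hT _))
        ((meas_Qs hqm _).comp (hT _)))
    · show MeasurableSet {x | ∃ i ≤ v, T i (Qs q l x) = x}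
      refine measurableSet_setOfPred.2 ?_
      refine Measurable.exists fun i => Measurable.and measurable_const ?_
      exact measurableSet_setOfPred.1 (measurableSet_eq_fun ((hT i).comp (meas_Qs hqm l))
        measurable_id)
  obtain ⟨g, hg, hgmono, hgn, hgA⟩ := exists_scale hB Lam finite_Lam A hA
  have hptE : ∀ n x, E.r x (pt q g n x) := fun n x => rel_Qs hqE _ x
  -- each point is eventually near its centre
  have hnear : ∀ x, ∀ᶠ n in atTop, ∃ i ≤ g x n, T i (pt q g n x) = x := by
    intro x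
    obtain ⟨N, hN⟩ := eventually_atTop.1 (hgA x)
    refine eventually_atTop.2 ⟨N + 1, fun n hn => ?_⟩
    obtain ⟨m, rfl⟩ : ∃ m, n = m + 1 := ⟨n - 1, by omega⟩
    have h1 := hN m (by omega) (Sum.inr ((List.range (m + 1)).map (g x)))
      (Or.inr ⟨_, mem_Lw_of_mono hgmono hgn rfl, rfl⟩)
    refine h1 ?_
    obtain ⟨i, hi⟩ := (hET _ _).1 (E.symm' (rel_Qs hqE ((List.range (m + 1)).map (g x)) x))
    exact eventually_atTop.2 ⟨i, fun v hv => ⟨i, hv, hi⟩⟩
  -- equal centres remain equal
  have hkeep : ∀ x y, E.r x y → ∃ N, (∀ n ≥ N, g x n = g y n) ∧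
      ∀ n ≥ N, pt q g n x = pt q g n y → (Liminf (Fn T q g)).r x y := by
    intro x y hxy
    obtain ⟨N, hN⟩ := eventually_atTop.1 (hg.2 x y hxy)
    refine ⟨N, hN, fun n hn hpt => ?_⟩
    have h1 : ∀ m ≥ n, pt q g m x = pt q g m y := by
      intro m hm
      induction hm with
      | refl => exact hpt
      | @step m hm ih =>
        rw [pt_succ, pt_succ, ih, hN m (le_trans hn hm)]
    show ∀ᶠ n in atTop, (Fn T q g n).r x y
    filter_upwards [hnear x, hnear y, eventually_ge_atTop n] with m h2 h3 h4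
    exact Or.inr ⟨hN m (le_trans hn h4), h1 m h4, h2, h3⟩
  have hFm : ∀ n, MeasurableSet {p : X × X | (Fn T q g n).r p.1 p.2} := meas_Fn hT hqm hg.1
  have hsub : ∀ x y, (Liminf (Fn T q g)).r x y → E.r x y := by
    intro x y h
    obtain ⟨n, hn⟩ := h.exists
    rcases hn with h1 | ⟨-, h2, -, -⟩
    · rw [h1]
    · have h3 := hptE n x
      rw [h2] at h3
      exact E.trans' h3 (E.symm' (hptE n y))
  -- bounded index
  have hidx : ∀ x, ∃ s : ℕ, ∀ a : Fin (s + 1) → X, (∀ k, E.r x (a k)) →
      Coll (Liminf (Fn T q g)) a := by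
    intro x
    obtain ⟨s, hs⟩ := hlim x
    refine ⟨s, fun a ha => ?_⟩
    choose i hi using fun k => (hET _ _).1 (ha k)
    choose N hN1 hN2 using fun k => hkeep x (a k) (ha k)
    have hpair : ∀ j k, ∃ M, ∀ n ≥ M, pt q g n (a j) = pt q g n (a k) →
        (Liminf (Fn T q g)).r (a j) (a k) := by
      intro j k
      obtain ⟨M, -, hM⟩ := hkeep (a j) (a k) (E.trans' (E.symm' (ha j)) (ha k))
      exact ⟨M, hM⟩
    choose M hM using hpair
    have h1 : ∀ᶠ n in atTop, s ≤ g x n ∧ (∀ k, i k ≤ g x n) ∧ (∀ k, N k ≤ n) ∧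
        ∀ j k, M j k ≤ n := by
      refine eventually_atTop.2 ⟨s + ∑ k, i k + ∑ k, N k + ∑ j, ∑ k, M j k, fun n hn => ?_⟩
      have h2 := hgn x n
      have h3 : ∀ k, i k ≤ ∑ k, i k := fun k =>
        Finset.single_le_sum (f := i) (fun _ _ => Nat.zero_le _) (Finset.mem_univ k)
      have h4 : ∀ k, N k ≤ ∑ k, N k := fun k =>
        Finset.single_le_sum (f := N) (fun _ _ => Nat.zero_le _) (Finset.mem_univ k)
      have h5 : ∀ j k, M j k ≤ ∑ j, ∑ k, M j k := fun j k =>
        (Finset.single_le_sum (f := M j) (fun _ _ => Nat.zero_le _) (Finset.mem_univ k)).trans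
          (Finset.single_le_sum (f := fun j => ∑ k, M j k) (fun _ _ => Nat.zero_le _)
            (Finset.mem_univ j))
      refine ⟨by omega, fun k => ?_, fun k => ?_, fun j k => ?_⟩
      · have := h3 k
        omega
      · have := h4 k
        omega
      · have := h5 j k
        omega
    obtain ⟨n, hn1, hn2⟩ := (h1.and (hgA x)).exists
    obtain ⟨hs1, hi1, hN3, hM3⟩ := hn1
    have hgk : ∀ k m, n ≤ m → g x m = g (a k) m := fun k m hm => hN1 k m (le_trans (hN3 k) hm)
    have h2 := hn2 (Sum.inl ⟨s, fun k => ((List.range (n + 1)).map (g (a k)), i k)⟩) (by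
      refine Or.inl (Set.mem_biUnion (Set.mem_Iic.2 hs1)
        ⟨fun k => ((List.range (n + 1)).map (g (a k)), i k), fun k => ⟨?_, hi1 k⟩, rfl⟩)
      exact mem_Lw_of_mono hgmono hgn (hgk k n le_rfl).symm)
    have h3 : ∀ᶠ v in atTop, v ∈ A (Sum.inl
        ⟨s, fun k => ((List.range (n + 1)).map (g (a k)), i k)⟩) x := by
      refine (hs (fun k => Qs q ((List.range (n + 1)).map (g (a k))) (T (i k) x)) fun k => ?_).mono
        fun v hv => hv
      rw [hi k]
      exact E.trans' (ha k) (rel_Qs hqE _ _)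
    obtain ⟨j, k, hjk, h4⟩ := h2 h3
    refine ⟨j, k, hjk, hM j k (n + 2) (by
      have := hM3 j k
      omega) ?_⟩
    have h5 : (P (g x (n + 1))).r (pt q g (n + 1) (a j)) (pt q g (n + 1) (a k)) := by
      have h6 : (P (g x (n + 1))).r (Qs q ((List.range (n + 1)).map (g (a j))) (T (i j) x))
        (Qs q ((List.range (n + 1)).map (g (a k))) (T (i k) x)) := h4
      rw [hi j, hi k] at h6
      exact h6
    rw [pt_succ q g (n + 1) (a j), pt_succ q g (n + 1) (a k), ← hgk j (n + 1) (by omega),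
      ← hgk k (n + 1) (by omega)]
    refine hqP _ _ _ h5 ?_
    exact E.trans' (E.symm' (hptE _ _)) (E.trans' (E.trans' (E.symm' (ha j)) (ha k)) (hptE _ _))
  refine hyperfinite_of_finite_index hE (isCBER_of_sub hE (meas_Liminf (F := Fn T q g) hFm) hsub)
    (hyperfinite_Liminf (F := Fn T q g) hFm fun n x => Fn_finite T q g n x) hT hET fun x => ?_
  obtain ⟨s, hs⟩ := hidx x
  exact finite_index_of_coll hET hs

end Limit

end Pool.Agent.MP_750e50_lc
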