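import Pool.Agent.MP_750e50_lc.Colour

/-!
# Centres give hyperfiniteness
-/

set_option autoImplicit false

open Filter

namespace Pool.Agent.MP_750e50_lc

variable {X : Type}

/-- related and equal tails from `n` on -/
def Eg (E : Setoid X) (g : X → ℕ → ℕ) (n : ℕ) (x y : X) : Prop :=
  E.r x y ∧ ∀ k, n ≤ k → g x k = g y k

section Eg

variable {E : Setoid X} {g : X → ℕ → ℕ} {n m : ℕ} {x y z : X}

theorem Eg.refl (x : X) : Eg E g n x x := ⟨E.refl' x, fun _ _ => rfl⟩

theorem Eg.symm (h : Eg E g n x y) : Eg E g n y x := ⟨E.symm' h.1, fun k hk => (h.2 k hk).symm⟩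

theorem Eg.trans (h : Eg E g n x y) (h' : Eg E g n y z) : Eg E g n x z :=
  ⟨E.trans' h.1 h'.1, fun k hk => (h.2 k hk).trans (h'.2 k hk)⟩

theorem Eg.mono (h : Eg E g n x y) (hnm : n ≤ m) : Eg E g m x y :=
  ⟨h.1, fun k hk => h.2 k (hnm.trans hk)⟩

end Eg

/-- `x` is `J`-related to a point of the block of the centre `a` -/
def Touch (T : ℕ → X → X) (E : Setoid X) (g : X → ℕ → ℕ) (J : X → X → Prop) (n : ℕ) (a x : X) :
    Prop :=
  ∃ u, J x u ∧ Eg E g n a u ∧ Near T n 1 a u

/-- the increasing sequence of finite relations -/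
def JJ (T : ℕ → X → X) (E : Setoid X) (g c : X → ℕ → ℕ) : ℕ → X → X → Prop
  | 0, x, y => x = y
  | n + 1, x, y => JJ T E g c n x y ∨ ∃ a, c a n = g a n ∧
      Touch T E g (JJ T E g c n) n a x ∧ Touch T E g (JJ T E g c n) n a y

/-- radii -/
def DD : ℕ → ℕ
  | 0 => 0
  | n + 1 => 2 * (1 + DD n)

theorem DD_mono {n m : ℕ} (h : n ≤ m) : DD n ≤ DD m := by
  induction h with
  | refl => exact le_rfl
  | step _ ih =>
    refine ih.trans ?_
    simp only [DD]
    omega

variable {T : ℕ → X → X} {E : Setoid X} {g c : X → ℕ → ℕ}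

theorem JJ_inv (n : ℕ) : ∀ x y, JJ T E g c n x y →
    Eg E g n x y ∧ Near T n (DD n) x y := by
  induction n with
  | zero =>
    intro x y h
    have h1 : x = y := h
    subst h1
    exact ⟨Eg.refl x, Near.refl _ x⟩
  | succ n ih =>
    intro x y h
    rcases h with h | ⟨a, -, ⟨u, h1, h2, h3⟩, ⟨v, h4, h5, h6⟩⟩
    · refine ⟨(ih x y h).1.mono (Nat.le_succ n), ((ih x y h).2.mono_n (Nat.le_succ n)).mono_r ?_⟩
      exact DD_mono (Nat.le_succ n)
    · obtain ⟨k1, k2⟩ := ih _ _ h1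
      obtain ⟨k3, k4⟩ := ih _ _ h4
      refine ⟨(((k1.trans h2.symm).trans h5).trans k3.symm).mono (Nat.le_succ n), ?_⟩
      have h7 := ((k2.trans h3.symm).trans h6).trans k4.symm
      refine (h7.mono_n (Nat.le_succ n)).mono_r ?_
      simp only [DD]
      omega

theorem JJ_refl (n : ℕ) (x : X) : JJ T E g c n x x := by
  induction n with
  | zero => rfl
  | succ n ih => exact Or.inl ih

theorem JJ_symm (n : ℕ) : ∀ x y, JJ T E g c n x y → JJ T E g c n y x := by
  induction n with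
  | zero => exact fun x y h => Eq.symm h
  | succ n ih =>
    intro x y h
    rcases h with h | ⟨a, h0, h1, h2⟩
    · exact Or.inl (ih x y h)
    · exact Or.inr ⟨a, h0, h2, h1⟩

theorem JJ_trans (hsep : ∀ m a a', c a m = g a m → c a' m = g a' m → g a m = g a' m →
      Near T m (DD (m + 1)) a a' → a = a') (n : ℕ) :
    ∀ x y z, JJ T E g c n x y → JJ T E g c n y z → JJ T E g c n x z := by
  induction n with
  | zero => exact fun x y z h h' => Eq.trans h h'
  | succ n ih =>
    intro x y z h h'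
    rcases h with h | ⟨a, ha, h1, h2⟩
    · rcases h' with h' | ⟨a', ha', ⟨u, h3, h4⟩, h5⟩
      · exact Or.inl (ih x y z h h')
      · exact Or.inr ⟨a', ha', ⟨u, ih _ _ _ h h3, h4⟩, h5⟩
    · rcases h' with h' | ⟨a', ha', h3, h4⟩
      · obtain ⟨u, h5, h6⟩ := h2
        exact Or.inr ⟨a, ha, h1, ⟨u, ih _ _ _ (JJ_symm n _ _ h') h5, h6⟩⟩
      · obtain ⟨u, k1, k2, k3⟩ := h2
        obtain ⟨v, k4, k5, k6⟩ := h3
        have k7 : JJ T E g c n u v := ih _ _ _ (JJ_symm n _ _ k1) k4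
        obtain ⟨k8, k9⟩ := JJ_inv n _ _ k7
        have h8 : Eg E g n a a' := (k2.trans k8).trans k5.symm
        have h9 : Near T n (1 + DD n + 1) a a' := (k3.trans k9).trans k6.symm
        have h10 : a = a' := hsep n a a' ha ha' (h8.2 n le_rfl) (h9.mono_r (by
          simp only [DD]
          omega))
        subst h10
        exact Or.inr ⟨a, ha, h1, h4⟩

variable [MeasurableSpace X] [StandardBorelSpace X]

theorem meas_Eg (hT : ∀ n, Measurable (T n)) (hE : ∀ x y, E.r x y ↔ ∃ n, T n x = y)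
    (hg : Measurable g) (n : ℕ) : MeasurableSet {p : X × X | Eg E g n p.1 p.2} := by
  have h1 : {p : X × X | Eg E g n p.1 p.2} = {p : X × X | E.r p.1 p.2} ∩
      ⋂ k ∈ Set.Ici n, {p : X × X | g p.1 k = g p.2 k} := by
    ext p
    simp only [Eg, Set.mem_inter_iff, Set.mem_iInter, Set.mem_ofPred_eq, Set.mem_Ici]
  rw [h1]
  refine (meas_E hT hE).inter (MeasurableSet.biInter (Set.to_countable _) fun k _ => ?_)
  exact measurableSet_eq_fun ((measurable_pi_apply k).comp (hg.comp measurable_fst))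
    ((measurable_pi_apply k).comp (hg.comp measurable_snd))

theorem meas_Touch (hT : ∀ n, Measurable (T n)) (hE : ∀ x y, E.r x y ↔ ∃ n, T n x = y)
    (hg : Measurable g) (n : ℕ) (J : X → X → Prop)
    (hJ : MeasurableSet {p : X × X | J p.1 p.2}) {k : ℕ} (φ : Fin k → X → X)
    (hφ : ∀ i, Measurable (φ i)) (hJφ : ∀ x y, J x y → ∃ i, φ i x = y) :
    MeasurableSet {p : X × X | Touch T E g J n p.1 p.2} := by
  have h1 : {p : X × X | Touch T E g J n p.1 p.2} = ⋃ i : Fin k,
      (({p : X × X | J p.2 (φ i p.2)} ∩ {p : X × X | Eg E g n p.1 (φ i p.2)}) ∩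
        {p : X × X | Near T n 1 p.1 (φ i p.2)}) := by
    ext p
    simp only [Touch, Set.mem_inter_iff, Set.mem_iUnion, Set.mem_ofPred_eq]
    constructor
    · rintro ⟨u, h1, h2, h3⟩
      obtain ⟨i, hi⟩ := hJφ _ _ h1
      subst hi
      exact ⟨i, ⟨h1, h2⟩, h3⟩
    · rintro ⟨i, ⟨h1, h2⟩, h3⟩
      exact ⟨_, h1, h2, h3⟩
  rw [h1]
  refine MeasurableSet.iUnion fun i => ?_
  have h2 : Measurable fun p : X × X => φ i p.2 := (hφ i).comp measurable_snd
  exact ((meas_rel hJ measurable_snd h2).inter (meas_rel (meas_Eg hT hE hg n) measurable_fst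
    h2)).inter (meas_rel (meas_Near hT n 1) measurable_fst h2)

theorem meas_JJ (hT : ∀ n, Measurable (T n)) (hE : ∀ x y, E.r x y ↔ ∃ n, T n x = y)
    (hg : Measurable g) (hc : Measurable c) (n : ℕ) :
    MeasurableSet {p : X × X | JJ T E g c n p.1 p.2} := by
  induction n with
  | zero => exact measurableSet_eq_fun measurable_fst measurable_snd
  | succ n ih =>
    obtain ⟨k, φ, hφ, h⟩ := near_family T hT n (DD n)
    obtain ⟨l, ψ, hψ, h'⟩ := near_family T hT n 1
    have hφ' : ∀ x y, JJ T E g c n x y → ∃ i, φ i x = y := fun x y h1 => h x y (JJ_inv n x y h1).2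
    have hTo := meas_Touch (E := E) hT hE hg n (JJ T E g c n) ih φ hφ hφ'
    have h1 : {p : X × X | JJ T E g c (n + 1) p.1 p.2} = {p : X × X | JJ T E g c n p.1 p.2} ∪
        ⋃ i : Fin k, ⋃ j : Fin l, (({p : X × X | c (ψ j (φ i p.1)) n = g (ψ j (φ i p.1)) n} ∩
          {p : X × X | Touch T E g (JJ T E g c n) n (ψ j (φ i p.1)) p.1}) ∩
          {p : X × X | Touch T E g (JJ T E g c n) n (ψ j (φ i p.1)) p.2}) := by
      ext p
      simp only [Set.mem_inter_iff, Set.mem_iUnion, Set.mem_ofPred_eq, Set.mem_union, JJ]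
      constructor
      · rintro (h1 | ⟨a, h1, h2, h3⟩)
        · exact Or.inl h1
        · obtain ⟨u, k1, k2, k3⟩ := id h2
          obtain ⟨i, hi⟩ := hφ' _ _ k1
          obtain ⟨j, hj⟩ := h' _ _ k3.symm
          subst hi
          subst hj
          exact Or.inr ⟨i, j, ⟨h1, h2⟩, h3⟩
      · rintro (h1 | ⟨i, j, ⟨h1, h2⟩, h3⟩)
        · exact Or.inl h1
        · exact Or.inr ⟨_, h1, h2, h3⟩
    rw [h1]
    refine ih.union (MeasurableSet.iUnion fun i => MeasurableSet.iUnion fun j => ?_)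
    have h2 : Measurable fun p : X × X => ψ j (φ i p.1) :=
      (hψ j).comp ((hφ i).comp measurable_fst)
    refine (MeasurableSet.inter ?_ (meas_rel hTo h2 measurable_fst)).inter
      (meas_rel hTo h2 measurable_snd)
    exact measurableSet_eq_fun ((measurable_pi_apply n).comp (hc.comp h2))
      ((measurable_pi_apply n).comp (hg.comp h2))

/-- **Centres give hyperfiniteness.** -/
theorem hyperfinite_of_centres (hT : ∀ n, Measurable (T n))
    (hE : ∀ x y, E.r x y ↔ ∃ n, T n x = y) (hg : IsHom E g) (hc : Measurable c)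
    (hsep : ∀ m a a', c a m = g a m → c a' m = g a' m → g a m = g a' m →
      Near T m (DD (m + 1)) a a' → a = a')
    (hinf : ∀ x, ∃ᶠ n in atTop, c x n = g x n) : Hyperfinite E := by
  let F : ℕ → Setoid X := fun n =>
    { r := JJ T E g c n
      iseqv := ⟨JJ_refl n, fun {x y} => JJ_symm n x y, fun {x y z} => JJ_trans hsep n x y z⟩ }
  refine ⟨F, fun n => meas_JJ hT hE hg.1 hc n, fun n x => ?_, fun n x y h => Or.inl h,
    fun x y => ⟨fun h => ?_, ?_⟩⟩
  · refine (near_finite T n (DD n) x).subset fun y hy => ?_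
    exact (JJ_inv n x y hy).2
  · obtain ⟨N, hN⟩ := eventually_atTop.1 (hg.2 x y h)
    obtain ⟨i, hi⟩ := (hE x y).1 h
    obtain ⟨j, hj⟩ := (hE y x).1 (E.symm' h)
    obtain ⟨n, hn, hcx⟩ := frequently_atTop.1 (hinf x) (max N (max i j))
    refine ⟨n + 1, Or.inr ⟨x, hcx, ⟨x, JJ_refl n x, Eg.refl x, Near.refl 1 x⟩,
      ⟨y, JJ_refl n y, ⟨h, fun k hk => hN k ?_⟩, Near.one ⟨⟨i, ?_, hi⟩, ⟨j, ?_, hj⟩⟩⟩⟩⟩
    · exact ((le_max_left _ _).trans hn).trans hk
    · exact ((le_max_left _ _).trans (le_max_right _ _)).trans hn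
    · exact ((le_max_right _ _).trans (le_max_right _ _)).trans hn
  · rintro ⟨n, hn⟩
    exact (JJ_inv n x y hn).1.1

end Pool.Agent.MP_750e50_lc
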