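import Pool.Agent.MP_750e50_lc.TreeAmen

/-!
# Narrow digraphs give limits of bounded index
-/

set_option autoImplicit false

open Filter Relation MeasureTheory ProbabilityTheory

namespace Pool.Agent.MP_750e50_lc

variable {X : Type}

/-- the digraph `D` is `s`-narrow on the finite set `A`: it leaves `A` through at most `s` points,
and `A` contains at most `s` pairwise disjoint closed sets -/
def NarrowOn (D : X → X → Prop) (A : Finset X) (s : ℕ) : Prop :=
  (∃ F : Finset X, F.card ≤ s ∧ ∀ v, v ∉ A → (∃ u ∈ A, D u v) → v ∈ F) ∧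
    ∀ B : Finset X, B ⊆ A → (∀ y ∈ B, (Rch D y : Set X) ⊆ A) →
      (∀ y ∈ B, ∀ y' ∈ B, y ≠ y' → Disjoint (Rch D y) (Rch D y')) → B.card ≤ s

section Count

variable {D : X → X → Prop} {c : X → ℕ} {N : ℕ} {φ : X → ℝ}

/-- **Counting.** There are few markers in a narrow finite set. -/
theorem card_markers_narrow (hc : ∀ x, c x < N) (hφ : Function.Injective φ) (A F : Finset X) {s : ℕ}
    (hF : F.card ≤ s) (hAF : ∀ v, v ∉ A → (∃ u ∈ A, D u v) → v ∈ F)
    (hinj : ∀ a ∈ A, ∀ b ∈ A, c a = c b → a = b)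
    (hU : ∀ B : Finset X, B ⊆ A → (∀ y ∈ B, (Rch D y : Set X) ⊆ A) →
      (∀ y ∈ B, ∀ y' ∈ B, y ≠ y' → Disjoint (Rch D y) (Rch D y')) → B.card ≤ s) :
    ∃ V : Finset X, V.card ≤ 3 * s ∧ ∀ y ∈ A, y ∈ Mk D c φ → y ∈ V := by
  classical
  -- the three kinds of markers
  let V1 : Finset X := A.filter fun y => c y ∈ F.image (sk D c)
  let V2 : Finset X := A.filter fun y => ∃ v ∈ F, ReflTransGen D y v ∧ ReflTransGen D v y ∧
    ∀ z, ReflTransGen D y z → φ y ≤ φ z
  let V3 : Finset X := A.filter fun y => (Rch D y : Set X) ⊆ A ∧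
    (∀ z, ReflTransGen D y z → ReflTransGen D z y) ∧ ∀ z, ReflTransGen D y z → φ y ≤ φ z
  have h1 : V1.card ≤ s := by
    have h2 : V1.card ≤ (F.image (sk D c)).card :=
      Finset.card_le_card_of_injOn c (fun y hy => (Finset.mem_filter.1 hy).2)
        fun y hy y' hy' h => hinj y (Finset.mem_filter.1 hy).1 y' (Finset.mem_filter.1 hy').1 h
    exact h2.trans (Finset.card_image_le.trans hF)
  have h2 : V2.card ≤ s := by
    have h3 : ∀ y, ∃ v, y ∈ V2 → v ∈ F ∧ ReflTransGen D y v ∧ ReflTransGen D v y ∧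
        ∀ z, ReflTransGen D y z → φ y ≤ φ z := by
      intro y
      by_cases hy : y ∈ V2
      · obtain ⟨v, hv, h4⟩ := (Finset.mem_filter.1 hy).2
        exact ⟨v, fun _ => ⟨hv, h4⟩⟩
      · exact ⟨y, fun h => absurd h hy⟩
    choose g hg using h3
    refine (Finset.card_le_card_of_injOn g (fun y hy => (hg y hy).1) fun y hy y' hy' h => ?_).trans
      hF
    obtain ⟨-, a1, a2, a3⟩ := hg y hy
    obtain ⟨-, b1, b2, b3⟩ := hg y' hy'
    rw [← h] at b1 b2
    exact hφ (le_antisymm (a3 _ (a1.trans b2)) (b3 _ (b1.trans a2)))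
  have h3 : V3.card ≤ s := by
    refine hU V3 (Finset.filter_subset _ _) (fun y hy => (Finset.mem_filter.1 hy).2.1)
      fun y hy y' hy' hne => ?_
    rw [Set.disjoint_left]
    intro z hz hz'
    apply hne
    obtain ⟨hyA, hy1, hy2, hy3⟩ := Finset.mem_filter.1 hy
    obtain ⟨hyA', hy1', hy2', hy3'⟩ := Finset.mem_filter.1 hy'
    have hz1 : ReflTransGen D y z := hz
    have hz2 : ReflTransGen D y' z := hz'
    exact hφ (le_antisymm (hy3 _ (hz1.trans (hy2' z hz2))) (hy3' _ (hz2.trans (hy2 z hz1))))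
  refine ⟨V1 ∪ V2 ∪ V3, ?_, fun y hy hM => ?_⟩
  · have h4 := Finset.card_union_le (V1 ∪ V2) V3
    have h5 := Finset.card_union_le V1 V2
    omega
  · rcases hM with ⟨hrec, hmin⟩ | ⟨hfin, hterm, hleast⟩
    · -- infinitely many points are reached through one of the arcs
      have hinf := Rec_inf hrec
      have hsk : sk D c y = c y := le_antisymm (sk_le hrec) (hmin _ (sk_spec hc hinf))
      have h4 : ∃ v ∈ F, ReflTransGen D y v ∧ Rec D c (c y) v := by
        by_contra hcon
        push Not at hcon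
        apply hrec
        have h5 : ((A : Set X) ∪ ⋃ v ∈ {v | v ∈ F ∧ ReflTransGen D y v},
            {z | ReflTransGen D v z ∧ c z = c y}).Finite := by
          refine A.finite_toSet.union (Set.Finite.biUnion (F.finite_toSet.subset fun v hv => hv.1)
            fun v hv => Set.not_infinite.1 (hcon v hv.1 hv.2))
        refine h5.subset ?_
        rintro z ⟨hz, hcz⟩
        rcases Rch_split (A := (A : Set X)) hy hz with h6 | ⟨v, hv, hu, h7, h8⟩
        · exact Or.inl h6
        · exact Or.inr (Set.mem_biUnion (show v ∈ {v | v ∈ F ∧ ReflTransGen D y v} from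
            ⟨hAF v hv hu, h7⟩) ⟨h8, hcz⟩)
      obtain ⟨v, hv, h5, h6⟩ := h4
      refine Finset.mem_union_left _ (Finset.mem_union_left _ (Finset.mem_filter.2 ⟨hy, ?_⟩))
      refine Finset.mem_image.2 ⟨v, hv, ?_⟩
      refine le_antisymm (sk_le h6) ?_
      rw [← hsk]
      exact sk_mono hc h5 (Rec_inf h6)
    · by_cases hsub : (Rch D y : Set X) ⊆ A
      · exact Finset.mem_union_right _ (Finset.mem_filter.2 ⟨hy, hsub, hterm, hleast⟩)
      · obtain ⟨z, hz, hzA⟩ := Set.not_subset.1 hsub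
        rcases Rch_split (A := (A : Set X)) hy hz with h6 | ⟨v, hv, hu, h7, h8⟩
        · exact absurd h6 hzA
        · refine Finset.mem_union_left _ (Finset.mem_union_right _ (Finset.mem_filter.2 ⟨hy, ?_⟩))
          exact ⟨v, hAF v hv hu, h7, hterm v h7, hleast⟩

end Count

variable [MeasurableSpace X] [StandardBorelSpace X]

/-- **Narrow digraphs.** If along an iterated Fréchet filter there are Borel digraphs which are
narrow on cofinally many finite subsets of each class, with a bound which depends on the class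
only, then `E` is a limit of bounded index. -/
theorem boundedIndexLimit_of_narrow {E : Setoid X} (hE : IsCBER E) {𝓕 : Filter ℕ}
    (h𝓕 : IterFrechet 𝓕) {D : ℕ → X → X → Prop}
    (hDm : ∀ i, MeasurableSet {p : X × X | D i p.1 p.2}) (hDE : ∀ i x y, D i x y → E.r x y)
    (hnar : ∀ x, ∃ s : ℕ, ∀ A0 : Finset X, (∀ a ∈ A0, E.r x a) →
      ∃ A : Finset X, A0 ⊆ A ∧ ∀ᶠ i in 𝓕, NarrowOn (D i) A s) : BoundedIndexLimit E := by
  classical
  obtain ⟨T, hT, hET⟩ := id hE
  obtain ⟨φ, hφ⟩ := MeasureTheory.exists_measurableEmbedding_real X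
  obtain ⟨c, N, hcm, hcN, hcs⟩ := exists_bits X
  choose p hpm hpE hp using fun i k => exists_flow hT hET (hDm i) (hDE i)
    (meas_Mk hT hET (hDm i) (hDE i) (hcm k) hφ.measurable)
    (fun x => Mk_reach (φ := φ) (hcN k) x)
  refine boundedIndexLimit_of_fun hE (iter_bind h𝓕 iter_map_pair)
    (p := fun m => p m.unpair.1 m.unpair.2) (fun m => hpm _ _) (fun m x => hpE _ _ _) fun x => ?_
  obtain ⟨s, hs⟩ := hnar x
  refine ⟨4 * s, fun a ha => ?_⟩
  obtain ⟨A, hA0, hev⟩ := hs (Finset.univ.image a) (by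
    intro u hu
    obtain ⟨j, -, rfl⟩ := Finset.mem_image.1 hu
    exact ha j)
  have haA : ∀ j, a j ∈ A := fun j => hA0 (Finset.mem_image_of_mem a (Finset.mem_univ j))
  have h2 : ∀ᶠ k in atTop, ∀ u ∈ A, ∀ v ∈ A, c k u = c k v → u = v := by
    rw [Filter.eventually_all_finset]
    intro u _
    rw [Filter.eventually_all_finset]
    intro v _
    by_cases huv : u = v
    · exact Eventually.of_forall fun _ _ => huv
    · exact (hcs u v huv).mono fun k hk h => absurd h hk
  rw [Filter.eventually_iff, Filter.mem_bind']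
  refine hev.mono fun i hi => ?_
  show _ ∈ Filter.map (Nat.pair i) atTop
  rw [Filter.mem_map]
  refine h2.mono fun k hk => ?_
  show ∃ j j', j ≠ j' ∧ p (Nat.pair i k).unpair.1 (Nat.pair i k).unpair.2 (a j) =
    p (Nat.pair i k).unpair.1 (Nat.pair i k).unpair.2 (a j')
  simp only [Nat.unpair_pair]
  obtain ⟨⟨F, hF, hAF⟩, hU⟩ := hi
  obtain ⟨V, hV, hVM⟩ := card_markers_narrow (φ := φ) (hcN k) hφ.injective A F hF hAF hk hU
  have h3 : ∀ j, p i k (a j) ∈ V ∪ F.image (p i k) := by
    intro j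
    rcases hp i k (A : Set X) (a j) (haA j) with ⟨h4, h5⟩ | ⟨u, hu, v, hv, h4, h5⟩
    · exact Finset.mem_union_left _ (hVM _ h4 h5)
    · refine Finset.mem_union_right _ ?_
      rw [h5]
      exact Finset.mem_image_of_mem _ (hAF v hv ⟨u, hu, h4⟩)
  have h4 : (V ∪ F.image (p i k)).card ≤ 4 * s := by
    have h5 := Finset.card_union_le V (F.image (p i k))
    have h6 := Finset.card_image_le (s := F) (f := p i k)
    omega
  have hlt : Fintype.card (V ∪ F.image (p i k) : Finset X) < Fintype.card (Fin (4 * s + 1)) := by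
    rw [Fintype.card_coe, Fintype.card_fin]
    omega
  obtain ⟨j, j', hjj, h9⟩ := Fintype.exists_ne_map_eq_of_card_lt
    (fun k' : Fin (4 * s + 1) => (⟨p i k (a k'), h3 k'⟩ : (V ∪ F.image (p i k) : Finset X))) hlt
  exact ⟨j, j', hjj, congrArg Subtype.val h9⟩

end Pool.Agent.MP_750e50_lc
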