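import Pool.Agent.MP_750e50_lc.Main

/-!
# From capturing homomorphisms to centres; the implications between the guessing properties
-/

set_option autoImplicit false

open Filter

namespace Pool.Agent.MP_750e50_lc

variable {X : Type} [MeasurableSpace X]

/-- the bound for the stages which belong to `n` -/
def MM (h : ℕ → ℕ) (n : ℕ) : ℕ := (n + h n + 1) ^ 2

theorem pair_le_MM (h : ℕ → ℕ) (n i : ℕ) (hi : i < h n) : Nat.pair n i ≤ MM h n := by
  have h1 := Nat.pair_lt_max_add_one_sq n i
  have h2 : (max n i + 1) ^ 2 ≤ (n + h n + 1) ^ 2 := by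
    have h3 : max n i ≤ n + h n := by omega
    exact Nat.pow_le_pow_left (by omega) 2
  unfold MM
  omega

/-- **Capturing one sequence of colourings suffices.** -/
theorem hyperfinite_of_capture [StandardBorelSpace X] {E : Setoid X} {T : ℕ → X → X}
    (hT : ∀ n, Measurable (T n)) (hET : ∀ x y, E.r x y ↔ ∃ n, T n x = y)
    {h : ℕ → ℕ} {c : ℕ → X → ℕ} (hc : ∀ n, Measurable (c n))
    (hcol : ∀ n x y, Near T (MM h n) (DD (MM h n + 1)) x y → c n x = c n y → x = y)
    {S : X → ℕ → Finset ℕ} (hS : IsSetHom E S) (hcard : ∀ x n, (S x n).card ≤ h n)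
    (hinf : ∀ x, ∃ᶠ n in atTop, c n x ∈ S x n) : Hyperfinite E := by
  classical
  let g : X → ℕ → ℕ := fun x m =>
    if m.unpair.2 < h m.unpair.1 then enum (S x m.unpair.1) m.unpair.2 else 0
  let cc : X → ℕ → ℕ := fun x m => if m.unpair.2 < h m.unpair.1 then c m.unpair.1 x else 1
  refine hyperfinite_of_centres (g := g) (c := cc) hT hET ⟨?_, ?_⟩ ?_ ?_ ?_
  · refine measurable_pi_iff.2 fun m => ?_
    by_cases hm : m.unpair.2 < h m.unpair.1
    · simp only [g, if_pos hm]
      exact meas_comp_finset (hS.1 m.unpair.1) fun s => enum s m.unpair.2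
    · simp only [g, if_neg hm]
      exact measurable_const
  · intro x y hxy
    obtain ⟨N, hN⟩ := eventually_atTop.1 (hS.2 x y hxy)
    refine eventually_atTop.2 ⟨∑ n ∈ Finset.range N, MM h n + 1, fun m hm => ?_⟩
    by_cases hi : m.unpair.2 < h m.unpair.1
    · simp only [g, if_pos hi]
      have h1 : N ≤ m.unpair.1 := by
        by_contra hlt
        have h2 := pair_le_MM h _ _ hi
        rw [Nat.pair_unpair] at h2
        have h3 := Finset.single_le_sum (f := MM h) (fun _ _ => Nat.zero_le _)
          (Finset.mem_range.2 (not_le.1 hlt))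
        omega
      rw [hN _ h1]
    · simp only [g, if_neg hi]
  · refine measurable_pi_iff.2 fun m => ?_
    by_cases hm : m.unpair.2 < h m.unpair.1
    · simp only [cc, if_pos hm]
      exact hc _
    · simp only [cc, if_neg hm]
      exact measurable_const
  · intro m a a' h1 h2 h3 h4
    by_cases hm : m.unpair.2 < h m.unpair.1
    · have h5 : c m.unpair.1 a = c m.unpair.1 a' := by
        have e1 : cc a m = c m.unpair.1 a := if_pos hm
        have e2 : cc a' m = c m.unpair.1 a' := if_pos hm
        rw [← e1, ← e2, h1, h2, h3]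
      refine hcol _ a a' ?_ h5
      have h6 := pair_le_MM h _ _ hm
      rw [Nat.pair_unpair] at h6
      exact (h4.mono_n h6).mono_r (DD_mono (by omega))
    · have e1 : cc a m = 1 := if_neg hm
      have e2 : g a m = 0 := if_neg hm
      rw [e1, e2] at h1
      exact absurd h1 one_ne_zero
  · intro x
    rw [frequently_atTop]
    intro N
    obtain ⟨n, hn, hmem⟩ := frequently_atTop.1 (hinf x) N
    obtain ⟨i, hi, hval⟩ := exists_enum hmem
    have hi' : i < h n := lt_of_lt_of_le hi (hcard x n)
    refine ⟨Nat.pair n i, hn.trans (Nat.left_le_pair n i), ?_⟩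
    simp only [cc, g, Nat.unpair_pair]
    rw [if_pos hi', if_pos hi', hval]

/-- **A single width which captures all bounded functions suffices.** -/
theorem hyperfinite_of_weaklyGuessable [StandardBorelSpace X] {E : Setoid X} (hE : IsCBER E)
    {h : ℕ → ℕ} (hW : WeaklyGuessable E h) : Hyperfinite E := by
  obtain ⟨T, hT, hET⟩ := hE
  choose k c hc hck hcol using fun n => exists_near_colour hT (MM h n) (DD (MM h n + 1))
  obtain ⟨S, hS, hcard, hinf⟩ := hW k (fun x n => c n x) (measurable_pi_iff.2 hc)
    (fun x n => hck n x)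
  exact hyperfinite_of_capture hT hET hc hcol hS hcard hinf

/-- **Any width which depends on the function only suffices, with a parameter in `ℕ^ℕ`.** -/
theorem hyperfinite_of_uniformlyGuessable [StandardBorelSpace X] {E : Setoid X} (hE : IsCBER E)
    (hU : UniformlyGuessable (timesDiag E)) : Hyperfinite E := by
  obtain ⟨T, hT, hET⟩ := hE
  choose k c hc hck hcol using fun n j =>
    exists_near_colour hT ((n + j + 1) ^ 2) (DD ((n + j + 1) ^ 2 + 1))
  obtain ⟨h, S, hS, hcard, hinf⟩ := hU (fun p n => c n (p.2 n) p.1) (measurable_pi_iff.2 fun n => by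
    have h1 : ∀ j, Measurable fun p : X × (ℕ → ℕ) => c n j p.1 := fun j =>
      (hc n j).comp measurable_fst
    exact meas_diag h1 ((measurable_pi_apply n).comp measurable_snd))
  refine hyperfinite_of_capture (h := h) (c := fun n => c n (h n)) hT hET (fun n => hc n (h n))
    (fun n x y => hcol n (h n) x y) (S := fun x => S (x, h)) ⟨fun n v => ?_, fun x y hxy => ?_⟩
    (fun x n => hcard (x, h) n) (fun x => hinf (x, h))
  · exact (measurable_id.prodMk measurable_const) (hS.1 n v)
  · exact hS.2 (x, h) (y, h) ⟨hxy, rfl⟩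

/-- guessing implies capturing with singletons -/
theorem weaklyGuessable_of_guessable {E : Setoid X} (hG : Guessable E) :
    WeaklyGuessable E (fun _ => 1) := by
  intro b f hf _
  obtain ⟨g, hg, hinf⟩ := hG f hf
  refine ⟨fun x n => {g x n}, ⟨fun n v => ?_, fun x y hxy => ?_⟩, fun x n => ?_, fun x => ?_⟩
  · have h1 : {x | v ∈ ({g x n} : Finset ℕ)} = (fun x => g x n) ⁻¹' {v} := by
      ext x
      simp only [Finset.mem_singleton, Set.mem_ofPred_eq, Set.mem_preimage,
        Set.mem_singleton_iff]
      exact eq_comm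
    rw [h1]
    exact (measurable_pi_iff.1 hg.1 n) (measurableSet_singleton v)
  · exact (hg.2 x y hxy).mono fun n hn => by
      show ({g x n} : Finset ℕ) = {g y n}
      rw [hn]
  · simp
  · exact (hinf x).mono fun n hn => by
      rw [hn]
      exact Finset.mem_singleton_self _

/-- injections of the finite sequences into the natural numbers -/
noncomputable def cod (k : ℕ) : (Fin (k + 1) → ℕ) → ℕ :=
  (exists_injective_nat (Fin (k + 1) → ℕ)).choose

theorem cod_inj (k : ℕ) : Function.Injective (cod k) :=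
  (exists_injective_nat (Fin (k + 1) → ℕ)).choose_spec

/-- localisation with width `n + 1` implies guessing -/
theorem guessable_of_localizable {E : Setoid X} (hL : Localizable E (fun n => n + 1)) :
    Guessable E := by
  classical
  intro f hf
  have hfm : ∀ m, Measurable fun x => f x m := fun m => measurable_pi_iff.1 hf m
  obtain ⟨S, hS, hcard, hmem⟩ := hL
    (fun x k => cod k fun j => f x (Nat.pair k j)) (measurable_pi_iff.2 fun k =>
      (Measurable.of_discrete (f := cod k)).comp (measurable_pi_iff.2 fun j => hfm _))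
  let dec : (k : ℕ) → ℕ → (Fin (k + 1) → ℕ) := fun k => Function.invFun (cod k)
  let g : X → ℕ → ℕ := fun x m =>
    if hm : m.unpair.2 < m.unpair.1 + 1 then
      dec m.unpair.1 (enum (S x m.unpair.1) m.unpair.2) ⟨m.unpair.2, hm⟩ else 0
  refine ⟨g, ⟨measurable_pi_iff.2 fun m => ?_, fun x y hxy => ?_⟩, fun x => ?_⟩
  · by_cases hm : m.unpair.2 < m.unpair.1 + 1
    · simp only [g, dif_pos hm]
      exact meas_comp_finset (hS.1 m.unpair.1) fun s =>
        dec m.unpair.1 (enum s m.unpair.2) ⟨m.unpair.2, hm⟩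
    · simp only [g, dif_neg hm]
      exact measurable_const
  · obtain ⟨N, hN⟩ := eventually_atTop.1 (hS.2 x y hxy)
    refine eventually_atTop.2 ⟨∑ n ∈ Finset.range N, MM (fun n => n + 1) n + 1, fun m hm => ?_⟩
    by_cases hi : m.unpair.2 < m.unpair.1 + 1
    · simp only [g, dif_pos hi]
      have h1 : N ≤ m.unpair.1 := by
        by_contra hlt
        have h2 := pair_le_MM (fun n => n + 1) _ _ hi
        rw [Nat.pair_unpair] at h2
        have h3 := Finset.single_le_sum (f := MM fun n => n + 1) (fun _ _ => Nat.zero_le _)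
          (Finset.mem_range.2 (not_le.1 hlt))
        omega
      rw [hN _ h1]
    · simp only [g, dif_neg hi]
  · rw [frequently_atTop]
    intro N
    obtain ⟨K, hK⟩ := eventually_atTop.1 (hmem x)
    obtain ⟨j, hj, hval⟩ := exists_enum (hK (max N K) (le_max_right _ _))
    set k := max N K with hk
    have hj' : j < k + 1 := lt_of_lt_of_le hj (hcard x k)
    refine ⟨Nat.pair k j, (le_max_left N K).trans (Nat.left_le_pair k j), ?_⟩
    have h1 : g x (Nat.pair k j) = dec k (enum (S x k) j) ⟨j, hj'⟩ := by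
      simp only [g]
      have h2 : ∀ (p : ℕ × ℕ), p = (k, j) → ∀ (q : p.2 < p.1 + 1),
          dec p.1 (enum (S x p.1) p.2) ⟨p.2, q⟩ = dec k (enum (S x k) j) ⟨j, hj'⟩ := by
        rintro _ rfl _
        rfl
      have h3 : (Nat.pair k j).unpair = (k, j) := Nat.unpair_pair k j
      rw [dif_pos (by rw [h3]; exact hj')]
      exact h2 _ h3 _
    rw [h1, hval]
    simp only [dec]
    rw [Function.leftInverse_invFun (cod_inj k)]

/-- the values of `f · n` on the class of `x` -/
noncomputable def vals (F : ℕ → Setoid X) (hfin : ∀ n x, {y | (F n).r x y}.Finite)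
    (f : X → ℕ → ℕ) (n k : ℕ) (x : X) : Finset ℕ :=
  ((hfin k x).image fun y => f y n).toFinset

omit [MeasurableSpace X] in
theorem mem_vals (F : ℕ → Setoid X) (hfin : ∀ n x, {y | (F n).r x y}.Finite)
    (f : X → ℕ → ℕ) (n k : ℕ) (x : X) (v : ℕ) :
    v ∈ vals F hfin f n k x ↔ ∃ y, (F k).r x y ∧ f y n = v := by
  unfold vals
  rw [Set.Finite.mem_toFinset]
  rfl

omit [MeasurableSpace X] in
theorem vals_congr (F : ℕ → Setoid X) (hfin : ∀ n x, {y | (F n).r x y}.Finite)
    (f : X → ℕ → ℕ) (n k : ℕ) {x y : X} (h : (F k).r x y) :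
    vals F hfin f n k x = vals F hfin f n k y := by
  ext v
  rw [mem_vals, mem_vals]
  constructor
  · rintro ⟨z, h1, h2⟩
    exact ⟨z, (F k).trans' ((F k).symm' h) h1, h2⟩
  · rintro ⟨z, h1, h2⟩
    exact ⟨z, (F k).trans' h h1, h2⟩

open Classical in
/-- the localising sets -/
noncomputable def loc (F : ℕ → Setoid X) (hfin : ∀ n x, {y | (F n).r x y}.Finite)
    (f : X → ℕ → ℕ) (h : ℕ → ℕ) (x : X) (n : ℕ) : Finset ℕ :=
  if (vals F hfin f n (Nat.findGreatest (fun k => (vals F hfin f n k x).card ≤ h n) n) x).card ≤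
      h n then
    vals F hfin f n (Nat.findGreatest (fun k => (vals F hfin f n k x).card ≤ h n) n) x else ∅

theorem localizable_of_hyperfinite {E : Setoid X} (hE : IsCBER E)
    (hH : Hyperfinite E) {h : ℕ → ℕ} (hh : Tendsto h atTop atTop) : Localizable E h := by
  classical
  obtain ⟨T, hT, hET⟩ := hE
  obtain ⟨F, hFm, hfin, hmono, hFE⟩ := hH
  have hmono' : ∀ {k l : ℕ} {x y : X}, k ≤ l → (F k).r x y → (F l).r x y := by
    intro k l x y hkl hxy
    induction hkl with
    | refl => exact hxy
    | step _ ih => exact hmono _ _ _ ih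
  intro f hf
  have hfm : ∀ m, Measurable fun x => f x m := fun m => measurable_pi_iff.1 hf m
  have hvals : ∀ n k v, MeasurableSet {x | v ∈ vals F hfin f n k x} := by
    intro n k v
    have h1 : {x | v ∈ vals F hfin f n k x} =
        ⋃ i : ℕ, {x | (F k).r x (T i x)} ∩ {x | f (T i x) n = v} := by
      ext x
      simp only [Set.mem_iUnion, Set.mem_inter_iff, Set.mem_ofPred_eq]
      rw [mem_vals]
      constructor
      · rintro ⟨y, h1, h2⟩
        obtain ⟨i, rfl⟩ := (hET x y).1 ((hFE x y).2 ⟨k, h1⟩)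
        exact ⟨i, h1, h2⟩
      · rintro ⟨i, h1, h2⟩
        exact ⟨_, h1, h2⟩
    rw [h1]
    refine MeasurableSet.iUnion fun i => (meas_rel (hFm k) measurable_id (hT i)).inter ?_
    exact ((hfm n).comp (hT i)) (measurableSet_singleton v)
  have hP : ∀ n k, MeasurableSet {x | (vals F hfin f n k x).card ≤ h n} := by
    intro n k
    have h1 : Measurable fun x => (vals F hfin f n k x).card :=
      meas_comp_finset (hvals n k) Finset.card
    exact measurableSet_le h1 measurable_const
  have hkey : ∀ x y, E.r x y → ∀ᶠ n in atTop, ∃ k, (F k).r x y ∧ k ≤ n ∧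
      (vals F hfin f n k x).card ≤ h n := by
    intro x y hxy
    obtain ⟨k, hk⟩ := (hFE x y).1 hxy
    have h1 : ∀ᶠ n in atTop, (hfin k x).toFinset.card ≤ h n := hh.eventually_ge_atTop _
    filter_upwards [h1, eventually_ge_atTop k] with n hn1 hn2
    refine ⟨k, hk, hn2, le_trans ?_ hn1⟩
    have h2 : vals F hfin f n k x = ((hfin k x).toFinset).image fun y => f y n := by
      ext v
      rw [mem_vals, Finset.mem_image]
      simp only [Set.Finite.mem_toFinset, Set.mem_ofPred_eq]
    rw [h2]
    exact Finset.card_image_le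
  refine ⟨loc F hfin f h, ⟨fun n v => ?_, fun x y hxy => ?_⟩, fun x n => ?_, fun x => ?_⟩
  · have h1 : {x | v ∈ loc F hfin f h x n} = ⋃ k ∈ Set.Iic n,
        (({x | Nat.findGreatest (fun k => (vals F hfin f n k x).card ≤ h n) n = k} ∩
          {x | (vals F hfin f n k x).card ≤ h n}) ∩ {x | v ∈ vals F hfin f n k x}) := by
      ext x
      simp only [Set.mem_iUnion, Set.mem_inter_iff, Set.mem_ofPred_eq, Set.mem_Iic,
        exists_prop, loc]
      constructor
      · intro hv
        split_ifs at hv with h2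
        · exact ⟨_, Nat.findGreatest_le n, ⟨rfl, h2⟩, hv⟩
        · exact absurd hv (Finset.notMem_empty v)
      · rintro ⟨k, -, ⟨rfl, h2⟩, h3⟩
        rw [if_pos h2]
        exact h3
    rw [h1]
    refine MeasurableSet.biUnion (Set.to_countable _) fun k _ => ?_
    refine (MeasurableSet.inter ?_ (hP n k)).inter (hvals n k v)
    have h2 : Measurable fun x =>
        Nat.findGreatest (fun k => (vals F hfin f n k x).card ≤ h n) n :=
      measurable_findGreatest fun k _ => hP n k
    exact h2 (measurableSet_singleton k)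
  · filter_upwards [hkey x y hxy, hkey y x (E.symm' hxy)] with n hn hn'
    obtain ⟨k, hk, hkn, hc⟩ := hn
    obtain ⟨k', hk', hkn', hc'⟩ := hn'
    -- above the smaller of the two indices all values agree
    have hagree : ∀ l, k ≤ l ∨ k' ≤ l → vals F hfin f n l x = vals F hfin f n l y := by
      intro l hl
      apply vals_congr
      rcases hl with hl | hl
      · exact hmono' hl hk
      · exact hmono' hl ((F k').symm' hk')
    have e1 : k ≤ Nat.findGreatest (fun k => (vals F hfin f n k x).card ≤ h n) n :=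
      Nat.le_findGreatest hkn hc
    have e2 : k' ≤ Nat.findGreatest (fun k => (vals F hfin f n k y).card ≤ h n) n :=
      Nat.le_findGreatest hkn' hc'
    have e3 : Nat.findGreatest (fun k => (vals F hfin f n k x).card ≤ h n) n =
        Nat.findGreatest (fun k => (vals F hfin f n k y).card ≤ h n) n := by
      apply le_antisymm
      · refine Nat.le_findGreatest (Nat.findGreatest_le n) ?_
        rw [← hagree _ (Or.inl e1)]
        exact Nat.findGreatest_spec (P := fun k => (vals F hfin f n k x).card ≤ h n) hkn hc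
      · refine Nat.le_findGreatest (Nat.findGreatest_le n) ?_
        rw [hagree _ (Or.inr e2)]
        exact Nat.findGreatest_spec (P := fun k => (vals F hfin f n k y).card ≤ h n) hkn' hc'
    unfold loc
    rw [← e3, hagree _ (Or.inl e1)]
  · unfold loc
    split_ifs with h2
    · exact h2
    · simp
  · filter_upwards [hkey x x (E.refl' x)] with n hn
    obtain ⟨k, hk, hkn, hc⟩ := hn
    have h2 := Nat.findGreatest_spec (P := fun k => (vals F hfin f n k x).card ≤ h n) hkn hc
    unfold loc
    rw [if_pos h2, mem_vals]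
    exact ⟨x, (F _).refl' x, rfl⟩

theorem isCBER_timesDiag {E : Setoid X} (hE : IsCBER E) : IsCBER (timesDiag E) := by
  obtain ⟨T, hT, hET⟩ := hE
  refine ⟨fun n p => (T n p.1, p.2), fun n => ((hT n).comp measurable_fst).prodMk measurable_snd,
    fun p q => ⟨?_, ?_⟩⟩
  · rintro ⟨h1, h2⟩
    obtain ⟨n, hn⟩ := (hET _ _).1 h1
    exact ⟨n, Prod.ext hn h2⟩
  · rintro ⟨n, rfl⟩
    exact ⟨(hET _ _).2 ⟨n, rfl⟩, rfl⟩

theorem hyperfinite_timesDiag {E : Setoid X} (hH : Hyperfinite E) :
    Hyperfinite (timesDiag E) := by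
  obtain ⟨F, hFm, hfin, hmono, hFE⟩ := hH
  refine ⟨fun n => timesDiag (F n), fun n => ?_, fun n p => ?_, fun n p q h => ⟨hmono _ _ _ h.1, h.2⟩,
    fun p q => ⟨?_, ?_⟩⟩
  · have h1 : {p : (X × (ℕ → ℕ)) × (X × (ℕ → ℕ)) | (timesDiag (F n)).r p.1 p.2} =
        {p : (X × (ℕ → ℕ)) × (X × (ℕ → ℕ)) | (F n).r p.1.1 p.2.1} ∩
          {p : (X × (ℕ → ℕ)) × (X × (ℕ → ℕ)) | p.1.2 = p.2.2} := rfl
    rw [h1]
    exact (meas_rel (hFm n) (measurable_fst.comp measurable_fst)
      (measurable_fst.comp measurable_snd)).inter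
        (measurableSet_eq_fun (measurable_snd.comp measurable_fst)
          (measurable_snd.comp measurable_snd))
  · refine ((hfin n p.1).image fun y => (y, p.2)).subset ?_
    rintro q ⟨h1, h2⟩
    exact ⟨q.1, h1, Prod.ext rfl h2⟩
  · rintro ⟨h1, h2⟩
    obtain ⟨n, hn⟩ := (hFE _ _).1 h1
    exact ⟨n, hn, h2⟩
  · rintro ⟨n, h1, h2⟩
    exact ⟨(hFE _ _).2 ⟨n, h1⟩, h2⟩

theorem uniformlyGuessable_timesDiag {E : Setoid X} (hE : IsCBER E) (hH : Hyperfinite E) :
    UniformlyGuessable (timesDiag E) := by
  intro f hf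
  obtain ⟨S, hS, hcard, hmem⟩ := localizable_of_hyperfinite (isCBER_timesDiag hE)
    (hyperfinite_timesDiag hH) (tendsto_add_atTop_nat 1) f hf
  exact ⟨_, S, hS, hcard, fun x => (hmem x).frequently⟩

end Pool.Agent.MP_750e50_lc
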