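import Pool.Agent.MP_750e50_lc.Forest

/-!
# Treeable amenable equivalence relations are limits of bounded index
-/

set_option autoImplicit false

open Filter Relation MeasureTheory ProbabilityTheory

namespace Pool.Agent.MP_750e50_lc

variable {X : Type} [MeasurableSpace X]

/-- `E` is treeable: its classes are the connected components of an acyclic Borel graph. -/
def Treeable (E : Setoid X) : Prop :=
  ∃ G : SimpleGraph X, MeasurableSet {p : X × X | G.Adj p.1 p.2} ∧ G.IsAcyclic ∧
    ∀ x y, E.r x y ↔ G.Reachable x y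

/-- `E` is Fréchet-amenable (Jackson-Kechris-Louveau): along an iterated Fréchet filter there are
Borel assignments `x ↦ κ i x` of probability measures on the class of `x` such that the total
variation distance of `κ i x` and `κ i y` converges to `0` whenever `x E y`. -/
def FrechetAmenable (E : Setoid X) : Prop :=
  ∃ 𝓕 : Filter ℕ, IterFrechet 𝓕 ∧ ∃ κ : ℕ → Kernel X X, (∀ i, IsMarkovKernel (κ i)) ∧
    (∀ i x, κ i x {y | ¬ E.r x y} = 0) ∧ ∀ x y, E.r x y → ∀ ε > 0, ∀ᶠ i in 𝓕,
      ∀ S : Set X, MeasurableSet S → |(κ i x).real S - (κ i y).real S| < ε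

variable [StandardBorelSpace X]

/-- limits of bounded index from Borel functions -/
theorem boundedIndexLimit_of_fun {E : Setoid X} (hE : IsCBER E) {𝓕 : Filter ℕ}
    (h𝓕 : IterFrechet 𝓕) {p : ℕ → X → X} (hpm : ∀ i, Measurable (p i))
    (hpE : ∀ i x, E.r x (p i x))
    (hlim : ∀ x, ∃ s : ℕ, ∀ a : Fin (s + 1) → X, (∀ k, E.r x (a k)) →
      ∀ᶠ i in 𝓕, ∃ j k, j ≠ k ∧ p i (a j) = p i (a k)) : BoundedIndexLimit E := by
  classical
  obtain ⟨T, hT, hET⟩ := id hE
  let P : ℕ → Setoid X := fun m => ⟨fun x y => x = y ∨ (p m.unpair.1 x = p m.unpair.1 y ∧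
      (∃ j ≤ m.unpair.2, T j (p m.unpair.1 x) = x) ∧ ∃ j ≤ m.unpair.2, T j (p m.unpair.1 y) = y),
    fun x => Or.inl rfl, by
      rintro x y (h | ⟨h1, h2, h3⟩)
      · exact Or.inl h.symm
      · exact Or.inr ⟨h1.symm, h3, h2⟩, by
      rintro x y z (h | ⟨h1, h2, h3⟩) (h' | ⟨h1', h2', h3'⟩)
      · exact Or.inl (h.trans h')
      · subst h
        exact Or.inr ⟨h1', h2', h3'⟩
      · subst h'
        exact Or.inr ⟨h1, h2, h3⟩
      · exact Or.inr ⟨h1.trans h1', h2, h3'⟩⟩
  refine ⟨Filter.bind 𝓕 fun i => Filter.map (Nat.pair i) atTop, iter_bind h𝓕 iter_map_pair, P,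
    fun m => ?_, fun m x => ?_, fun x => ?_⟩
  · have h1 : MeasurableSet {x : X | ∃ j ≤ m.unpair.2, T j (p m.unpair.1 x) = x} := by
      refine measurableSet_setOfPred.2 ?_
      refine Measurable.exists fun j => Measurable.and measurable_const ?_
      exact measurableSet_setOfPred.1 (measurableSet_eq_fun ((hT j).comp (hpm _)) measurable_id)
    have h2 : {q : X × X | (P m).r q.1 q.2} = {q : X × X | q.1 = q.2} ∪
        ({q : X × X | p m.unpair.1 q.1 = p m.unpair.1 q.2} ∩
          ((Prod.fst ⁻¹' {x : X | ∃ j ≤ m.unpair.2, T j (p m.unpair.1 x) = x}) ∩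
            (Prod.snd ⁻¹' {x : X | ∃ j ≤ m.unpair.2, T j (p m.unpair.1 x) = x}))) := by
      ext q
      exact Iff.rfl
    rw [h2]
    refine (measurableSet_eq_fun measurable_fst measurable_snd).union ?_
    refine MeasurableSet.inter ?_ ((measurable_fst h1).inter (measurable_snd h1))
    exact measurableSet_eq_fun ((hpm _).comp measurable_fst) ((hpm _).comp measurable_snd)
  · have h1 : ({x} ∪ (fun j => T j (p m.unpair.1 x)) '' Set.Iic m.unpair.2).Finite :=
      (Set.finite_singleton x).union ((Set.finite_Iic _).image _)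
    refine h1.subset ?_
    rintro y (h | ⟨h1, -, ⟨j, hj, h4⟩⟩)
    · exact Or.inl h.symm
    · refine Or.inr ⟨j, hj, ?_⟩
      show T j (p m.unpair.1 x) = y
      rw [h1]
      exact h4
  · obtain ⟨s, hs⟩ := hlim x
    refine ⟨s, fun a ha => ?_⟩
    rw [Filter.eventually_iff, Filter.mem_bind']
    refine (hs a ha).mono fun i hi => ?_
    obtain ⟨j, k, hjk, h3⟩ := hi
    have h4 : ∀ k, ∃ m, T m (p i (a k)) = a k := fun k => (hET _ _).1 (E.symm' (hpE i (a k)))
    obtain ⟨m, hm⟩ := h4 j
    obtain ⟨m', hm'⟩ := h4 k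
    show _ ∈ Filter.map (Nat.pair i) atTop
    rw [Filter.mem_map]
    refine Filter.mem_of_superset (Filter.Ici_mem_atTop (m + m')) fun r hr => ?_
    have hr' : m + m' ≤ r := hr
    refine ⟨j, k, hjk, Or.inr ⟨?_, ⟨m, ?_, ?_⟩, ⟨m', ?_, ?_⟩⟩⟩
    all_goals simp only [Nat.unpair_pair]
    · exact h3
    · omega
    · exact hm
    · omega
    · exact hm'

/-- bounded Borel colourings which separate points eventually -/
theorem exists_bits (X : Type) [MeasurableSpace X] [StandardBorelSpace X] :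
    ∃ (c : ℕ → X → ℕ) (N : ℕ → ℕ), (∀ k, Measurable (c k)) ∧ (∀ k x, c k x < N k) ∧
      ∀ x y, x ≠ y → ∀ᶠ k in atTop, c k x ≠ c k y := by
  classical
  obtain ⟨b, hb, hinj⟩ := MeasurableSpace.measurable_injection_nat_bool_of_countablySeparated X
  refine ⟨fun k x => (Fintype.equivFin (Fin k → Bool) fun j => b x j).val,
    fun k => Fintype.card (Fin k → Bool), fun k => ?_, fun k x => Fin.is_lt _, fun x y hxy => ?_⟩
  · have h1 : Measurable fun x => (fun j : Fin k => b x j) :=
      measurable_pi_iff.2 fun j => (measurable_pi_apply _).comp hb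
    exact (Measurable.of_discrete
      (f := fun g : Fin k → Bool => (Fintype.equivFin (Fin k → Bool) g).val)).comp h1
  · obtain ⟨j, hj⟩ := Function.ne_iff.1 fun h => hxy (hinj h)
    filter_upwards [eventually_gt_atTop j] with k hk heq
    have h1 := (Fintype.equivFin (Fin k → Bool)).injective (Fin.ext heq)
    exact hj (congrFun h1 ⟨j, hk⟩)

section Sides

variable {G : SimpleGraph X}

theorem meas_sides {E : Setoid X} {T : ℕ → X → X} (hT : ∀ n, Measurable (T n))
    (hET : ∀ x y, E.r x y ↔ ∃ n, T n x = y)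
    (hGm : MeasurableSet {p : X × X | G.Adj p.1 p.2}) (hGE : ∀ x y, G.Adj x y → E.r x y) :
    MeasurableSet {q : (X × X) × X | q.2 ∈ Side G q.1.1 q.1.2} := by
  have h1 : ∀ n, MeasurableSet {q : (X × X) × (X × X) |
      Wk (fun a b => G.Adj a b ∧ s(a, b) ≠ s(q.1.1, q.1.2)) n q.2.1 q.2.2} := by
    intro n
    induction n with
    | zero =>
      exact measurableSet_eq_fun (measurable_fst.comp measurable_snd)
        (measurable_snd.comp measurable_snd)
    | succ n ih =>
      have h2 : {q : (X × X) × (X × X) |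
          Wk (fun a b => G.Adj a b ∧ s(a, b) ≠ s(q.1.1, q.1.2)) (n + 1) q.2.1 q.2.2} =
          {q : (X × X) × (X × X) | ∃ j : ℕ, (G.Adj q.2.1 (T j q.2.1) ∧
            ¬ ((q.2.1 = q.1.1 ∧ T j q.2.1 = q.1.2) ∨ (q.2.1 = q.1.2 ∧ T j q.2.1 = q.1.1))) ∧
            Wk (fun a b => G.Adj a b ∧ s(a, b) ≠ s(q.1.1, q.1.2)) n (T j q.2.1) q.2.2} := by
        ext q
        constructor
        · rintro ⟨w, ⟨h2, h3⟩, h4⟩
          obtain ⟨j, rfl⟩ := (hET _ _).1 (hGE _ _ h2)
          exact ⟨j, ⟨h2, fun h => h3 (Sym2.eq_iff.2 h)⟩, h4⟩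
        · rintro ⟨j, ⟨h2, h3⟩, h4⟩
          exact ⟨_, ⟨h2, fun h => h3 (Sym2.eq_iff.1 h)⟩, h4⟩
      rw [h2]
      have m1 : Measurable fun q : (X × X) × (X × X) => q.1.1 := measurable_fst.comp measurable_fst
      have m2 : Measurable fun q : (X × X) × (X × X) => q.1.2 := measurable_snd.comp measurable_fst
      have m3 : Measurable fun q : (X × X) × (X × X) => q.2.1 := measurable_fst.comp measurable_snd
      have m4 : Measurable fun q : (X × X) × (X × X) => q.2.2 := measurable_snd.comp measurable_snd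
      refine measurableSet_setOfPred.2 (Measurable.exists fun j => Measurable.and
        (Measurable.and ?_ (Measurable.not (Measurable.or (Measurable.and ?_ ?_)
          (Measurable.and ?_ ?_)))) ?_)
      · exact measurableSet_setOfPred.1 (meas_rel hGm m3 ((hT j).comp m3))
      · exact measurableSet_setOfPred.1 (measurableSet_eq_fun m3 m1)
      · exact measurableSet_setOfPred.1 (measurableSet_eq_fun ((hT j).comp m3) m2)
      · exact measurableSet_setOfPred.1 (measurableSet_eq_fun m3 m2)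
      · exact measurableSet_setOfPred.1 (measurableSet_eq_fun ((hT j).comp m3) m1)
      · have h3 : Measurable fun q : (X × X) × (X × X) => (q.1, (T j q.2.1, q.2.2)) :=
          measurable_fst.prodMk (((hT j).comp m3).prodMk m4)
        exact measurableSet_setOfPred.1 (h3 ih)
  have h2 : {q : (X × X) × X | q.2 ∈ Side G q.1.1 q.1.2} = ⋃ n : ℕ, {q : (X × X) × X |
      Wk (fun a b => G.Adj a b ∧ s(a, b) ≠ s(q.1.1, q.1.2)) n q.1.2 q.2} := by
    ext q
    simp only [Set.mem_iUnion, Set.mem_ofPred_eq]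
    exact ⟨exists_Wk, fun ⟨n, hn⟩ => reach_of_Wk hn⟩
  rw [h2]
  refine MeasurableSet.iUnion fun n => ?_
  have h3 : Measurable fun q : (X × X) × X => (q.1, (q.1.2, q.2)) :=
    measurable_fst.prodMk ((measurable_snd.comp measurable_fst).prodMk measurable_snd)
  exact h3 (h1 n)

omit [StandardBorelSpace X] in
theorem meas_Dir (hGm : MeasurableSet {p : X × X | G.Adj p.1 p.2})
    (hS : MeasurableSet {q : (X × X) × X | q.2 ∈ Side G q.1.1 q.1.2}) (κ : Kernel X X)
    [IsMarkovKernel κ] : MeasurableSet {p : X × X | Dir G (fun x => κ x) p.1 p.2} := by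
  have h1 : Measurable fun p : X × X => (κ.comap Prod.fst measurable_fst) p
      (Prod.mk p ⁻¹' {q : (X × X) × X | q.2 ∈ Side G q.1.1 q.1.2}) :=
    Kernel.measurable_kernel_prodMk_left hS
  have h2 : Measurable fun p : X × X => (κ p.1).real (Side G p.1 p.2) := h1.ennreal_toReal
  exact hGm.inter (measurableSet_lt measurable_const h2)

end Sides

omit [MeasurableSpace X] [StandardBorelSpace X] in
/-- finitely many points lie in a finite connected set -/
theorem exists_connected {G : SimpleGraph X} {x : X} {m : ℕ} (a : Fin m → X)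
    (ha : ∀ j, G.Reachable x (a j)) : ∃ A : Finset X, (∀ j, a j ∈ A) ∧
      (∀ u ∈ A, ∀ v ∈ A, ReflTransGen (fun a b => G.Adj a b ∧ a ∈ A ∧ b ∈ A) u v) ∧
      ∀ u ∈ A, G.Reachable u x := by
  classical
  have h1 : ∀ y, ReflTransGen G.Adj x y → ∃ A : Finset X, x ∈ A ∧ y ∈ A ∧
      ∀ u ∈ A, ReflTransGen (fun a b => G.Adj a b ∧ a ∈ A ∧ b ∈ A) x u := by
    intro y hy
    induction hy with
    | refl =>
      refine ⟨{x}, by simp, by simp, fun u hu => ?_⟩
      rw [Finset.mem_singleton.1 hu]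
    | @tail y z _ h2 ih =>
      obtain ⟨A, hx, hy, hA⟩ := ih
      have hsub : ∀ u ∈ A, u ∈ insert z A := fun u hu => Finset.mem_insert_of_mem hu
      have hmono : ∀ u, ReflTransGen (fun a b => G.Adj a b ∧ a ∈ A ∧ b ∈ A) x u →
          ReflTransGen (fun a b => G.Adj a b ∧ a ∈ insert z A ∧ b ∈ insert z A) x u :=
        fun u hu => rtg_mono (fun a b h => ⟨h.1, hsub _ h.2.1, hsub _ h.2.2⟩) hu
      refine ⟨insert z A, hsub x hx, Finset.mem_insert_self _ _, fun u hu => ?_⟩
      rcases Finset.mem_insert.1 hu with h3 | h3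
      · rw [h3]
        exact (hmono y (hA y hy)).tail ⟨h2, hsub y hy, Finset.mem_insert_self _ _⟩
      · exact hmono u (hA u h3)
  choose B hBx hBa hB using fun j =>
    h1 (a j) ((SimpleGraph.reachable_iff_reflTransGen _ _).1 (ha j))
  have hsub : ∀ j, ∀ u ∈ B j, u ∈ Finset.univ.biUnion B := fun j u hu =>
    Finset.mem_biUnion.2 ⟨j, Finset.mem_univ j, hu⟩
  have h2 : ∀ u ∈ Finset.univ.biUnion B, ReflTransGen (fun a b => G.Adj a b ∧
      a ∈ Finset.univ.biUnion B ∧ b ∈ Finset.univ.biUnion B) x u := by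
    intro u hu
    obtain ⟨j, -, hj⟩ := Finset.mem_biUnion.1 hu
    exact rtg_mono (fun a b h => ⟨h.1, hsub j _ h.2.1, hsub j _ h.2.2⟩) (hB j u hj)
  refine ⟨Finset.univ.biUnion B, fun j => hsub j _ (hBa j), fun u hu v hv => ?_, fun u hu => ?_⟩
  · exact (rtg_symm (fun a b h => ⟨h.1.symm, h.2.2, h.2.1⟩) (h2 u hu)).trans (h2 v hv)
  · exact ((SimpleGraph.reachable_iff_reflTransGen _ _).2
      (rtg_mono (fun a b h => h.1) (h2 u hu))).symm

/-- **Treeable Fréchet-amenable equivalence relations are limits of bounded index.** -/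
theorem boundedIndexLimit_of_treeable_amenable {E : Setoid X} (hE : IsCBER E) (hTr : Treeable E)
    (hAm : FrechetAmenable E) : BoundedIndexLimit E := by
  classical
  obtain ⟨T, hT, hET⟩ := id hE
  obtain ⟨G, hGm, hG, hGE⟩ := hTr
  obtain ⟨𝓕, h𝓕, κ, hκ, hκE, hconv⟩ := hAm
  have hadj : ∀ x y, G.Adj x y → E.r x y := fun x y h => (hGE x y).2 h.reachable
  have hS := meas_sides hT hET hGm hadj
  have hS1 : ∀ x y, MeasurableSet (Side G x y) := fun x y =>
    (measurable_prodMk_left (x := (x, y))) hS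
  obtain ⟨φ, hφ⟩ := MeasureTheory.exists_measurableEmbedding_real X
  obtain ⟨c, N, hcm, hcN, hcs⟩ := exists_bits X
  have hDm : ∀ i, MeasurableSet {p : X × X | Dir G (fun x => κ i x) p.1 p.2} := fun i => by
    have := hκ i
    exact meas_Dir hGm hS (κ i)
  have hDE : ∀ i x y, Dir G (fun x => κ i x) x y → E.r x y := fun i x y h => hadj x y h.1
  choose p hpm hpE hp using fun i k => exists_flow hT hET (hDm i) (hDE i)
    (meas_Mk hT hET (hDm i) (hDE i) (hcm k) hφ.measurable)
    (fun x => Mk_reach (φ := φ) (hcN k) x)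
  refine boundedIndexLimit_of_fun hE (iter_bind h𝓕 iter_map_pair)
    (p := fun m => p m.unpair.1 m.unpair.2) (fun m => hpm _ _) (fun m x => hpE _ _ _)
    fun x => ⟨7, fun a ha => ?_⟩
  obtain ⟨A, haA, hconn, hAx⟩ := exists_connected (G := G) a fun j => (hGE _ _).1 (ha j)
  have h1 : ∀ᶠ i in 𝓕, ∀ u ∈ A, ∀ S : Set X, MeasurableSet S →
      |(κ i u).real S - (κ i x).real S| < 1 / 100 := by
    rw [Filter.eventually_all_finset]
    intro u hu
    exact hconv u x ((hGE _ _).2 (hAx u hu)) _ (by norm_num)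
  have h2 : ∀ᶠ k in atTop, ∀ u ∈ A, ∀ v ∈ A, c k u = c k v → u = v := by
    rw [Filter.eventually_all_finset]
    intro u _
    rw [Filter.eventually_all_finset]
    intro v _
    by_cases huv : u = v
    · exact Eventually.of_forall fun _ _ => huv
    · exact (hcs u v huv).mono fun k hk h => absurd h hk
  rw [Filter.eventually_iff, Filter.mem_bind']
  refine h1.mono fun i hi => ?_
  show _ ∈ Filter.map (Nat.pair i) atTop
  rw [Filter.mem_map]
  refine h2.mono fun k hk => ?_
  show ∃ j j', j ≠ j' ∧ p (Nat.pair i k).unpair.1 (Nat.pair i k).unpair.2 (a j) =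
    p (Nat.pair i k).unpair.1 (Nat.pair i k).unpair.2 (a j')
  simp only [Nat.unpair_pair]
  have := hκ i
  obtain ⟨F, hF, hAF⟩ := exists_heads (μ := κ i x) (ν := fun x => κ i x) hG hS1 hconn hi
  have hμ : κ i x {z | ¬ G.Reachable x z} = 0 := by
    have h3 : {z | ¬ G.Reachable x z} = {z | ¬ E.r x z} := by
      ext z
      simp only [Set.mem_ofPred_eq]
      rw [hGE]
    rw [h3]
    exact hκE i x
  obtain ⟨V, hV, hVM⟩ := card_markers (D := Dir G fun x => κ i x) (φ := φ) (hcN k) hφ.injective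
    A F hF hAF hk fun y hy y' hy' _ _ =>
      closed_meet (μ := κ i x) (ν := fun x => κ i x) hG hS1 hμ hconn hAx hi hy hy'
  have h3 : ∀ j, p i k (a j) ∈ V ∪ F.image (p i k) := by
    intro j
    rcases hp i k (A : Set X) (a j) (haA j) with ⟨h4, h5⟩ | ⟨u, hu, v, hv, h4, h5⟩
    · exact Finset.mem_union_left _ (hVM _ h4 h5)
    · refine Finset.mem_union_right _ ?_
      rw [h5]
      exact Finset.mem_image_of_mem _ (hAF v hv ⟨u, hu, h4⟩)
  have h4 : (V ∪ F.image (p i k)).card ≤ 7 := by
    have h5 := Finset.card_union_le V (F.image (p i k))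
    have h6 := Finset.card_image_le (s := F) (f := p i k)
    omega
  have hlt : Fintype.card (V ∪ F.image (p i k) : Finset X) < Fintype.card (Fin (7 + 1)) := by
    rw [Fintype.card_coe, Fintype.card_fin]
    omega
  obtain ⟨j, j', hjj, h9⟩ := Fintype.exists_ne_map_eq_of_card_lt
    (fun k' : Fin (7 + 1) => (⟨p i k (a k'), h3 k'⟩ : (V ∪ F.image (p i k) : Finset X))) hlt
  exact ⟨j, j', hjj, congrArg Subtype.val h9⟩

/-- hyperfinite relations are Fréchet-amenable -/
theorem frechetAmenable_of_hyperfinite {E : Setoid X} (hE : IsCBER E) (hH : Hyperfinite E) :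
    FrechetAmenable E := by
  classical
  obtain ⟨T, hT, hET⟩ := id hE
  obtain ⟨F, hFm, hFf, hmono, hFE⟩ := hH
  have hmono' : ∀ {k l : ℕ} {x y : X}, k ≤ l → (F k).r x y → (F l).r x y := by
    intro k l x y hkl hxy
    induction hkl with
    | refl => exact hxy
    | step _ ih => exact hmono _ _ _ ih
  have hsub : ∀ n x y, (F n).r x y → E.r x y := fun n x y h => (hFE x y).2 ⟨n, h⟩
  choose q hqm hqF hqe using fun n => exists_selector hT hET (hFm n) (hFf n) (hsub n)
  refine ⟨atTop, iter_atTop, fun n => Kernel.deterministic (q n) (hqm n), fun n => inferInstance,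
    fun n x => ?_, fun x y hxy ε hε => ?_⟩
  · have hm : MeasurableSet {y | ¬ E.r x y} := by
      have h1 := meas_rel (meas_E hT hET) (Y := X) (measurable_const (a := x)) measurable_id
      exact h1.compl
    rw [Kernel.deterministic_apply, Measure.dirac_apply' _ hm]
    refine Set.indicator_of_notMem ?_ _
    exact fun h => h (hsub n _ _ (hqF n x))
  · obtain ⟨k, hk⟩ := (hFE x y).1 hxy
    filter_upwards [eventually_ge_atTop k] with n hn S _
    rw [Kernel.deterministic_apply, Kernel.deterministic_apply, hqe n x y (hmono' hn hk), sub_self,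
      abs_zero]
    exact hε

end Pool.Agent.MP_750e50_lc
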